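import Pool.Agent.Helper80.NMI.Defs

namespace Pool.Agent.Helper80.NMI

open Order

/-! ### The sequence `f_β` -/

theorem iter_zero (F : Set ℕ → Set ℕ) : iter F 0 = ∅ := by
  unfold iter; exact Ordinal.limitRecOn_zero ..

theorem iter_succ (F : Set ℕ → Set ℕ) (β : Ordinal.{0}) :
    iter F (β + 1) = iter F β ∪ F (iter F β) := by
  unfold iter; rw [Ordinal.limitRecOn_add_one]

theorem iter_limit (F : Set ℕ → Set ℕ) {β : Ordinal.{0}} (h : IsSuccLimit β) :
    iter F β = ⋃ γ : Set.Iio β, iter F γ.1 := by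
  unfold iter; rw [Ordinal.limitRecOn_limit _ _ _ _ h]

theorem iter_mono (F : Set ℕ → Set ℕ) : Monotone (iter F) := by
  intro γ β h
  induction β using Ordinal.limitRecOn with
  | zero =>
    have : γ = 0 := by simpa using h
    rw [this]
  | add_one β ih =>
    rcases eq_or_lt_of_le h with rfl | h
    · exact le_rfl
    · rw [iter_succ]
      exact (ih (Order.lt_add_one_iff.1 h)).trans Set.subset_union_left
  | limit β hβ ih =>
    rcases eq_or_lt_of_le h with rfl | h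
    · exact le_rfl
    · rw [iter_limit F hβ]
      exact Set.subset_iUnion (fun γ : Set.Iio β => iter F γ.1) ⟨γ, h⟩

/-- Uniform description of the sequence. -/
theorem mem_iter (F : Set ℕ → Set ℕ) (β : Ordinal.{0}) (n : ℕ) :
    n ∈ iter F β ↔ ∃ γ < β, n ∈ F (iter F γ) := by
  induction β using Ordinal.limitRecOn with
  | zero => simp [iter_zero]
  | add_one β ih =>
    rw [iter_succ, Set.mem_union, ih]
    constructor
    · rintro (⟨γ, h, h'⟩ | h)
      · exact ⟨γ, h.trans (Order.lt_add_one_iff.2 le_rfl), h'⟩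
      · exact ⟨β, Order.lt_add_one_iff.2 le_rfl, h⟩
    · rintro ⟨γ, h, h'⟩
      rcases eq_or_lt_of_le (Order.lt_add_one_iff.1 h) with rfl | h
      · exact Or.inr h'
      · exact Or.inl ⟨γ, h, h'⟩
  | limit β hβ ih =>
    rw [iter_limit F hβ]
    simp only [Set.mem_iUnion, Subtype.exists, Set.mem_Iio, exists_prop]
    constructor
    · rintro ⟨γ, h, h'⟩
      obtain ⟨δ, hδ, h''⟩ := (ih γ h).1 h'
      exact ⟨δ, hδ.trans h, h''⟩
    · rintro ⟨γ, h, h'⟩
      refine ⟨γ + 1, hβ.add_one_lt h, ?_⟩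
      rw [iter_succ]
      exact Or.inr h'

theorem closure_nonempty (F : Set ℕ → Set ℕ) : {β | iter F β = iter F (β + 1)}.Nonempty := by
  by_contra hne
  have hne' : ∀ β, iter F β ≠ iter F (β + 1) := by
    intro β hβ
    exact hne ⟨β, hβ⟩
  refine not_injective_of_ordinal (iter F) ?_
  have key : ∀ β γ, β < γ → iter F β ≠ iter F γ := by
    intro β γ h heq
    apply hne' β
    apply le_antisymm
    · exact iter_mono F (le_of_lt (Order.lt_add_one_iff.2 le_rfl))
    · rw [heq]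
      exact iter_mono F (Order.add_one_le_of_lt h)
  intro β γ h
  by_contra hne
  rcases lt_or_gt_of_ne hne with h' | h'
  · exact key _ _ h' h
  · exact key _ _ h' h.symm

theorem closureOrd_spec (F : Set ℕ → Set ℕ) :
    iter F (closureOrd F) = iter F (closureOrd F + 1) :=
  csInf_mem (closure_nonempty F)

theorem closureOrd_le {F : Set ℕ → Set ℕ} {β : Ordinal.{0}} (h : iter F β = iter F (β + 1)) :
    closureOrd F ≤ β :=
  csInf_le' h

theorem closureOrd_le' {F : Set ℕ → Set ℕ} {β : Ordinal.{0}} (h : F (iter F β) ⊆ iter F β) :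
    closureOrd F ≤ β := by
  apply closureOrd_le
  rw [iter_succ]
  exact (Set.union_eq_left.2 h).symm

theorem nmi_closed (F : Set ℕ → Set ℕ) : F (nmi F) ⊆ nmi F := by
  have h := closureOrd_spec F
  rw [iter_succ] at h
  unfold nmi
  rw [← Set.union_eq_left]
  exact h.symm

theorem iter_of_ge {F : Set ℕ → Set ℕ} {β : Ordinal.{0}} (h : F (iter F β) ⊆ iter F β)
    {γ : Ordinal.{0}} (hγ : β ≤ γ) : iter F γ = iter F β := by
  induction γ using Ordinal.limitRecOn with
  | zero =>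
    have : β = 0 := by simpa using hγ
    rw [this]
  | add_one γ ih =>
    rcases eq_or_lt_of_le hγ with h' | h'
    · rw [h']
    · rw [iter_succ, ih (Order.lt_add_one_iff.1 h')]
      exact Set.union_eq_left.2 h
  | limit γ hγ' ih =>
    rcases eq_or_lt_of_le hγ with h' | h'
    · rw [h']
    · rw [iter_limit F hγ']
      apply le_antisymm
      · apply Set.iUnion_subset
        rintro ⟨δ, hδ⟩
        rcases le_total β δ with h'' | h''
        · exact (ih δ hδ h'').le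
        · exact iter_mono F h''
      · exact Set.subset_iUnion (fun γ : Set.Iio γ => iter F γ.1) ⟨β, h'⟩

theorem nmi_eq {F : Set ℕ → Set ℕ} {β : Ordinal.{0}} (h : F (iter F β) ⊆ iter F β) :
    nmi F = iter F β := by
  have h1 := closureOrd_le' h
  have h2 := nmi_closed F
  exact (iter_of_ge h2 h1).symm

/-- Induction principle: whatever is preserved along the sequence holds for `I(F)`. -/
theorem iter_subset_of {F : Set ℕ → Set ℕ} {S : Set ℕ} (h : ∀ X ⊆ S, F X ⊆ S)
    (β : Ordinal.{0}) : iter F β ⊆ S := by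
  induction β using Ordinal.limitRecOn with
  | zero => rw [iter_zero]; exact Set.empty_subset _
  | add_one β ih =>
    rw [iter_succ]
    exact Set.union_subset ih (h _ ih)
  | limit β hβ ih =>
    rw [iter_limit F hβ]
    exact Set.iUnion_subset fun γ => ih γ.1 γ.2

theorem nmi_subset_of {F : Set ℕ → Set ℕ} {S : Set ℕ} (h : ∀ X ⊆ S, F X ⊆ S) :
    nmi F ⊆ S := iter_subset_of h _

/-! ### Stages -/

variable {D D' : (Set ℕ → Set ℕ) → Set (Set ℕ)}
variable {X Y : ℕ → List ℕ → List (Set ℕ) → ℕ → Prop}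

theorem Clause.mono (hD : ∀ F, D' F ⊆ D F) (hXY : ∀ e as fs c, X e as fs c → Y e as fs c)
    {e : ℕ} {as : List ℕ} {fs : List (Set ℕ)} {c : ℕ} (H : Clause D X e as fs c) :
    Clause D' Y e as fs c := by
  cases H with
  | S1 => exact .S1 ..
  | S2 => exact .S2 ..
  | S3 => exact .S3 ..
  | S4 g h as fs b c h1 h2 => exact .S4 _ _ _ _ b _ (hXY _ _ _ _ h1) (hXY _ _ _ _ h2)
  | S5z g h as fs c h1 => exact .S5z _ _ _ _ _ (hXY _ _ _ _ h1)
  | S5s g h a as fs b c h1 h2 => exact .S5s _ _ _ _ _ b _ (hXY _ _ _ _ h1) (hXY _ _ _ _ h2)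
  | S6a g a as as' fs c h1 => exact .S6a _ _ _ _ _ _ (hXY _ _ _ _ h1)
  | S6b g as f fs fs' c h1 => exact .S6b _ _ _ _ _ _ (hXY _ _ _ _ h1)
  | S7 => exact .S7 ..
  | S8 h' n as fs G h1 => exact .S8 _ _ _ _ G fun f hf m => hXY _ _ _ _ (h1 f (hD _ hf) m)
  | S9 e as as' fs fs' c h1 => exact .S9 _ _ _ _ _ _ (hXY _ _ _ _ h1)

theorem stage_iff {μ : Ordinal.{0}} {e : ℕ} {as : List ℕ} {fs : List (Set ℕ)} {c : ℕ} :
    Stage D μ e as fs c ↔
      Clause D (fun e as fs c => ∃ ν, ∃ _ : ν < μ, Stage D ν e as fs c) e as fs c := by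
  rw [Stage]

/-- Obtained before stage `μ`. -/
def Before (D : (Set ℕ → Set ℕ) → Set (Set ℕ)) (μ : Ordinal.{0}) (e : ℕ) (as : List ℕ)
    (fs : List (Set ℕ)) (c : ℕ) : Prop := ∃ ν < μ, Stage D ν e as fs c

theorem stage_iff' {μ : Ordinal.{0}} {e : ℕ} {as : List ℕ} {fs : List (Set ℕ)} {c : ℕ} :
    Stage D μ e as fs c ↔ Clause D (Before D μ) e as fs c := by
  rw [stage_iff]
  have : (fun e as fs c => ∃ ν, ∃ _ : ν < μ, Stage D ν e as fs c) = Before D μ := by
    funext e as fs c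
    simp only [Before, exists_prop]
  rw [this]

theorem Before.mono {μ ν : Ordinal.{0}} (h : μ ≤ ν) {e : ℕ} {as : List ℕ} {fs : List (Set ℕ)}
    {c : ℕ} (H : Before D μ e as fs c) : Before D ν e as fs c := by
  obtain ⟨κ, h1, h2⟩ := H
  exact ⟨κ, h1.trans_le h, h2⟩

theorem Stage.mono {μ ν : Ordinal.{0}} (h : μ ≤ ν) {e : ℕ} {as : List ℕ} {fs : List (Set ℕ)}
    {c : ℕ} (H : Stage D μ e as fs c) : Stage D ν e as fs c := by
  rw [stage_iff'] at H ⊢
  exact H.mono (fun _ => subset_rfl) fun e as fs c h' => h'.mono h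

theorem Before.of_stage {μ : Ordinal.{0}} {e : ℕ} {as : List ℕ} {fs : List (Set ℕ)}
    {c : ℕ} (H : Stage D μ e as fs c) : Before D (μ + 1) e as fs c :=
  ⟨μ, Order.lt_add_one_iff.2 le_rfl, H⟩

theorem before_succ {μ : Ordinal.{0}} {e : ℕ} {as : List ℕ} {fs : List (Set ℕ)}
    {c : ℕ} : Before D (μ + 1) e as fs c ↔ Stage D μ e as fs c := by
  constructor
  · rintro ⟨ν, h, h'⟩
    exact h'.mono (Order.lt_add_one_iff.1 h)
  · exact Before.of_stage

theorem Stage.monoD (hD : ∀ F, D' F ⊆ D F) {μ : Ordinal.{0}} {e : ℕ} {as : List ℕ}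
    {fs : List (Set ℕ)} {c : ℕ} (H : Stage D μ e as fs c) : Stage D' μ e as fs c := by
  induction μ using WellFoundedLT.induction generalizing e as fs c with
  | ind μ ih =>
    rw [stage_iff'] at H ⊢
    refine H.mono hD fun e as fs c h' => ?_
    obtain ⟨ν, h1, h2⟩ := h'
    exact ⟨ν, h1, ih ν h1 h2⟩

/-! ### Inversion -/

theorem inv_S1 {x : ℕ} {as : List ℕ} {fs : List (Set ℕ)} {c : ℕ}
    (H : Clause D X (Nat.pair 1 x) as fs c) : x = 0 ∧ ∃ a as', as = a :: as' ∧ c = a + 1 := by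
  generalize he : Nat.pair 1 x = e at H
  cases H <;> simp [Nat.pair_eq_pair] at he
  exact ⟨he, _, _, rfl, rfl⟩

theorem inv_S2 {q : ℕ} {as : List ℕ} {fs : List (Set ℕ)} {c : ℕ}
    (H : Clause D X (Nat.pair 2 q) as fs c) : c = q := by
  generalize he : Nat.pair 2 q = e at H
  cases H <;> simp [Nat.pair_eq_pair] at he
  exact he.symm

theorem inv_S3 {x : ℕ} {as : List ℕ} {fs : List (Set ℕ)} {c : ℕ}
    (H : Clause D X (Nat.pair 3 x) as fs c) : x = 0 ∧ ∃ a as', as = a :: as' ∧ c = a := by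
  generalize he : Nat.pair 3 x = e at H
  cases H <;> simp [Nat.pair_eq_pair] at he
  exact ⟨he, _, _, rfl, rfl⟩

theorem inv_S4 {g h : ℕ} {as : List ℕ} {fs : List (Set ℕ)} {c : ℕ}
    (H : Clause D X (Nat.pair 4 (Nat.pair g h)) as fs c) :
    ∃ b, X h as fs b ∧ X g (b :: as) fs c := by
  generalize he : Nat.pair 4 (Nat.pair g h) = e at H
  cases H <;> simp [Nat.pair_eq_pair] at he
  obtain ⟨rfl, rfl⟩ := he
  exact ⟨_, by assumption, by assumption⟩

theorem inv_S5 {g h : ℕ} {as : List ℕ} {fs : List (Set ℕ)} {c : ℕ}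
    (H : Clause D X (Nat.pair 5 (Nat.pair g h)) as fs c) :
    (∃ as', as = 0 :: as' ∧ X g as' fs c) ∨
    (∃ a as' b, as = (a + 1) :: as' ∧ X (Nat.pair 5 (Nat.pair g h)) (a :: as') fs b ∧
      X h (a :: b :: as') fs c) := by
  generalize he : Nat.pair 5 (Nat.pair g h) = e at H
  cases H <;> simp [Nat.pair_eq_pair] at he
  · obtain ⟨rfl, rfl⟩ := he
    exact Or.inl ⟨_, rfl, by assumption⟩
  · obtain ⟨rfl, rfl⟩ := he
    exact Or.inr ⟨_, _, _, rfl, by assumption, by assumption⟩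

theorem inv_S6a {k g : ℕ} {as : List ℕ} {fs : List (Set ℕ)} {c : ℕ}
    (H : Clause D X (Nat.pair 6 (Nat.pair 0 (Nat.pair k g))) as fs c) :
    ∃ as₁ a as₂, as = as₁ ++ a :: as₂ ∧ as₁.length = k ∧ X g (a :: (as₁ ++ as₂)) fs c := by
  generalize he : Nat.pair 6 (Nat.pair 0 (Nat.pair k g)) = e at H
  cases H <;> simp [Nat.pair_eq_pair] at he
  obtain ⟨rfl, rfl⟩ := he
  exact ⟨_, _, _, rfl, rfl, by assumption⟩

theorem inv_S6b {k g : ℕ} {as : List ℕ} {fs : List (Set ℕ)} {c : ℕ}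
    (H : Clause D X (Nat.pair 6 (Nat.pair 1 (Nat.pair k g))) as fs c) :
    ∃ fs₁ f fs₂, fs = fs₁ ++ f :: fs₂ ∧ fs₁.length = k ∧ X g as (f :: (fs₁ ++ fs₂)) c := by
  generalize he : Nat.pair 6 (Nat.pair 1 (Nat.pair k g)) = e at H
  cases H <;> simp [Nat.pair_eq_pair] at he
  obtain ⟨rfl, rfl⟩ := he
  exact ⟨_, _, _, rfl, rfl, by assumption⟩

theorem inv_S7 {x : ℕ} {as : List ℕ} {fs : List (Set ℕ)} {c : ℕ}
    (H : Clause D X (Nat.pair 7 x) as fs c) :
    x = 0 ∧ ∃ a as' f fs', as = a :: as' ∧ fs = f :: fs' ∧ c = chi (a ∈ f) := by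
  generalize he : Nat.pair 7 x = e at H
  cases H <;> simp [Nat.pair_eq_pair] at he
  exact ⟨he, _, _, _, _, rfl, rfl, rfl⟩

theorem inv_S8 {h : ℕ} {as : List ℕ} {fs : List (Set ℕ)} {c : ℕ}
    (H : Clause D X (Nat.pair 8 h) as fs c) :
    ∃ (n : ℕ) (as' : List ℕ) (G : Set ℕ → ℕ → ℕ), as = n :: as' ∧ c = chi (n ∈ nmi (fun f => {m | G f m ≠ 0})) ∧
      ∀ f ∈ D (fun f => {m | G f m ≠ 0}), ∀ m, X h (m :: as') (f :: fs) (G f m) := by
  generalize he : Nat.pair 8 h = e at H
  cases H <;> simp [Nat.pair_eq_pair] at he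
  subst he
  exact ⟨_, _, _, rfl, rfl, by assumption⟩

theorem inv_S9 {k l : ℕ} {as : List ℕ} {fs : List (Set ℕ)} {c : ℕ}
    (H : Clause D X (Nat.pair 9 (Nat.pair k l)) as fs c) :
    ∃ e' as₁ as₂ fs₁ fs₂, as = e' :: (as₁ ++ as₂) ∧ as₂.length = k ∧ fs = fs₁ ++ fs₂ ∧
      fs₂.length = l ∧ X e' as₁ fs₁ c := by
  generalize he : Nat.pair 9 (Nat.pair k l) = e at H
  cases H <;> simp [Nat.pair_eq_pair] at he
  obtain ⟨rfl, rfl⟩ := he
  exact ⟨_, _, _, _, _, rfl, rfl, rfl, rfl, by assumption⟩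

/-! ### Uniqueness of values -/

/-- `D F` is large enough to determine `I(F)`. -/
def Good (D : (Set ℕ → Set ℕ) → Set (Set ℕ)) : Prop :=
  ∀ F F', (∀ f, f ∈ D F → f ∈ D F' → F f = F' f) → nmi F = nmi F'

theorem good_full : Good allReals := by
  intro F F' h
  have : F = F' := funext fun f => h f (Set.mem_univ _) (Set.mem_univ _)
  rw [this]

theorem iter_congr {F F' : Set ℕ → Set ℕ} {α : Ordinal.{0}}
    (h : ∀ β < α, iter F β = iter F' β → F (iter F β) = F' (iter F' β)) {β : Ordinal.{0}}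
    (hβ : β ≤ α) : iter F β = iter F' β := by
  induction β using WellFoundedLT.induction with
  | ind β ih =>
    ext n
    rw [mem_iter, mem_iter]
    constructor
    · rintro ⟨γ, h1, h2⟩
      refine ⟨γ, h1, ?_⟩
      rw [← h γ (h1.trans_le hβ) (ih γ h1 (h1.le.trans hβ))]
      exact h2
    · rintro ⟨γ, h1, h2⟩
      refine ⟨γ, h1, ?_⟩
      rw [h γ (h1.trans_le hβ) (ih γ h1 (h1.le.trans hβ))]
      exact h2

theorem nmi_closed_iter (F : Set ℕ → Set ℕ) :
    F (iter F (closureOrd F)) ⊆ iter F (closureOrd F) := nmi_closed F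

theorem good_used : Good usedReals := by
  have key : ∀ F F', closureOrd F ≤ closureOrd F' →
      (∀ f, f ∈ usedReals F → f ∈ usedReals F' → F f = F' f) → nmi F = nmi F' := by
    intro F F' hle h
    have h1 : ∀ β ≤ closureOrd F, iter F β = iter F' β := by
      intro β hβ
      refine iter_congr ?_ hβ
      intro γ hγ heq
      rw [← heq]
      exact h _ ⟨γ, hγ.le, rfl⟩ ⟨γ, hγ.le.trans hle, heq⟩
    have h2 := h1 _ le_rfl
    have h3 : F (iter F (closureOrd F)) = F' (iter F' (closureOrd F)) := by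
      rw [← h2]
      exact h _ ⟨_, le_rfl, rfl⟩ ⟨_, hle, h2⟩
    have h4 : F' (iter F' (closureOrd F)) ⊆ iter F' (closureOrd F) := by
      rw [← h3, ← h2]
      exact nmi_closed_iter F
    rw [nmi_eq h4]
    exact h2
  intro F F' h
  rcases le_total (closureOrd F) (closureOrd F') with h' | h'
  · exact key F F' h' h
  · exact (key F' F h' fun f h1 h2 => (h f h2 h1).symm).symm

theorem stage_unique (hD : Good D) {μ ν : Ordinal.{0}} {e : ℕ} {as : List ℕ}
    {fs : List (Set ℕ)} {c c' : ℕ} (H : Stage D μ e as fs c) (H' : Stage D ν e as fs c') :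
    c = c' := by
  induction μ using WellFoundedLT.induction generalizing ν e as fs c c' with
  | ind μ ih =>
    have ih' : ∀ {e as fs c c'}, Before D μ e as fs c → Before D ν e as fs c' → c = c' := by
      rintro e as fs c c' ⟨κ, h1, h2⟩ ⟨κ', h3, h4⟩
      exact ih κ h1 h2 h4
    rw [stage_iff'] at H H'
    cases H with
    | S1 a as fs =>
      obtain ⟨-, a', as', h1, rfl⟩ := inv_S1 H'
      cases h1; rfl
    | S2 q as fs => exact (inv_S2 H').symm
    | S3 a as fs =>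
      obtain ⟨-, a', as', h1, rfl⟩ := inv_S3 H'
      cases h1; rfl
    | S4 g h as fs b c h1 h2 =>
      obtain ⟨b', h3, h4⟩ := inv_S4 H'
      obtain rfl := ih' h1 h3
      exact ih' h2 h4
    | S5z g h as fs c h1 =>
      rcases inv_S5 H' with ⟨as', h3, h4⟩ | ⟨a, as', b, h3, h4, h5⟩
      · cases h3; exact ih' h1 h4
      · simp at h3
    | S5s g h a as fs b c h1 h2 =>
      rcases inv_S5 H' with ⟨as', h3, h4⟩ | ⟨a, as', b', h3, h4, h5⟩
      · simp at h3
      · cases h3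
        obtain rfl := ih' h1 h4
        exact ih' h2 h5
    | S6a g a as as' fs c h1 =>
      obtain ⟨as₁, a', as₂, h2, h3, h4⟩ := inv_S6a H'
      obtain ⟨rfl, h5⟩ := List.append_inj h2 h3.symm
      cases h5
      exact ih' h1 h4
    | S6b g as f fs fs' c h1 =>
      obtain ⟨as₁, a', as₂, h2, h3, h4⟩ := inv_S6b H'
      obtain ⟨rfl, h5⟩ := List.append_inj h2 h3.symm
      cases h5
      exact ih' h1 h4
    | S7 a as f fs =>
      obtain ⟨-, a', as', f', fs', h1, h2, rfl⟩ := inv_S7 H'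
      cases h1; cases h2; rfl
    | S8 h n as fs G h1 =>
      obtain ⟨n', as', G', h2, rfl, h4⟩ := inv_S8 H'
      cases h2
      have : nmi (fun f => {m | G f m ≠ 0}) = nmi (fun f => {m | G' f m ≠ 0}) := by
        apply hD
        intro f hf hf'
        ext m
        have := ih' (h1 f hf m) (h4 f hf' m)
        simp only [Set.mem_ofPred_eq, this]
      rw [this]
    | S9 e as as' fs fs' c h1 =>
      obtain ⟨e', as₁, as₂, fs₁, fs₂, h2, h3, h4, h5, h6⟩ := inv_S9 H'
      simp only [List.cons.injEq] at h2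
      obtain ⟨rfl, h2⟩ := h2
      obtain ⟨rfl, rfl⟩ := List.append_inj' h2 h3.symm
      obtain ⟨rfl, rfl⟩ := List.append_inj' h4 h5.symm
      exact ih' h1 h6

end Pool.Agent.Helper80.NMI
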