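import Pool.Agent.Helper80.NMI.Gap

namespace Pool.Agent.Helper80.NMI

open Order Encodable

/-! ### Computations inside a countable family of reals -/

/-- The `i`-th member of the family coded by `g`. -/
def sec (g : Set ℕ) (i : ℕ) : Set ℕ := {n | Nat.pair i n ∈ g}

abbrev T4 := ℕ × List ℕ × List ℕ × ℕ

/-- The computation fact `{e}(a⃗, R⃗) = c` belongs to `X`. -/
def Xh (X : Set ℕ) (t : T4) : Prop := encode ((0 : ℕ), t) ∈ X

/-- The stage fact belongs to `X`. -/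
def Qh (X : Set ℕ) (t : T4) : Prop := encode ((1 : ℕ), t) ∈ X

def GamC (X g : Set ℕ) (t : T4) : Prop :=
  (t.1 = Nat.pair 1 0 ∧ 0 < t.2.1.length ∧ t.2.2.2 = t.2.1.headI + 1) ∨
  (t.1.unpair.1 = 2 ∧ t.2.2.2 = t.1.unpair.2) ∨
  (t.1 = Nat.pair 3 0 ∧ 0 < t.2.1.length ∧ t.2.2.2 = t.2.1.headI) ∨
  (t.1.unpair.1 = 4 ∧ ∃ b, Xh X (t.1.unpair.2.unpair.2, t.2.1, t.2.2.1, b) ∧
    Xh X (t.1.unpair.2.unpair.1, b :: t.2.1, t.2.2.1, t.2.2.2)) ∨
  (t.1.unpair.1 = 5 ∧ 0 < t.2.1.length ∧ t.2.1.headI = 0 ∧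
    Xh X (t.1.unpair.2.unpair.1, t.2.1.tail, t.2.2.1, t.2.2.2)) ∨
  (t.1.unpair.1 = 5 ∧ 0 < t.2.1.length ∧ t.2.1.headI ≠ 0 ∧ ∃ b,
    Xh X (t.1, (t.2.1.headI - 1) :: t.2.1.tail, t.2.2.1, b) ∧
    Xh X (t.1.unpair.2.unpair.2, (t.2.1.headI - 1) :: b :: t.2.1.tail, t.2.2.1, t.2.2.2)) ∨
  (t.1.unpair.1 = 6 ∧ t.1.unpair.2.unpair.1 = 0 ∧
    t.1.unpair.2.unpair.2.unpair.1 < t.2.1.length ∧
    Xh X (t.1.unpair.2.unpair.2.unpair.2, front t.1.unpair.2.unpair.2.unpair.1 t.2.1,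
      t.2.2.1, t.2.2.2)) ∨
  (t.1.unpair.1 = 6 ∧ t.1.unpair.2.unpair.1 = 1 ∧
    t.1.unpair.2.unpair.2.unpair.1 < t.2.2.1.length ∧
    Xh X (t.1.unpair.2.unpair.2.unpair.2, t.2.1,
      front t.1.unpair.2.unpair.2.unpair.1 t.2.2.1, t.2.2.2)) ∨
  (t.1 = Nat.pair 7 0 ∧ 0 < t.2.1.length ∧ 0 < t.2.2.1.length ∧
    t.2.2.2 = chi (Nat.pair t.2.2.1.headI t.2.1.headI ∈ g)) ∨
  (t.1.unpair.1 = 8 ∧ 0 < t.2.1.length ∧ ∃ i,
    Qh X (t.1.unpair.2, t.2.1.tail, t.2.2.1, i) ∧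
    (∀ m, ∃ b, Xh X (t.1.unpair.2, m :: t.2.1.tail, i :: t.2.2.1, b) ∧
      (b ≠ 0 → Nat.pair i m ∈ g)) ∧
    t.2.2.2 = chi (Nat.pair i t.2.1.headI ∈ g)) ∨
  (t.1.unpair.1 = 9 ∧ 0 < t.2.1.length ∧ t.1.unpair.2.unpair.1 ≤ t.2.1.tail.length ∧
    t.1.unpair.2.unpair.2 ≤ t.2.2.1.length ∧
    Xh X (t.2.1.headI, t.2.1.tail.take (t.2.1.tail.length - t.1.unpair.2.unpair.1),
      t.2.2.1.take (t.2.2.1.length - t.1.unpair.2.unpair.2), t.2.2.2))

/-- `t = (h, a⃗, pos, i)`: the real number `i` is a stage of the induction. -/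
def GamQ (X g : Set ℕ) (t : T4) : Prop :=
  (∃ j, Qh X (t.1, t.2.1, t.2.2.1, j) ∧ ∀ m, ∃ b, Xh X (t.1, m :: t.2.1, j :: t.2.2.1, b) ∧
    (Nat.pair t.2.2.2 m ∈ g ↔ (Nat.pair j m ∈ g ∨ b ≠ 0))) ∨
  (∀ m, Nat.pair t.2.2.2 m ∈ g → ∃ j, Qh X (t.1, t.2.1, t.2.2.1, j) ∧ Nat.pair j m ∈ g ∧
    ∀ m', Nat.pair j m' ∈ g → Nat.pair t.2.2.2 m' ∈ g)

def dec5 (x : ℕ) : ℕ × T4 := (decode (α := ℕ × T4) x).getD (0, 0, [], [], 0)

theorem dec5_encode (x : ℕ × T4) : dec5 (encode x) = x := by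
  unfold dec5
  rw [Encodable.encodek]
  rfl

theorem primrec_dec5 : Primrec dec5 :=
  Primrec.option_getD.comp Primrec.decode (Primrec.const _)

def Gam5 (X g : Set ℕ) (x : ℕ × T4) : Prop :=
  (x.1 = 0 ∧ GamC X g x.2) ∨ (x.1 = 1 ∧ GamQ X g x.2)

/-- The operator. -/
def Gop (g X : Set ℕ) : Set ℕ := {x | Gam5 X g (dec5 x)}

/-- The facts found inside the family coded by `g`. -/
def ZZ (g : Set ℕ) : Set ℕ := nmi (Gop g)

section op

variable {τ α : Type} [Primcodable τ] [Primcodable α]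

theorem op_Xh {f : α → T4} (hf : Primrec f) :
    Op (τ := τ) (fun _ (x : α) rs => Xh (rs.getD 0 ∅) (f x)) := by
  unfold Xh
  exact Op.memAt 0 (Primrec.encode.comp ((Primrec.const (0 : ℕ)).pair hf))

theorem op_Qh {f : α → T4} (hf : Primrec f) :
    Op (τ := τ) (fun _ (x : α) rs => Qh (rs.getD 0 ∅) (f x)) := by
  unfold Qh
  exact Op.memAt 0 (Primrec.encode.comp ((Primrec.const (1 : ℕ)).pair hf))

theorem op_g {f h : α → ℕ} (hf : Primrec f) (hh : Primrec h) :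
    Op (τ := τ) (fun _ (x : α) rs => Nat.pair (f x) (h x) ∈ rs.getD 1 ∅) :=
  Op.memAt 1 (Primrec₂.natPair.comp hf hh)

theorem op_GamC : Op (τ := τ) (fun _ (t : T4) rs => GamC (rs.getD 0 ∅) (rs.getD 1 ∅) t) := by
  have he : Primrec fun t : T4 => t.1 := Primrec.fst
  have ha : Primrec fun t : T4 => t.2.1 := Primrec.fst.comp Primrec.snd
  have hp : Primrec fun t : T4 => t.2.2.1 := Primrec.fst.comp (Primrec.snd.comp Primrec.snd)
  have hc : Primrec fun t : T4 => t.2.2.2 := Primrec.snd.comp (Primrec.snd.comp Primrec.snd)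
  have hlen : Primrec fun t : T4 => t.2.1.length := Primrec.list_length.comp ha
  have hhd : Primrec fun t : T4 => t.2.1.headI := Primrec.list_headI.comp ha
  have htl : Primrec fun t : T4 => t.2.1.tail := Primrec.list_tail.comp ha
  have hplen : Primrec fun t : T4 => t.2.2.1.length := Primrec.list_length.comp hp
  have hpos : Op (τ := τ) (fun _ (t : T4) _ => 0 < t.2.1.length) :=
    Op.prim (pLt (Primrec.const 0) hlen)
  have htag : ∀ n : ℕ, Op (τ := τ) (fun _ (t : T4) _ => t.1.unpair.1 = n) := fun n =>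
    Op.prim (pEq (U1 he) (Primrec.const n))
  have hs : Primrec fun x : ℕ × T4 => x.2 := Primrec.snd
  unfold GamC
  refine Op.or ?_ (Op.or ?_ (Op.or ?_ (Op.or ?_ (Op.or ?_ (Op.or ?_ (Op.or ?_ (Op.or ?_
    (Op.or ?_ (Op.or ?_ ?_)))))))))
  · exact (Op.prim (pEq he (Primrec.const _))).and (hpos.and (Op.prim (pEq hc
      (Primrec.succ.comp hhd))))
  · exact (htag 2).and (Op.prim (pEq hc (U2 he)))
  · exact (Op.prim (pEq he (Primrec.const _))).and (hpos.and (Op.prim (pEq hc hhd)))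
  · refine (htag 4).and (Op.ex' (Op.and (op_Xh ?_) (op_Xh ?_)))
    · exact (U2 (U2 (he.comp hs))).pair ((ha.comp hs).pair ((hp.comp hs).pair Primrec.fst))
    · exact (U1 (U2 (he.comp hs))).pair ((Primrec.list_cons.comp Primrec.fst
        (ha.comp hs)).pair ((hp.comp hs).pair (hc.comp hs)))
  · exact (htag 5).and (hpos.and ((Op.prim (pEq hhd (Primrec.const 0))).and (op_Xh
      ((U1 (U2 he)).pair (htl.pair (hp.pair hc))))))
  · have hh1 : Primrec fun x : ℕ × T4 => x.2.2.1.headI - 1 :=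
      Primrec.nat_sub.comp (hhd.comp hs) (Primrec.const 1)
    refine (htag 5).and (hpos.and ((Op.prim (pEq hhd (Primrec.const 0))).not.and
      (Op.ex' (Op.and (op_Xh ?_) (op_Xh ?_)))))
    · exact (he.comp hs).pair ((Primrec.list_cons.comp hh1 (htl.comp hs)).pair
        ((hp.comp hs).pair Primrec.fst))
    · exact (U2 (U2 (he.comp hs))).pair ((Primrec.list_cons.comp hh1
        (Primrec.list_cons.comp Primrec.fst (htl.comp hs))).pair
        ((hp.comp hs).pair (hc.comp hs)))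
  · exact (htag 6).and ((Op.prim (pEq (U1 (U2 he)) (Primrec.const 0))).and ((Op.prim (pLt
      (U1 (U2 (U2 he))) hlen)).and (op_Xh ((U2 (U2 (U2 he))).pair
      ((primrec_front.comp (U1 (U2 (U2 he))) ha).pair (hp.pair hc))))))
  · exact (htag 6).and ((Op.prim (pEq (U1 (U2 he)) (Primrec.const 1))).and ((Op.prim (pLt
      (U1 (U2 (U2 he))) hplen)).and (op_Xh ((U2 (U2 (U2 he))).pair
      (ha.pair ((primrec_front.comp (U1 (U2 (U2 he))) hp).pair hc))))))
  · exact (Op.prim (pEq he (Primrec.const _))).and (hpos.and ((Op.prim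
      (pLt (Primrec.const 0) hplen)).and (Op.eqChi (op_g (Primrec.list_headI.comp hp) hhd) hc)))
  · refine (htag 8).and (hpos.and (Op.ex' (Op.and (op_Qh ?_) (Op.and (Op.all' (Op.ex'
      (Op.and (op_Xh ?_) (Op.imp (Op.prim (pEq Primrec.fst (Primrec.const 0))).not
      (op_g ?_ ?_))))) (Op.eqChi (op_g ?_ ?_) ?_)))))
    · exact (U2 (he.comp hs)).pair ((htl.comp hs).pair ((hp.comp hs).pair Primrec.fst))
    · have h3 : Primrec fun x : ℕ × (ℕ × (ℕ × T4)) => x.2.2.2 :=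
        Primrec.snd.comp (Primrec.snd.comp Primrec.snd)
      have h2 : Primrec fun x : ℕ × (ℕ × (ℕ × T4)) => x.2.2.1 :=
        Primrec.fst.comp (Primrec.snd.comp Primrec.snd)
      exact (U2 (he.comp h3)).pair ((Primrec.list_cons.comp (Primrec.fst.comp Primrec.snd)
        (htl.comp h3)).pair ((Primrec.list_cons.comp h2 (hp.comp h3)).pair Primrec.fst))
    · exact Primrec.fst.comp (Primrec.snd.comp Primrec.snd)
    · exact Primrec.fst.comp Primrec.snd
    · exact Primrec.fst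
    · exact hhd.comp hs
    · exact hc.comp hs
  · exact (htag 9).and (hpos.and ((Op.prim (pLe (U1 (U2 he)) (Primrec.list_length.comp
      htl))).and ((Op.prim (pLe (U2 (U2 he)) hplen)).and (op_Xh (hhd.pair
      ((Primrec.list_take.comp (Primrec.nat_sub.comp (Primrec.list_length.comp htl)
        (U1 (U2 he))) htl).pair ((Primrec.list_take.comp (Primrec.nat_sub.comp hplen
        (U2 (U2 he))) hp).pair hc)))))))

theorem op_GamQ : Op (τ := τ) (fun _ (t : T4) rs => GamQ (rs.getD 0 ∅) (rs.getD 1 ∅) t) := by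
  have he : Primrec fun t : T4 => t.1 := Primrec.fst
  have ha : Primrec fun t : T4 => t.2.1 := Primrec.fst.comp Primrec.snd
  have hp : Primrec fun t : T4 => t.2.2.1 := Primrec.fst.comp (Primrec.snd.comp Primrec.snd)
  have hc : Primrec fun t : T4 => t.2.2.2 := Primrec.snd.comp (Primrec.snd.comp Primrec.snd)
  have hs : Primrec fun x : ℕ × T4 => x.2 := Primrec.snd
  have hss : Primrec fun x : ℕ × (ℕ × T4) => x.2.2 := Primrec.snd.comp Primrec.snd
  have hsss : Primrec fun x : ℕ × (ℕ × (ℕ × T4)) => x.2.2.2 :=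
    Primrec.snd.comp (Primrec.snd.comp Primrec.snd)
  unfold GamQ
  refine Op.or (Op.ex' (Op.and (op_Qh ?_) (Op.all' (Op.ex' (Op.and (op_Xh ?_)
    (Op.iff (op_g ?_ ?_) (Op.or (op_g ?_ ?_) (Op.prim (pEq Primrec.fst
    (Primrec.const 0))).not)))))))
    (Op.all' (Op.imp (op_g ?_ ?_) (Op.ex' (Op.and (op_Qh ?_) (Op.and (op_g ?_ ?_)
      (Op.all' (Op.imp (op_g ?_ ?_) (op_g ?_ ?_))))))))
  · exact (he.comp hs).pair ((ha.comp hs).pair ((hp.comp hs).pair Primrec.fst))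
  · exact (he.comp hsss).pair ((Primrec.list_cons.comp (Primrec.fst.comp Primrec.snd)
      (ha.comp hsss)).pair ((Primrec.list_cons.comp (Primrec.fst.comp
      (Primrec.snd.comp Primrec.snd)) (hp.comp hsss)).pair Primrec.fst))
  · exact hc.comp hsss
  · exact Primrec.fst.comp Primrec.snd
  · exact Primrec.fst.comp (Primrec.snd.comp Primrec.snd)
  · exact Primrec.fst.comp Primrec.snd
  · exact hc.comp hs
  · exact Primrec.fst
  · exact (he.comp hss).pair ((ha.comp hss).pair ((hp.comp hss).pair Primrec.fst))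
  · exact Primrec.fst
  · exact Primrec.fst.comp Primrec.snd
  · exact Primrec.fst.comp Primrec.snd
  · exact Primrec.fst
  · exact hc.comp hsss
  · exact Primrec.fst

/-- Membership in `ZZ g`, with `g` the real number `0`. -/
theorem op_ZZ {f : α → ℕ} (hf : Primrec f) :
    Op (τ := τ) (fun _ (x : α) rs => f x ∈ ZZ (rs.getD 0 ∅)) := by
  have h1 : Op (τ := τ) (fun _ (x : ℕ × α) rs =>
      Gam5 (rs.getD 0 ∅) (rs.getD 1 ∅) (dec5 x.1)) := by
    have hd : Primrec fun x : ℕ × α => dec5 x.1 := primrec_dec5.comp Primrec.fst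
    have hd1 : Primrec fun x : ℕ × α => (dec5 x.1).1 := Primrec.fst.comp hd
    have hd2 : Primrec fun x : ℕ × α => (dec5 x.1).2 := Primrec.snd.comp hd
    unfold Gam5
    exact ((Op.prim (pEq hd1 (Primrec.const 0))).and (op_GamC.sub hd2)).or
      ((Op.prim (pEq hd1 (Primrec.const 1))).and (op_GamQ.sub hd2))
  have h2 := Op.ind' (τ := τ) (α := α)
    (Φ := fun _ m _ rs => Gam5 (rs.getD 0 ∅) (rs.getD 1 ∅) (dec5 m)) h1 hf
  exact h2.of_iff fun R n rs => Iff.rfl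

end op

end Pool.Agent.Helper80.NMI
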