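import Mathlib

/-!
# Kleene computability (S1-S9) relative to non-monotone induction

Cantor space is identified with `Set ℕ` (pointwise order = inclusion).
-/

namespace Pool.Agent.Helper80.NMI

open Classical

/-- The characteristic value of a proposition: `1` if it holds and `0` otherwise. -/
noncomputable def chi (P : Prop) : ℕ := if P then 1 else 0

/-- The transfinite sequence of `F`: `f_0 = ∅`, `f_{β+1} = f_β ∪ F(f_β)`, and
`f_β = ⋃_{γ<β} f_γ` for limit `β`. -/
noncomputable def iter (F : Set ℕ → Set ℕ) (β : Ordinal.{0}) : Set ℕ :=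
  Ordinal.limitRecOn β (motive := fun _ => Set ℕ) ∅ (fun _ f => f ∪ F f)
    (fun β _ ih => ⋃ γ : Set.Iio β, ih γ.1 γ.2)

/-- `α_F`, the least `β` with `f_β = f_{β+1}`. -/
noncomputable def closureOrd (F : Set ℕ → Set ℕ) : Ordinal.{0} :=
  sInf {β | iter F β = iter F (β + 1)}

/-- Non-monotone induction `I(F) = f_{α_F}`. -/
noncomputable def nmi (F : Set ℕ → Set ℕ) : Set ℕ := iter F (closureOrd F)

/-- One application of Kleene's schemes S1-S9 relative to `I`.

`X e a⃗ f⃗ c` says that `{e}(I, a⃗, f⃗) = c` has already been obtained; here `a⃗` is a finite list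
of natural numbers and `f⃗` a finite list of elements of Cantor space.  `Clause D X e a⃗ f⃗ c` says
that one further application of a scheme gives `{e}(I, a⃗, f⃗) = c`.  An index is the number of
its scheme paired with the data of the scheme; arities need not be coded because the arguments
are lists.

In S8, `I` is applied to `F(f) = {m | {h}(I, m, a⃗, f, f⃗) ≠ 0}`, and `D F` is the set of those
arguments `f` at which the values of `F` are immediate subcomputations (see `allReals` and
`usedReals` below); `G f m` is the value of `{h}(I, m, a⃗, f, f⃗)` for these `f`. -/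
inductive Clause (D : (Set ℕ → Set ℕ) → Set (Set ℕ))
    (X : ℕ → List ℕ → List (Set ℕ) → ℕ → Prop) : ℕ → List ℕ → List (Set ℕ) → ℕ → Prop
  /-- S1, successor: `{e}(a, a⃗, f⃗) = a + 1`. -/
  | S1 (a : ℕ) (as : List ℕ) (fs : List (Set ℕ)) :
      Clause D X (Nat.pair 1 0) (a :: as) fs (a + 1)
  /-- S2, constants: `{e}(a⃗, f⃗) = q`. -/
  | S2 (q : ℕ) (as : List ℕ) (fs : List (Set ℕ)) :
      Clause D X (Nat.pair 2 q) as fs q
  /-- S3, projection: `{e}(a, a⃗, f⃗) = a`. -/
  | S3 (a : ℕ) (as : List ℕ) (fs : List (Set ℕ)) :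
      Clause D X (Nat.pair 3 0) (a :: as) fs a
  /-- S4, composition: `{e}(a⃗, f⃗) = {g}({h}(a⃗, f⃗), a⃗, f⃗)`. -/
  | S4 (g h : ℕ) (as : List ℕ) (fs : List (Set ℕ)) (b c : ℕ) :
      X h as fs b → X g (b :: as) fs c →
      Clause D X (Nat.pair 4 (Nat.pair g h)) as fs c
  /-- S5, primitive recursion: `{e}(0, a⃗, f⃗) = {g}(a⃗, f⃗)`. -/
  | S5z (g h : ℕ) (as : List ℕ) (fs : List (Set ℕ)) (c : ℕ) :
      X g as fs c → Clause D X (Nat.pair 5 (Nat.pair g h)) (0 :: as) fs c
  /-- S5, primitive recursion: `{e}(a + 1, a⃗, f⃗) = {h}(a, {e}(a, a⃗, f⃗), a⃗, f⃗)`. -/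
  | S5s (g h a : ℕ) (as : List ℕ) (fs : List (Set ℕ)) (b c : ℕ) :
      X (Nat.pair 5 (Nat.pair g h)) (a :: as) fs b → X h (a :: b :: as) fs c →
      Clause D X (Nat.pair 5 (Nat.pair g h)) ((a + 1) :: as) fs c
  /-- S6, permutation of number arguments: `{e}(a⃗, a, a⃗', f⃗) = {g}(a, a⃗, a⃗', f⃗)`. -/
  | S6a (g a : ℕ) (as as' : List ℕ) (fs : List (Set ℕ)) (c : ℕ) :
      X g (a :: (as ++ as')) fs c →
      Clause D X (Nat.pair 6 (Nat.pair 0 (Nat.pair as.length g))) (as ++ a :: as') fs c
  /-- S6, permutation of arguments from Cantor space. -/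
  | S6b (g : ℕ) (as : List ℕ) (f : Set ℕ) (fs fs' : List (Set ℕ)) (c : ℕ) :
      X g as (f :: (fs ++ fs')) c →
      Clause D X (Nat.pair 6 (Nat.pair 1 (Nat.pair fs.length g))) as (fs ++ f :: fs') c
  /-- S7, application of an argument from Cantor space: `{e}(a, a⃗, f, f⃗) = f(a)`. -/
  | S7 (a : ℕ) (as : List ℕ) (f : Set ℕ) (fs : List (Set ℕ)) :
      Clause D X (Nat.pair 7 0) (a :: as) (f :: fs) (chi (a ∈ f))
  /-- S8, application of `I`: `{e}(n, a⃗, f⃗) = I(F)(n)` where
  `F(f) = {m | {h}(m, a⃗, f, f⃗) ≠ 0}`. -/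
  | S8 (h n : ℕ) (as : List ℕ) (fs : List (Set ℕ)) (G : Set ℕ → ℕ → ℕ) :
      (∀ f ∈ D (fun f => {m | G f m ≠ 0}), ∀ m, X h (m :: as) (f :: fs) (G f m)) →
      Clause D X (Nat.pair 8 h) (n :: as) fs (chi (n ∈ nmi (fun f => {m | G f m ≠ 0})))
  /-- S9, enumeration: `{e'}(e, b⃗, c⃗) = {e}(b⃗)`, also for arguments from Cantor space. -/
  | S9 (e : ℕ) (as as' : List ℕ) (fs fs' : List (Set ℕ)) (c : ℕ) :
      X e as fs c →
      Clause D X (Nat.pair 9 (Nat.pair as'.length fs'.length)) (e :: (as ++ as')) (fs ++ fs') c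

/-- The stages of the positive inductive definition given by `Clause D`: the tuples obtained at
stage `μ` (or earlier) are those given by one scheme from the tuples of earlier stages. -/
def Stage (D : (Set ℕ → Set ℕ) → Set (Set ℕ)) (μ : Ordinal.{0}) :
    ℕ → List ℕ → List (Set ℕ) → ℕ → Prop :=
  Clause D (fun e as fs c => ∃ ν, ∃ _ : ν < μ, Stage D ν e as fs c)
termination_by μ

/-- `{e}(I, a⃗, f⃗) = c`: the least fixed point of the inductive definition. -/
def Conv (D : (Set ℕ → Set ℕ) → Set (Set ℕ)) (e : ℕ) (as : List ℕ) (fs : List (Set ℕ))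
    (c : ℕ) : Prop := ∃ μ, Stage D μ e as fs c

/-- `μ` is the length of some terminating computation `{e}(I, a⃗)` with integer inputs: the stage
at which it enters the inductive definition, that is the height of its computation tree. -/
def IsLength (D : (Set ℕ → Set ℕ) → Set (Set ℕ)) (μ : Ordinal.{0}) : Prop :=
  ∃ (e : ℕ) (as : List ℕ) (c : ℕ), Stage D μ e as [] c ∧ ∀ ν < μ, ¬ Stage D ν e as [] c

/-- `α` is computable in `I`: it is the order type of a well-ordering of a set `A` of natural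
numbers whose characteristic function (of `m ≤ n`, for `m`, `n` in `A`) is computable in `I`
from integer inputs. -/
def ComputableOrd (D : (Set ℕ → Set ℕ) → Set (Set ℕ)) (α : Ordinal.{0}) : Prop :=
  ∃ (A : Set ℕ) (r : A → A → Prop) (_ : IsWellOrder A r) (e : ℕ), Ordinal.type r = α ∧
    ∀ m n : ℕ, Conv D e [m, n] [] (chi (∃ (hm : m ∈ A) (hn : n ∈ A), ¬ r ⟨n, hn⟩ ⟨m, hm⟩))

/-- Kleene's S8: `F` has to be total, and the values of `F` at all elements of Cantor space are
immediate subcomputations. -/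
def allReals (_ : Set ℕ → Set ℕ) : Set (Set ℕ) := Set.univ

/-- The countable form of S8: the immediate subcomputations are the values of `F` on which
`I(F)` depends, those at `f_β` for `β ≤ α_F`. -/
def usedReals (F : Set ℕ → Set ℕ) : Set (Set ℕ) := {f | ∃ β ≤ closureOrd F, f = iter F β}

end Pool.Agent.Helper80.NMI
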