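import Pool.Agent.Helper80.NMI.Interp

namespace Pool.Agent.Helper80.NMI

open Order Encodable

/-! ### Testing well-foundedness -/

theorem nmi_acc (g : Set ℕ) :
    nmi (fun Y => {m | ∀ ν, prec g ν m → ν ∈ Y}) = {m | Acc (prec g) m} := by
  apply le_antisymm
  · apply nmi_subset_of
    intro X hX m hm
    exact Acc.intro m fun ν hν => hX (hm ν hν)
  · intro m hm
    simp only [Set.mem_ofPred_eq] at hm
    induction hm with
    | intro m _ ih => exact nmi_closed (fun Y => {m | ∀ ν, prec g ν m → ν ∈ Y}) ih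

theorem op_acc {τ : Type} [Primcodable τ] :
    Op (τ := τ) (fun _ (n : ℕ) rs => Acc (prec (rs.getD 0 ∅)) n) := by
  have h1 : Op (τ := τ) (fun _ (x : ℕ × (ℕ × ℕ)) rs =>
      prec (rs.getD 1 ∅) x.1 x.2.1 → x.1 ∈ rs.getD 0 ∅) :=
    (op_prec Primrec.fst (Primrec.fst.comp Primrec.snd) 1).imp (Op.memAt 0 Primrec.fst)
  have h2 : Op (τ := τ) (fun _ (x : ℕ × ℕ) rs =>
      ∀ ν, prec (rs.getD 1 ∅) ν x.1 → ν ∈ rs.getD 0 ∅) :=
    Op.all' (Φ := fun _ ν (x : ℕ × ℕ) rs => prec (rs.getD 1 ∅) ν x.1 → ν ∈ rs.getD 0 ∅) h1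
  have h3 := Op.ind' (τ := τ) (α := ℕ)
    (Φ := fun _ m _ rs => ∀ ν, prec (rs.getD 1 ∅) ν m → ν ∈ rs.getD 0 ∅) h2
    (f := fun n => n) Primrec.id
  refine h3.of_iff fun R n rs => ?_
  have := nmi_acc (rs.getD 0 ∅)
  simp only [List.getD_cons_succ, List.getD_cons_zero]
  rw [this]
  rfl

/-! ### The operator -/

/-- The integer-input computation with number `u`. -/
def dec (u : ℕ) : ℕ × List ℕ := (decode (α := ℕ × List ℕ) u).getD (0, [])

theorem dec_encode (x : ℕ × List ℕ) : dec (encode x) = x := by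
  unfold dec
  rw [Encodable.encodek]
  rfl

theorem primrec_dec : Primrec dec :=
  Primrec.option_getD.comp Primrec.decode (Primrec.const _)

/-- The number `u` is recorded by the relation `R`. -/
def Rec (R : RR Tp) (u : ℕ) : Prop := ∃ c, R ((dec u).1, (dec u).2, c) []

/-- One further stage, relative to `R`. -/
def Psi (R : RR Tp) (x : ℕ) (rs : List (Set ℕ)) : Prop :=
  Rec R x.unpair.1 ∧ Rec R x.unpair.2 ∧ Nat.pair x.unpair.2 x.unpair.2 ∉ rs.getD 0 ∅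

theorem op_Psi : Op Psi := by
  unfold Psi Rec
  have h : ∀ {f : ℕ → ℕ}, Primrec f → Op (τ := Tp) (fun R (x : ℕ) (_ : List (Set ℕ)) =>
      ∃ c, R ((dec (f x)).1, (dec (f x)).2, c) []) := by
    intro f hf
    have h1 : Primrec fun x : ℕ × ℕ => dec (f x.2) := primrec_dec.comp (hf.comp Primrec.snd)
    have h2 : Op (τ := Tp) (fun R (x : ℕ × ℕ) rs =>
        R ((dec (f x.2)).1, (dec (f x.2)).2, x.1) rs) :=
      Op.callAt ((Primrec.fst.comp h1).pair ((Primrec.snd.comp h1).pair Primrec.fst))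
    exact Op.ex' (Φ := fun R c (x : ℕ) _ => R ((dec (f x)).1, (dec (f x)).2, c) [])
      (Op.reals h2 (fun _ _ => []) (fun _ _ => []) (Primrec.const []) (by simp) (by simp))
  exact (h (Primrec.fst.comp Primrec.unpair)).and ((h (Primrec.snd.comp Primrec.unpair)).and
    (Op.memAt 0 (Primrec₂.natPair.comp (Primrec.snd.comp Primrec.unpair)
      (Primrec.snd.comp Primrec.unpair))).not)

/-- The operator whose non-monotone induction enumerates the stages. -/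
def Fop (g : Set ℕ) : Set ℕ := {x | Acc (prec g) 0 ∧ Psi (Rel (rk g 0)) x [g]}

theorem exists_Fop : ∃ q : ℕ, ∀ (D : (Set ℕ → Set ℕ) → Set (Set ℕ)) (g : Set ℕ) (x a : ℕ)
    (fs : List (Set ℕ)), Sem D (fun _ => True) q (Nat.pair x a) (g :: fs) (chi (x ∈ Fop g)) := by
  obtain ⟨P, hP⟩ := exists_interp
  obtain ⟨p1, k1, hp1⟩ := op_acc (τ := Tp)
  obtain ⟨p2, k2, hp2⟩ := op_Psi
  let g1 : ℕ × (ℕ × ℕ) → (ℕ × ℕ × List ℕ × ℕ) := fun x => (pK 0, 0, [x.1 - 1], 0)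
  let g2 : ℕ × (ℕ × ℕ) → (ℕ × ℕ × List ℕ × ℕ) :=
    fun x => (P, Nat.pair 0 (x.1 - 1), [x.1 - 1], x.2.1)
  have hl : Primrec fun x : ℕ × (ℕ × ℕ) => x.1 - 1 :=
    Primrec.nat_sub.comp Primrec.fst (Primrec.const 1)
  have hg1 : Primrec g1 :=
    (Primrec.const _).pair ((Primrec.const _).pair ((Primrec.list_cons.comp hl
      (Primrec.const [])).pair (Primrec.const _)))
  have hg2 : Primrec g2 :=
    (Primrec.const _).pair ((Primrec₂.natPair.comp (Primrec.const _) hl).pair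
      ((Primrec.list_cons.comp hl (Primrec.const [])).pair (Primrec.fst.comp Primrec.snd)))
  refine ⟨ite' (subst (cod g1) p1) (subst (cod g2) p2) (pK 0), ?_⟩
  intro D g x a fs
  have hB : Bd (fun _ : Ordinal.{0} => True) := ladder_true.bd 0
  set C : List (Set ℕ) → Prop := fun fs' => fs.length < fs'.length ∧ lvl fs' fs.length = g
    with hC
  have hst : Stable C := by
    rintro f fs' ⟨h1, h2⟩
    refine ⟨by simp only [List.length_cons]; omega, ?_⟩
    rw [lvl_cons h1]; exact h2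
  have hfs : C (g :: fs) := ⟨by simp, lvl_length g fs⟩
  have hval : ∀ d ∈ [fs.length], d < (g :: fs).length := by
    intro d hd
    rw [List.mem_singleton] at hd
    rw [hd]
    exact hfs.1
  have hx : Nat.pair x a = encode (x, a) := by
    simp only [Encodable.encode_prod_val, Encodable.encode_nat]
  rw [hx]
  refine sem_ite (b := chi (Acc (prec g) 0)) hB ?_ ?_ ?_
  · refine sem_substT hB hg1 ?_
    have := hp1 D Tru ladder_true C hst (pK 0) 0 _ (oracle_triv (hB) C 0) 0 [fs.length]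
      (g :: fs) hfs hval
    simp only [List.map_cons, List.map_nil, List.getD_cons_zero, lvl_length] at this
    change Sem D (fun _ => True) _ _ _ _ at this
    simpa [g1] using this
  · intro h
    rw [chi_ne_zero] at h
    refine sem_substT hB hg2 ?_
    have := hp2 D Tru ladder_true C hst P (Nat.pair 0 fs.length) (Rel (rk g 0))
      (hP D g fs.length 0 h) x [fs.length] (g :: fs) hfs hval
    simp only [List.map_cons, List.map_nil, lvl_length] at this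
    rw [chi_congr (show x ∈ Fop g ↔ Psi (Rel (rk g 0)) x [g] from by simp [Fop, h])]
    change Sem D (fun _ => True) _ _ _ _ at this
    simpa [g2] using this
  · intro h
    rw [chi_eq_zero] at h
    have : chi (x ∈ Fop g) = 0 := chi_eq_zero.2 fun h' => h h'.1
    rw [this]
    exact sem_const hB _ _ _

/-! ### Lengths -/

/-- `{e}(a⃗)` with number `u` is obtained at stage `μ` (countable reading). -/
def TmAt (μ : Ordinal.{0}) (u : ℕ) : Prop := ∃ c, Stage usedReals μ (dec u).1 (dec u).2 [] c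

def Tm (u : ℕ) : Prop := ∃ μ, TmAt μ u

noncomputable def len (u : ℕ) : Ordinal.{0} := sInf {μ | TmAt μ u}

theorem tmAt_iff {μ : Ordinal.{0}} {u : ℕ} : TmAt μ u ↔ Tm u ∧ len u ≤ μ := by
  constructor
  · intro h
    exact ⟨⟨μ, h⟩, csInf_le' h⟩
  · rintro ⟨h1, h2⟩
    obtain ⟨c, hc⟩ : TmAt (len u) u := csInf_mem h1
    exact ⟨c, hc.mono h2⟩

theorem rec_iff {μ : Ordinal.{0}} {u : ℕ} : Rec (Rel μ) u ↔ Tm u ∧ len u < μ := by
  unfold Rec Rel
  constructor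
  · rintro ⟨c, ν, h1, h2⟩
    have : TmAt ν u := ⟨c, h2⟩
    rw [tmAt_iff] at this
    exact ⟨this.1, this.2.trans_lt h1⟩
  · rintro ⟨h1, h2⟩
    obtain ⟨c, hc⟩ : TmAt (len u) u := csInf_mem h1
    exact ⟨c, len u, h2, hc⟩

theorem isLength_iff {μ : Ordinal.{0}} : IsLength usedReals μ ↔ ∃ u, Tm u ∧ len u = μ := by
  constructor
  · rintro ⟨e, as, c, h1, h2⟩
    have h3 : TmAt μ (encode (e, as)) := ⟨c, by rw [dec_encode]; exact h1⟩
    obtain ⟨h4, h5⟩ := tmAt_iff.1 h3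
    refine ⟨_, h4, ?_⟩
    by_contra hne
    have h6 := lt_of_le_of_ne h5 hne
    obtain ⟨c', hc'⟩ : TmAt (len (encode (e, as))) (encode (e, as)) := csInf_mem h4
    rw [dec_encode] at hc'
    have := stage_unique good_used h1 hc'
    rw [← this] at hc'
    exact h2 _ h6 hc'
  · rintro ⟨u, h1, rfl⟩
    obtain ⟨c, hc⟩ : TmAt (len u) u := csInf_mem h1
    refine ⟨_, _, c, hc, ?_⟩
    intro ν hν h
    exact absurd (tmAt_iff.1 ⟨c, h⟩).2 (not_le.2 hν)

theorem exists_not_length : ∃ μ, ¬ IsLength usedReals μ := by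
  by_contra hn
  push Not at hn
  simp only [isLength_iff] at hn
  choose f hf using hn
  refine not_injective_of_ordinal f ?_
  intro μ ν h
  have h1 := (hf μ).2
  have h2 := (hf ν).2
  rw [h] at h1
  exact h1.symm.trans h2

/-- The first ordinal which is not a length. -/
noncomputable def lam : Ordinal.{0} := sInf {μ | ¬ IsLength usedReals μ}

theorem lam_not_length : ¬ IsLength usedReals lam := csInf_mem exists_not_length

theorem length_of_lt {μ : Ordinal.{0}} (h : μ < lam) : ∃ u, Tm u ∧ len u = μ := by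
  rw [← isLength_iff]
  by_contra hn
  exact absurd (csInf_le' hn) (not_le.2 h)

/-- The set coding the stages below `β`. -/
def GG (β : Ordinal.{0}) : Set ℕ :=
  {x | Tm x.unpair.1 ∧ Tm x.unpair.2 ∧ len x.unpair.1 ≤ len x.unpair.2 ∧ len x.unpair.2 < β}

theorem pair_mem_GG {β : Ordinal.{0}} {u v : ℕ} :
    Nat.pair u v ∈ GG β ↔ Tm u ∧ Tm v ∧ len u ≤ len v ∧ len v < β := by
  simp [GG]

open Classical in
noncomputable def mes (β : Ordinal.{0}) (n : ℕ) : Ordinal.{0} :=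
  if n = 0 then β + 1 else if n = 1 then β else
    if Tm (n - 2) ∧ len (n - 2) < β then len (n - 2) else 0

theorem prec_GG {β : Ordinal.{0}} {ν n : ℕ} : prec (GG β) ν n ↔
    (n = 0 ∧ (ν = 1 ∨ (2 ≤ ν ∧ Tm (ν - 2) ∧ len (ν - 2) < β))) ∨
    (n = 1 ∧ 2 ≤ ν ∧ Tm (ν - 2) ∧ len (ν - 2) < β) ∨
    (2 ≤ n ∧ 2 ≤ ν ∧ Tm (ν - 2) ∧ Tm (n - 2) ∧ len (ν - 2) < len (n - 2) ∧ len (n - 2) < β) := by
  unfold prec
  simp only [pair_mem_GG, le_refl, true_and]
  constructor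
  · rintro (⟨h1, h2 | h2⟩ | ⟨h1, h2⟩ | ⟨h1, h2, h3, h4⟩)
    · exact Or.inl ⟨h1, Or.inl h2⟩
    · exact Or.inl ⟨h1, Or.inr (by tauto)⟩
    · exact Or.inr (Or.inl (by tauto))
    · refine Or.inr (Or.inr ⟨h1, h2, h3.1, h3.2.1, ?_, h3.2.2.2⟩)
      by_contra hn
      exact h4 ⟨h3.2.1, h3.1, not_lt.1 hn, h3.2.2.1.trans_lt h3.2.2.2⟩
  · rintro (⟨h1, h2 | h2⟩ | ⟨h1, h2⟩ | ⟨h1, h2, h3, h4, h5, h6⟩)
    · exact Or.inl ⟨h1, Or.inl h2⟩
    · exact Or.inl ⟨h1, Or.inr (by tauto)⟩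
    · exact Or.inr (Or.inl (by tauto))
    · exact Or.inr (Or.inr ⟨h1, h2, ⟨h3, h4, h5.le, h6⟩, fun h => absurd h.2.2.1 (not_le.2 h5)⟩)

theorem mes_lt {β : Ordinal.{0}} {ν n : ℕ} (h : prec (GG β) ν n) : mes β ν < mes β n := by
  rw [prec_GG] at h
  rcases h with ⟨rfl, rfl | ⟨h1, h2⟩⟩ | ⟨rfl, h1, h2⟩ | ⟨h1, h2, h3, h4, h5, h6⟩
  · simp [mes]
  · have h3 : ν ≠ 0 := by omega
    have h4 : ν ≠ 1 := by omega
    simp only [mes, h3, h4, h2, if_false, if_true, and_self]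
    exact h2.2.trans (Order.lt_add_one_iff.2 le_rfl)
  · have h3 : ν ≠ 0 := by omega
    have h4 : ν ≠ 1 := by omega
    simp only [mes, h3, h4, h2, if_false, if_true, and_self, one_ne_zero]
  · have e1 : ν ≠ 0 := by omega
    have e2 : ν ≠ 1 := by omega
    have e3 : n ≠ 0 := by omega
    have e4 : n ≠ 1 := by omega
    simp only [mes, e1, e2, e3, e4, h3, h4, h6, h5.trans h6, if_false, if_true, and_self]
    exact h5

theorem wf_GG (β : Ordinal.{0}) : WellFounded (prec (GG β)) :=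
  Subrelation.wf (r := InvImage (· < ·) (mes β)) (fun h => mes_lt h)
    (InvImage.wf _ Ordinal.lt_wf)

theorem rk_le_mes {β : Ordinal.{0}} (n : ℕ) : rk (GG β) n ≤ mes β n := by
  induction n using (wf_GG β).induction with
  | _ n ih =>
    by_contra hn
    obtain ⟨ν, h1, h2⟩ := exists_of_lt_rk ((wf_GG β).apply n) (not_le.1 hn)
    exact absurd (h2.trans (ih ν h1)) (not_le.2 (mes_lt h1))

theorem exists_mes {β : Ordinal.{0}} (hβ : β ≤ lam) {n : ℕ}
    (hn : n = 0 ∨ n = 1 ∨ (2 ≤ n ∧ Tm (n - 2) ∧ len (n - 2) < β)) {μ : Ordinal.{0}}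
    (hμ : μ < mes β n) : ∃ ν, prec (GG β) ν n ∧ mes β ν = μ ∧
      (ν = 0 ∨ ν = 1 ∨ (2 ≤ ν ∧ Tm (ν - 2) ∧ len (ν - 2) < β)) := by
  have key : ∀ μ < β, ∃ ν, 2 ≤ ν ∧ Tm (ν - 2) ∧ len (ν - 2) < β ∧ len (ν - 2) = μ ∧
      mes β ν = μ := by
    intro μ hμ
    obtain ⟨u, h1, h2⟩ := length_of_lt (hμ.trans_le hβ)
    refine ⟨u + 2, by omega, by simpa using h1, by simpa [h2] using hμ, by simpa using h2, ?_⟩
    have e1 : u + 2 ≠ 0 := by omega
    have e2 : u + 2 ≠ 1 := by omega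
    have e3 : u + 2 - 2 = u := by omega
    simp only [mes, e1, e2, e3, h1, h2, hμ, if_false, if_true, and_self]
  rcases hn with rfl | rfl | ⟨h1, h2, h3⟩
  · simp only [mes, if_true] at hμ
    rcases eq_or_lt_of_le (Order.lt_add_one_iff.1 hμ) with rfl | h
    · exact ⟨1, prec_GG.2 (Or.inl ⟨rfl, Or.inl rfl⟩), by simp [mes], Or.inr (Or.inl rfl)⟩
    · obtain ⟨ν, h1, h2, h3, h4, h5⟩ := key μ h
      exact ⟨ν, prec_GG.2 (Or.inl ⟨rfl, Or.inr ⟨h1, h2, h3⟩⟩), h5,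
        Or.inr (Or.inr ⟨h1, h2, h3⟩)⟩
  · simp only [mes, if_true, one_ne_zero, if_false] at hμ
    obtain ⟨ν, h1, h2, h3, h4, h5⟩ := key μ hμ
    exact ⟨ν, prec_GG.2 (Or.inr (Or.inl ⟨rfl, h1, h2, h3⟩)), h5, Or.inr (Or.inr ⟨h1, h2, h3⟩)⟩
  · have e3 : n ≠ 0 := by omega
    have e4 : n ≠ 1 := by omega
    simp only [mes, e3, e4, h2, h3, if_false, if_true, and_self] at hμ
    obtain ⟨ν, h4, h5, h6, h7, h8⟩ := key μ (hμ.trans h3)
    refine ⟨ν, prec_GG.2 (Or.inr (Or.inr ⟨h1, h4, h5, h2, ?_, h3⟩)), h8,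
      Or.inr (Or.inr ⟨h4, h5, h6⟩)⟩
    rw [h7]; exact hμ

theorem rk_eq_mes {β : Ordinal.{0}} (hβ : β ≤ lam) {n : ℕ}
    (hn : n = 0 ∨ n = 1 ∨ (2 ≤ n ∧ Tm (n - 2) ∧ len (n - 2) < β)) :
    rk (GG β) n = mes β n := by
  induction n using (wf_GG β).induction with
  | _ n ih =>
    apply le_antisymm (rk_le_mes n)
    by_contra hlt
    rw [not_le] at hlt
    obtain ⟨ν, h1, h2, h3⟩ := exists_mes hβ hn hlt
    have h4 := ih ν h1 h3
    have h5 := rk_lt ((wf_GG β).apply n) h1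
    rw [h4, h2] at h5
    exact lt_irrefl _ h5

theorem rk_zero {β : Ordinal.{0}} (hβ : β ≤ lam) : rk (GG β) 0 = β + 1 := by
  rw [rk_eq_mes hβ (Or.inl rfl)]
  simp [mes]

theorem mem_Fop_GG {β : Ordinal.{0}} (hβ : β ≤ lam) {x : ℕ} :
    x ∈ Fop (GG β) ↔ Tm x.unpair.1 ∧ Tm x.unpair.2 ∧ len x.unpair.1 ≤ len x.unpair.2 ∧
      len x.unpair.2 = β := by
  unfold Fop Psi
  simp only [Set.mem_ofPred_eq, rk_zero hβ, rec_iff, List.getD_cons_zero, pair_mem_GG, le_refl,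
    true_and, Order.lt_add_one_iff]
  constructor
  · rintro ⟨-, h1, h2, h3⟩
    have h4 : len x.unpair.2 = β := by
      apply le_antisymm h2.2
      by_contra hn
      exact h3 ⟨h2.1, h2.1, not_le.1 hn⟩
    refine ⟨h1.1, h2.1, ?_, h4⟩
    rw [h4]; exact h1.2
  · rintro ⟨h1, h2, h3, h4⟩
    refine ⟨(wf_GG β).apply 0, ⟨h1, h3.trans h4.le⟩, ⟨h2, h4.le⟩, ?_⟩
    rintro ⟨-, -, h5⟩
    exact absurd h4 h5.ne

theorem iter_Fop {β : Ordinal.{0}} (hβ : β ≤ lam) : iter Fop β = GG β := by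
  induction β using WellFoundedLT.induction with
  | ind β ih =>
    ext x
    rw [mem_iter]
    constructor
    · rintro ⟨γ, h1, h2⟩
      rw [ih γ h1 (h1.le.trans hβ), mem_Fop_GG (h1.le.trans hβ)] at h2
      obtain ⟨h3, h4, h5, h6⟩ := h2
      refine ⟨h3, h4, h5, ?_⟩
      rw [h6]; exact h1
    · rintro ⟨h1, h2, h3, h4⟩
      refine ⟨_, h4, ?_⟩
      rw [ih _ h4 (h4.le.trans hβ), mem_Fop_GG (h4.le.trans hβ)]
      exact ⟨h1, h2, h3, rfl⟩

theorem nmi_Fop : nmi Fop = GG lam := by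
  have h1 := iter_Fop (le_refl lam)
  have h2 : Fop (iter Fop lam) ⊆ iter Fop lam := by
    rw [h1]
    intro x hx
    rw [mem_Fop_GG le_rfl] at hx
    exact absurd (isLength_iff.2 ⟨_, hx.2.1, hx.2.2.2⟩) lam_not_length
  rw [nmi_eq h2, h1]

/-! ### The order -/

/-- least representatives -/
def AA : Set ℕ := {v | Nat.pair v v ∈ GG lam ∧
  ∀ v', v' < v → ¬ (Nat.pair v v' ∈ GG lam ∧ Nat.pair v' v ∈ GG lam)}

def ordr (a b : AA) : Prop := len a.1 < len b.1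

theorem AA_inj {a b : ℕ} (ha : a ∈ AA) (hb : b ∈ AA) (h : len a = len b) : a = b := by
  by_contra hne
  have h1 := pair_mem_GG.1 ha.1
  have h2 := pair_mem_GG.1 hb.1
  rcases lt_or_gt_of_ne hne with h' | h'
  · exact hb.2 a h' ⟨pair_mem_GG.2 ⟨h2.1, h1.1, h.symm.le, h1.2.2.2⟩,
      pair_mem_GG.2 ⟨h1.1, h2.1, h.le, h2.2.2.2⟩⟩
  · exact ha.2 b h' ⟨pair_mem_GG.2 ⟨h1.1, h2.1, h.le, h2.2.2.2⟩,
      pair_mem_GG.2 ⟨h2.1, h1.1, h.symm.le, h1.2.2.2⟩⟩

theorem AA_surj {μ : Ordinal.{0}} (h : μ < lam) : ∃ a ∈ AA, len a = μ := by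
  classical
  have hex : ∃ u, Tm u ∧ len u = μ := length_of_lt h
  refine ⟨Nat.find hex, ⟨?_, ?_⟩, (Nat.find_spec hex).2⟩
  · rw [pair_mem_GG]
    obtain ⟨h1, h2⟩ := Nat.find_spec hex
    refine ⟨h1, h1, le_rfl, ?_⟩
    rw [h2]; exact h
  · rintro v' hv' ⟨h1, h2⟩
    rw [pair_mem_GG] at h1 h2
    obtain ⟨h3, h4⟩ := Nat.find_spec hex
    exact Nat.find_min hex hv' ⟨h2.1, (le_antisymm h2.2.2.1 h1.2.2.1).trans h4⟩

noncomputable def isoAA : ordr ≃r ((· < ·) : Set.Iio lam → Set.Iio lam → Prop) where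
  toFun a := ⟨len a.1, (pair_mem_GG.1 a.2.1).2.2.2⟩
  invFun μ := ⟨(AA_surj μ.2).choose, (AA_surj μ.2).choose_spec.1⟩
  left_inv a := by
    apply Subtype.ext
    have h := (AA_surj (μ := len a.1) (pair_mem_GG.1 a.2.1).2.2.2).choose_spec
    exact AA_inj h.1 a.2 h.2
  right_inv μ := by
    apply Subtype.ext
    exact (AA_surj μ.2).choose_spec.2
  map_rel_iff' := Iff.rfl

noncomputable def isoAA' : ordr ≃r ((· < ·) : lam.ToType → lam.ToType → Prop) :=
  isoAA.trans (Ordinal.ToType.mk (o := lam)).toRelIsoLT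

instance : IsWellOrder AA ordr := isoAA'.toRelEmbedding.isWellOrder

theorem type_ordr : Ordinal.type ordr = lam := by
  rw [isoAA'.ordinalType_congr, Ordinal.type_toType]

/-- The final formula. -/
def Chr (R : RR ℕ) (x : ℕ × ℕ) (rs : List (Set ℕ)) : Prop :=
  (R (Nat.pair x.1 x.1) rs ∧ ∀ v', v' < x.1 → ¬ (R (Nat.pair x.1 v') rs ∧
    R (Nat.pair v' x.1) rs)) ∧
  (R (Nat.pair x.2 x.2) rs ∧ ∀ v', v' < x.2 → ¬ (R (Nat.pair x.2 v') rs ∧
    R (Nat.pair v' x.2) rs)) ∧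
  ¬ (R (Nat.pair x.2 x.1) rs ∧ ¬ R (Nat.pair x.1 x.2) rs)

theorem op_Chr : Op Chr := by
  unfold Chr
  have hc : ∀ {α : Type} [Primcodable α] {f g : α → ℕ}, Primrec f → Primrec g →
      Op (τ := ℕ) (fun R (x : α) rs => R (Nat.pair (f x) (g x)) rs) := fun hf hg =>
    Op.callAt (Primrec₂.natPair.comp hf hg)
  have h : ∀ {f : ℕ × ℕ → ℕ}, Primrec f → Op (τ := ℕ) (fun R (x : ℕ × ℕ) rs =>
      R (Nat.pair (f x) (f x)) rs ∧ ∀ v', v' < f x → ¬ (R (Nat.pair (f x) v') rs ∧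
        R (Nat.pair v' (f x)) rs)) := by
    intro f hf
    refine (hc hf hf).and (Op.all' ?_)
    have h1 : Primrec fun x : ℕ × (ℕ × ℕ) => f x.2 := hf.comp Primrec.snd
    exact (Op.prim (pLt Primrec.fst h1)).imp ((hc h1 Primrec.fst).and (hc Primrec.fst h1)).not
  exact (h Primrec.fst).and ((h Primrec.snd).and ((hc Primrec.snd Primrec.fst).and
    (hc Primrec.fst Primrec.snd).not).not)

theorem Chr_iff (m n : ℕ) : Chr (fun x _ => x ∈ nmi Fop) (m, n) [] ↔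
    ∃ (hm : m ∈ AA) (hn : n ∈ AA), ¬ ordr ⟨n, hn⟩ ⟨m, hm⟩ := by
  unfold Chr
  rw [nmi_Fop]
  simp only
  constructor
  · rintro ⟨h1, h2, h3⟩
    have hm : m ∈ AA := h1
    have hn : n ∈ AA := h2
    refine ⟨hm, hn, fun h4 => h3 ?_⟩
    have h5 := pair_mem_GG.1 h1.1
    have h6 := pair_mem_GG.1 h2.1
    refine ⟨pair_mem_GG.2 ⟨h6.1, h5.1, le_of_lt h4, h5.2.2.2⟩, fun h7 => ?_⟩
    exact absurd (pair_mem_GG.1 h7).2.2.1 (not_le.2 h4)
  · rintro ⟨hm, hn, h⟩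
    refine ⟨hm, hn, ?_⟩
    rintro ⟨h1, h2⟩
    have h5 := pair_mem_GG.1 hm.1
    have h6 := pair_mem_GG.1 hn.1
    apply h
    change len n < len m
    by_contra h7
    exact h2 (pair_mem_GG.2 ⟨h5.1, h6.1, not_lt.1 h7, h6.2.2.2⟩)

theorem computable_lam : ComputableOrd allReals lam := by
  obtain ⟨q, hq⟩ := exists_Fop
  obtain ⟨p, k, hp⟩ := op_Chr
  have hB : Bd (fun _ : Ordinal.{0} => True) := ladder_true.bd 0
  let g1 : ℕ × (ℕ × List ℕ × ℕ) → ℕ × ℕ := fun x => (x.2.2.2, 0)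
  have hg1 : Primrec g1 :=
    (Primrec.snd.comp (Primrec.snd.comp Primrec.snd)).pair (Primrec.const _)
  have hor : Oracle (τ := ℕ) allReals (fun _ => True) (fun _ => True)
      (subst (cod g1) (ind q)) 0 (fun x _ => x ∈ nmi Fop) := by
    intro t ds fs _ _
    refine sem_substT hB hg1 ?_
    have := sem_ind (D := allReals) hB hB supTo_true (p := q) (n := t) (a := 0) (fs := fs)
      (G := fun g x => chi (x ∈ Fop g)) (fun f _ m => hq allReals f m 0 fs)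
    simp only [chi_ne_zero] at this
    exact this
  refine ⟨AA, ordr, inferInstance, pC p (pr2 fun m n => Nat.pair 0
    (encode (subst (cod g1) (ind q), 0, ([] : List ℕ), (m, n)))), type_ordr, ?_⟩
  intro m n
  have h1 := hp allReals Tru ladder_true (fun _ => True) (fun _ _ _ => trivial)
    (subst (cod g1) (ind q)) 0 _ hor (m, n) [] [] trivial (by simp)
  simp only [List.map_nil] at h1
  rw [chi_congr (Chr_iff m n)] at h1
  have hpr : Primrec₂ fun m n : ℕ => Nat.pair 0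
      (encode (subst (cod g1) (ind q), 0, ([] : List ℕ), (m, n))) := by
    refine Primrec₂.natPair.comp (Primrec.const _) (Primrec.encode.comp ?_)
    exact (Primrec.const _).pair ((Primrec.const _).pair ((Primrec.const _).pair
      (Primrec.fst.pair Primrec.snd)))
  obtain ⟨μ, -, h2⟩ := ev_S4 hB (ev_pr2 (D := allReals) hB hpr m n [] []) (h1 _)
  exact ⟨μ, h2⟩

/-- Gaps occur in the countable reading of lengths. -/
theorem exists_gap : ∃ α, ComputableOrd allReals α ∧ ¬ IsLength usedReals α :=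
  ⟨lam, computable_lam, lam_not_length⟩

end Pool.Agent.Helper80.NMI
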