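import Pool.Agent.Helper80.NMI.Phi

namespace Pool.Agent.Helper80.NMI

open Order Encodable

/-- The relation on numbers read off from `g`: the field of `g` (shifted by `2`) with the strict
part of `g`, and two further elements `1`, `0` on top. -/
def prec (g : Set ℕ) (ν n : ℕ) : Prop :=
  (n = 0 ∧ (ν = 1 ∨ (2 ≤ ν ∧ Nat.pair (ν - 2) (ν - 2) ∈ g))) ∨
  (n = 1 ∧ 2 ≤ ν ∧ Nat.pair (ν - 2) (ν - 2) ∈ g) ∨
  (2 ≤ n ∧ 2 ≤ ν ∧ Nat.pair (ν - 2) (n - 2) ∈ g ∧ Nat.pair (n - 2) (ν - 2) ∉ g)

theorem op_prec {τ α : Type} [Primcodable τ] [Primcodable α] {f h : α → ℕ} (hf : Primrec f)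
    (hh : Primrec h) (j : ℕ) :
    Op (τ := τ) (fun _ (x : α) rs => prec (rs.getD j ∅) (f x) (h x)) := by
  unfold prec
  have h2 : Primrec fun x : α => f x - 2 := Primrec.nat_sub.comp hf (Primrec.const 2)
  have h3 : Primrec fun x : α => h x - 2 := Primrec.nat_sub.comp hh (Primrec.const 2)
  have e : ∀ n : ℕ, Op (τ := τ) (fun _ (x : α) _ => h x = n) := fun n =>
    Op.prim (pEq hh (Primrec.const n))
  have e' : Op (τ := τ) (fun _ (x : α) _ => 2 ≤ f x) := Op.prim (pLe (Primrec.const 2) hf)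
  have e'' : Op (τ := τ) (fun _ (x : α) _ => 2 ≤ h x) := Op.prim (pLe (Primrec.const 2) hh)
  exact ((e 0).and ((Op.prim (pEq hf (Primrec.const 1))).or (e'.and
    (Op.memAt j (Primrec₂.natPair.comp h2 h2))))).or
    (((e 1).and (e'.and (Op.memAt j (Primrec₂.natPair.comp h2 h2)))).or
    (e''.and (e'.and ((Op.memAt j (Primrec₂.natPair.comp h2 h3)).and
      (Op.memAt j (Primrec₂.natPair.comp h3 h2)).not))))

/-- The unbounded ladder. -/
def Tru (_ : ℕ) (_ : Ordinal.{0}) : Prop := True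

theorem supTo_true : SupTo (fun _ => True) (fun _ => True) := by
  intro ι μ _
  exact ⟨Order.succ (⨆ i, μ i), trivial, fun i =>
    Order.lt_succ_iff.2 (Ordinal.le_iSup μ i)⟩

theorem ladder_true : Ladder Tru where
  bd _ := ⟨trivial, fun _ _ => trivial, fun _ => trivial⟩
  mono _ _ _ := trivial
  sup _ := supTo_true

theorem oracle_triv {τ : Type} [Primcodable τ] {D : (Set ℕ → Set ℕ) → Set (Set ℕ)}
    {B : Ordinal.{0} → Prop} (hB : Bd B) (C : List (Set ℕ) → Prop) (v : ℕ) :
    Oracle (τ := τ) D B C (pK 0) v (fun _ _ => False) := by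
  intro t ds fs _ _
  have : chi False = 0 := by simp [chi]
  rw [this]
  exact sem_const hB _ _ _

/-- The rank of `n` in `prec g`. -/
noncomputable def rk (g : Set ℕ) (n : ℕ) : Ordinal.{0} :=
  open Classical in if h : Acc (prec g) n then h.rank else 0

theorem rk_lt {g : Set ℕ} {ν n : ℕ} (hn : Acc (prec g) n) (h : prec g ν n) :
    rk g ν < rk g n := by
  unfold rk
  rw [dif_pos hn, dif_pos (hn.inv h)]
  exact Acc.rank_lt_of_rel hn h

theorem exists_of_lt_rk {g : Set ℕ} {n : ℕ} (hn : Acc (prec g) n) {μ : Ordinal.{0}}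
    (h : μ < rk g n) : ∃ ν, prec g ν n ∧ μ ≤ rk g ν := by
  unfold rk at h
  rw [dif_pos hn, Acc.rank_eq, Ordinal.lt_iSup_iff] at h
  obtain ⟨⟨ν, hν⟩, h⟩ := h
  refine ⟨ν, hν, ?_⟩
  unfold rk
  rw [dif_pos (hn.inv hν)]
  exact Order.lt_succ_iff.1 h

/-- The relation evaluated by the interpreter at clock value `μ`. -/
def Rel (μ : Ordinal.{0}) : RR Tp := fun t rs => Before usedReals μ t.1 t.2.1 (rs.map shift) t.2.2

theorem before_unique {D : (Set ℕ → Set ℕ) → Set (Set ℕ)} (hD : Good D) {μ ν : Ordinal.{0}}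
    {e : ℕ} {as : List ℕ} {fs : List (Set ℕ)}
    {c c' : ℕ} (H : Before D μ e as fs c) (H' : Before D ν e as fs c') : c = c' := by
  obtain ⟨_, _, h⟩ := H
  obtain ⟨_, _, h'⟩ := H'
  exact stage_unique hD h h'

theorem Rel_rk {g : Set ℕ} {n : ℕ} (hn : Acc (prec g) n) (t : Tp) (rs : List (Set ℕ)) :
    Rel (rk g n) t rs ↔ ∃ ν, prec g ν n ∧ Phi (Rel (rk g ν)) t rs := by
  have key : ∀ ν, Phi (Rel (rk g ν)) t rs ↔ Stage usedReals (rk g ν) t.1 t.2.1 (rs.map shift) t.2.2 := by
    intro ν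
    rw [stage_iff']
    exact Phi_iff (X := Before usedReals (rk g ν)) (R := Rel (rk g ν))
      (fun e as fs c c' h h' => before_unique good_used h h') (fun t rs => Iff.rfl) t rs
  constructor
  · rintro ⟨μ, h1, h2⟩
    obtain ⟨ν, h3, h4⟩ := exists_of_lt_rk hn h1
    exact ⟨ν, h3, (key ν).2 (h2.mono h4)⟩
  · rintro ⟨ν, h1, h2⟩
    exact ⟨rk g ν, rk_lt hn h1, (key ν).1 h2⟩

/-- There is a clocked interpreter. -/
theorem exists_interp : ∃ P : ℕ, ∀ (D : (Set ℕ → Set ℕ) → Set (Set ℕ)) (g : Set ℕ) (px : ℕ)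
    (n : ℕ), Acc (prec g) n →
    Oracle D (fun _ => True) (fun fs => px < fs.length ∧ lvl fs px = g) P (Nat.pair n px)
      (Rel (rk g n)) := by
  obtain ⟨p1, k1, hp1⟩ := op_prec (τ := Tp) (α := ℕ × ℕ) Primrec.fst Primrec.snd 0
  obtain ⟨p2, k2, hp2⟩ := op_Phi
  let g1 : ℕ × (ℕ × (ℕ × ℕ × List ℕ × Tp)) → (ℕ × ℕ × List ℕ × (ℕ × ℕ)) :=
    fun x => (pK 0, 0, [x.2.2.2.1.unpair.2], (x.2.1, x.2.2.2.1.unpair.1))
  let g2 : ℕ × (ℕ × (ℕ × ℕ × List ℕ × Tp)) → (ℕ × ℕ × List ℕ × Tp) :=
    fun x => (x.2.2.1, Nat.pair x.2.1 x.2.2.2.1.unpair.2, x.2.2.2.2.1, x.2.2.2.2.2)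
  have hv : Primrec fun x : ℕ × (ℕ × (ℕ × ℕ × List ℕ × Tp)) => x.2.2.2.1 :=
    Primrec.fst.comp (Primrec.snd.comp (Primrec.snd.comp Primrec.snd))
  have hν : Primrec fun x : ℕ × (ℕ × (ℕ × ℕ × List ℕ × Tp)) => x.2.1 :=
    Primrec.fst.comp Primrec.snd
  have hg1 : Primrec g1 :=
    (Primrec.const _).pair ((Primrec.const _).pair ((Primrec.list_cons.comp (U2 hv)
      (Primrec.const [])).pair (hν.pair (U1 hv))))
  have hg2 : Primrec g2 :=
    (Primrec.fst.comp (Primrec.snd.comp Primrec.snd)).pair ((Primrec₂.natPair.comp hν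
      (U2 hv)).pair (Primrec.snd.comp (Primrec.snd.comp (Primrec.snd.comp Primrec.snd))))
  let body : ℕ := ex (ite' (subst (cod g1) p1) (subst (cod g2) p2) (pK 0))
  refine ⟨fix body, ?_⟩
  intro D g px n hn
  induction hn with
  | intro n hn ih =>
    have hacc : Acc (prec g) n := Acc.intro n hn
    intro t ds fs hfs hds
    have hB : Bd (fun _ : Ordinal.{0} => True) := ladder_true.bd 0
    set C : List (Set ℕ) → Prop := fun fs => px < fs.length ∧ lvl fs px = g with hC
    have hst : Stable C := by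
      rintro f fs ⟨h1, h2⟩
      refine ⟨by simp only [List.length_cons]; omega, ?_⟩
      rw [lvl_cons h1]; exact h2
    refine sem_fix hB ?_
    -- now run the body
    have h1 := sem_ex (D := D) hB hB supTo_true
      (p := ite' (subst (cod g1) p1) (subst (cod g2) p2) (pK 0))
      (a := Nat.pair (fix body) (encode (Nat.pair n px, ds, t))) (fs := fs)
      (b := fun ν => chi (prec g ν n ∧ Phi (Rel (rk g ν)) t (ds.map (lvl fs)))) ?_
    · simp only [chi_ne_zero] at h1
      rw [chi_congr (Rel_rk hacc t (ds.map (lvl fs)))]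
      exact h1
    · intro f ν
      have hfs' := hst f fs hfs
      have hx : Nat.pair ν (Nat.pair (fix body) (encode (Nat.pair n px, ds, t))) =
        encode (ν, (fix body, Nat.pair n px, ds, t)) := by
          simp only [Encodable.encode_prod_val, Encodable.encode_nat]
      rw [hx]
      refine sem_ite (b := chi (prec g ν n)) hB ?_ ?_ ?_
      · refine sem_substT hB hg1 ?_
        have := hp1 D Tru ladder_true C hst (pK 0) 0 _ (oracle_triv (hB) C 0) (ν, n) [px]
          (f :: fs) hfs' (by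
            intro d hd
            rw [List.mem_singleton] at hd
            rw [hd]
            exact hfs'.1)
        simp only [List.map_cons, List.map_nil, List.getD_cons_zero, hfs'.2] at this
        change Sem D (fun _ => True) _ _ _ _ at this
        simpa [g1] using this
      · intro h2
        rw [chi_ne_zero] at h2
        refine sem_substT hB hg2 ?_
        have hds' : ∀ d ∈ ds, d < (f :: fs).length := fun d hd => by
          have := hds d hd
          simp only [List.length_cons]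
          omega
        have := hp2 D Tru ladder_true C hst (fix body) (Nat.pair ν px) (Rel (rk g ν))
          (ih ν h2) t ds (f :: fs) hfs' hds'
        rw [map_lvl_cons hds] at this
        simp only [g2, Nat.unpair_pair]
        rw [chi_congr (show (prec g ν n ∧ Phi (Rel (rk g ν)) t (ds.map (lvl fs))) ↔
          Phi (Rel (rk g ν)) t (ds.map (lvl fs)) from by simp [h2])]
        exact this
      · intro h2
        rw [chi_eq_zero] at h2
        have : chi (prec g ν n ∧ Phi (Rel (rk g ν)) t (ds.map (lvl fs))) = 0 := by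
          simp [chi, h2]
        rw [this]
        exact sem_const hB _ _ _

end Pool.Agent.Helper80.NMI
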