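import Pool.Agent.Helper80.NMI.Main

namespace Pool.Agent.Helper80.NMI

open Order Encodable Ordinal

/-! ### Computations longer than the first gap -/

theorem empty_mem_used (F : Set ℕ → Set ℕ) : (∅ : Set ℕ) ∈ usedReals F :=
  ⟨0, by simp, (iter_zero F).symm⟩

variable {β : Ordinal.{0}}

theorem gtL_S8' {h n : ℕ} {as : List ℕ} {fs : List (Set ℕ)} {m : ℕ}
    (H : GeL usedReals β h (m :: as) (∅ :: fs)) : GeL usedReals (β + 1) (pI h) (n :: as) fs := by
  intro μ c hs
  rw [stage_iff'] at hs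
  obtain ⟨n', as', G, h1, -, h3⟩ := inv_S8 hs
  cases h1
  obtain ⟨ν, h4, h5⟩ := h3 ∅ (empty_mem_used _) m
  exact Order.add_one_le_of_lt ((H _ _ h5).trans_lt h4)

theorem ge_ex' {p a : ℕ} {fs : List (Set ℕ)} {m : ℕ}
    (H : Ge usedReals β p (Nat.pair m a) (∅ :: fs)) : Ge usedReals (β + 1) (ex p) a fs := by
  intro rest
  have hg : Primrec₂ fun m u : ℕ => Nat.pair (u.unpair.1 + 1) (Nat.pair m u.unpair.2) := by
    refine Primrec₂.natPair.comp (Primrec.succ.comp (Primrec.fst.comp
      (Primrec.unpair.comp Primrec.snd))) (Primrec₂.natPair.comp Primrec.fst ?_)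
    exact Primrec.snd.comp (Primrec.unpair.comp Primrec.snd)
  refine geL_right good_used (conv_of_ev (ev_S2 (D := usedReals) bd_true 0 _ _))
    (gtL_S8' (m := m) ?_)
  refine geL_left (geL_left (geL_right good_used (conv_of_ev (ev_pr2 (D := usedReals) bd_true hg
    _ _ _ _)) ?_))
  simp only [Nat.unpair_pair]
  exact H _

theorem exists_oracle_Fop : ∃ z0 : ℕ, ∀ D : (Set ℕ → Set ℕ) → Set (Set ℕ),
    Oracle (τ := ℕ) D (fun _ => True) (fun _ => True) z0 0 (fun x _ => x ∈ nmi Fop) := by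
  obtain ⟨q, hq⟩ := exists_Fop
  let g1 : ℕ × (ℕ × List ℕ × ℕ) → ℕ × ℕ := fun x => (x.2.2.2, 0)
  have hg1 : Primrec g1 :=
    (Primrec.snd.comp (Primrec.snd.comp Primrec.snd)).pair (Primrec.const _)
  refine ⟨subst (cod g1) (ind q), ?_⟩
  intro D t ds fs _ _
  refine sem_substT bd_true hg1 ?_
  have := sem_ind (D := D) bd_true bd_true supTo_true (p := q) (n := t) (a := 0) (fs := fs)
    (G := fun g x => chi (x ∈ Fop g)) (fun f _ m => hq D f m 0 fs)
  simp only [chi_ne_zero] at this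
  exact this

/-- `len m < len n`, both below the first gap. -/
def Lt (m n : ℕ) : Prop := Nat.pair m n ∈ nmi Fop ∧ Nat.pair n m ∉ nmi Fop

theorem Lt_iff {m n : ℕ} : Lt m n ↔ Tm m ∧ Tm n ∧ len m < len n ∧ len n < lam := by
  unfold Lt
  rw [nmi_Fop, pair_mem_GG, pair_mem_GG]
  constructor
  · rintro ⟨⟨h1, h2, h3, h4⟩, h5⟩
    refine ⟨h1, h2, ?_, h4⟩
    by_contra h6
    exact h5 ⟨h2, h1, not_lt.1 h6, h3.trans_lt h4⟩
  · rintro ⟨h1, h2, h3, h4⟩
    exact ⟨⟨h1, h2, h3.le, h4⟩, fun h5 => absurd h5.2.2.1 (not_le.2 h3)⟩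

theorem exists_rec_used : ∃ rp : ℕ, ∀ (n : ℕ) (fs : List (Set ℕ)),
    Sem usedReals (fun _ => True) rp n fs 0 ∧
      (Tm n → len n < lam → Ge usedReals (len n) rp n fs) := by
  obtain ⟨z0, hz0⟩ := exists_oracle_Fop
  have hop : Op (τ := ℕ) (fun R (x : ℕ × ℕ) rs => R (Nat.pair x.1 x.2) rs ∧
      ¬ R (Nat.pair x.2 x.1) rs) :=
    (Op.callAt (Primrec₂.natPair.comp Primrec.fst Primrec.snd)).and
      (Op.callAt (Primrec₂.natPair.comp Primrec.snd Primrec.fst)).not
  obtain ⟨p1, k1, hp1⟩ := hop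
  let g1 : ℕ × (ℕ × (ℕ × ℕ)) → (ℕ × ℕ × List ℕ × (ℕ × ℕ)) :=
    fun x => (z0, 0, [], (x.2.1, x.2.2.2))
  let g2 : ℕ × (ℕ × (ℕ × ℕ)) → (ℕ × ℕ) := fun x => (x.2.2.1, x.2.1)
  have hg1 : Primrec g1 := (Primrec.const _).pair ((Primrec.const _).pair
    ((Primrec.const _).pair ((Primrec.fst.comp Primrec.snd).pair (Primrec.snd.comp
      (Primrec.snd.comp Primrec.snd)))))
  have hg2 : Primrec g2 := (Primrec.fst.comp (Primrec.snd.comp Primrec.snd)).pair
    (Primrec.fst.comp Primrec.snd)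
  let body : ℕ := ex (ite' (subst (cod g1) p1) (subst (cod g2) call) (pK 0))
  refine ⟨fix body, ?_⟩
  have htest : ∀ (m n : ℕ) (fs : List (Set ℕ)),
      Sem usedReals (fun _ => True) (subst (cod g1) p1) (encode (m, (fix body, n))) fs
        (chi (Lt m n)) := by
    intro m n fs
    refine sem_substT bd_true hg1 ?_
    exact hp1 usedReals Tru ladder_true (fun _ => True) (fun _ _ _ => trivial) z0 0 _
      (hz0 usedReals) (m, n) [] fs trivial (by simp)
  have henc : ∀ (m n : ℕ), Nat.pair m (Nat.pair (fix body) n) = encode (m, (fix body, n)) := by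
    intro m n
    simp only [Encodable.encode_prod_val, Encodable.encode_nat]
  have henc2 : ∀ (m : ℕ), encode (fix body, m) = Nat.pair (fix body) m := by
    intro m
    simp only [Encodable.encode_prod_val, Encodable.encode_nat]
  intro n
  induction hl : len n using WellFoundedLT.induction generalizing n with
  | ind ρ ih =>
    intro fs
    subst hl
    constructor
    · refine sem_fix bd_true ?_
      have hz : chi (∃ m : ℕ, (fun _ : ℕ => 0) m ≠ 0) = 0 := by simp [chi]
      suffices h : Sem usedReals (fun _ => True) body (Nat.pair (fix body) n) fs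
          (chi (∃ m : ℕ, (fun _ : ℕ => 0) m ≠ 0)) by rwa [hz] at h
      refine sem_ex bd_true bd_true supTo_true (b := fun _ => 0) ?_
      intro f m
      rw [henc]
      refine sem_ite bd_true (htest m n (f :: fs)) ?_ fun _ => sem_const bd_true _ _ _
      intro h1
      rw [chi_ne_zero, Lt_iff] at h1
      refine sem_substT bd_true hg2 ?_
      simp only [g2]
      rw [henc2]
      exact sem_call bd_true (ih _ h1.2.2.1 m rfl (f :: fs)).1
    · intro hT hlam rest μ c H
      by_contra hlt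
      rw [not_le] at hlt
      obtain ⟨m, h1, h2⟩ := length_of_lt (hlt.trans hlam)
      have h3 : Lt m n := Lt_iff.2 ⟨h1, hT, by rw [h2]; exact hlt, hlam⟩
      have h4 : Ge usedReals (len m + 1) (fix body) n fs := by
        refine ge_fix good_used (ge_ex' (m := m) ?_)
        rw [henc]
        refine ge_ite good_used (htest m n (∅ :: fs)) (chi_ne_zero.2 h3) ?_
        refine ge_subst good_used hg2 ?_
        simp only [g2]
        rw [henc2]
        refine ge_call good_used ?_
        exact (ih _ (Lt_iff.1 h3).2.2.1 m rfl (∅ :: fs)).2 h1 (by rw [h2]; exact hlt.trans hlam)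
      have h5 := h4 rest μ c H
      rw [h2] at h5
      exact absurd h5 (not_le.2 (Order.lt_add_one_iff.2 le_rfl))

theorem exists_longer : ∃ β, lam < β ∧ IsLength usedReals β := by
  obtain ⟨rp, hrp⟩ := exists_rec_used
  let hmain : ℕ := pC rp (pr1 fun m => Nat.pair 1 m)
  have hpr : Primrec fun m : ℕ => Nat.pair 1 m := Primrec₂.natPair.comp (Primrec.const _) Primrec.id
  have h1 : Ev usedReals (fun _ => True) (pI hmain) [0] []
      (chi (0 ∈ nmi (fun _ : Set ℕ => {m : ℕ | (0 : ℕ) ≠ 0}))) := by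
    refine ev_S8 supTo_true (G := fun _ _ => 0) ?_
    intro f _ m
    exact ev_S4 bd_true (ev_pr1 bd_true hpr _ _ _) ((hrp m [f]).1 [m])
  have h2 : GeL usedReals lam (pI hmain) [0] [] := by
    intro μ c H
    by_contra hlt
    rw [not_le] at hlt
    obtain ⟨m, h3, h4⟩ := length_of_lt hlt
    have h5 : GeL usedReals (len m) hmain [m] [∅] :=
      geL_right good_used (conv_of_ev (ev_pr1 (D := usedReals) bd_true hpr _ _ _))
        ((hrp m [∅]).2 h3 (by rw [h4]; exact hlt) [m])
    have h6 := gtL_S8' (n := 0) h5 μ c H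
    rw [h4] at h6
    exact absurd h6 (not_le.2 (Order.lt_add_one_iff.2 le_rfl))
  obtain ⟨μ, -, hμ⟩ := h1
  set c := chi (0 ∈ nmi (fun _ : Set ℕ => {m : ℕ | (0 : ℕ) ≠ 0})) with hc
  have hne : {μ : Ordinal.{0} | Stage usedReals μ (pI hmain) [0] [] c}.Nonempty := ⟨μ, hμ⟩
  have h3 : Stage usedReals (sInf {μ : Ordinal.{0} | Stage usedReals μ (pI hmain) [0] [] c})
    (pI hmain) [0] [] c := csInf_mem hne
  have h4 : IsLength usedReals (sInf {μ : Ordinal.{0} | Stage usedReals μ (pI hmain) [0] [] c}) := by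
    refine ⟨_, _, _, h3, ?_⟩
    intro ν hν h5
    exact absurd (csInf_le' (show ν ∈ {μ : Ordinal.{0} | Stage usedReals μ (pI hmain) [0] [] c}
      from h5)) (not_le.2 hν)
  refine ⟨_, lt_of_le_of_ne (h2 _ _ h3) ?_, h4⟩
  intro heq
  rw [← heq] at h4
  exact lam_not_length h4

/-- The first gap. -/
theorem first_gap : ∃ α, ComputableOrd allReals α ∧ (∀ β < α, IsLength usedReals β) ∧
    ¬ IsLength usedReals α ∧ ∃ β, α < β ∧ IsLength usedReals β :=
  ⟨lam, computable_lam, fun _ h => isLength_iff.2 (length_of_lt h), lam_not_length,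
    exists_longer⟩

end Pool.Agent.Helper80.NMI
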