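import Pool.Agent.Helper80.NMI.NoGap

namespace Pool.Agent.Helper80.NMI

open Order Encodable Ordinal

/-- Strict order facts found in the family coded by `g`. -/
def LTg (e0 : ℕ) (g : Set ℕ) (m n : ℕ) : Prop := Xh (ZZ g) (e0, [m, n], [], 1) ∧ m ≠ n

theorem op_LTg {τ α : Type} [Primcodable τ] [Primcodable α] (e0 : ℕ) {f h : α → ℕ}
    (hf : Primrec f) (hh : Primrec h) :
    Op (τ := τ) (fun _ (x : α) rs => LTg e0 (rs.getD 0 ∅) (f x) (h x)) := by
  unfold LTg Xh
  refine (op_ZZ ?_).and (Op.prim (pEq hf hh)).not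
  refine Primrec.encode.comp ((Primrec.const 0).pair ((Primrec.const e0).pair
    (Primrec.pair ?_ ((Primrec.const []).pair (Primrec.const 1)))))
  exact Primrec.list_cons.comp hf (Primrec.list_cons.comp hh (Primrec.const []))

section order

variable {A : Set ℕ} (r : A → A → Prop) [IsWellOrder A r]

open Classical in
noncomputable def rho (n : ℕ) : Ordinal.{0} := if h : n ∈ A then typein r ⟨n, h⟩ else 0

/-- `e0` computes the reflexive characteristic function of the order. -/
def Computes (e0 : ℕ) : Prop :=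
  ∀ m n : ℕ, Conv allReals e0 [m, n] [] (chi (∃ (hm : m ∈ A) (hn : n ∈ A), ¬ r ⟨n, hn⟩ ⟨m, hm⟩))

variable {r}

theorem LTg_rel {e0 : ℕ} (he : Computes r e0) {g : Set ℕ} {m n : ℕ} (h : LTg e0 g m n) :
    ∃ (hm : m ∈ A) (hn : n ∈ A), r ⟨m, hm⟩ ⟨n, hn⟩ := by
  obtain ⟨h1, hne⟩ := h
  have h2 : Truth g (0, (e0, [m, n], [], 1)) := ZZ_sound h1
  have h3 : Conv usedReals e0 [m, n] [] 1 := by
    rcases h2 with ⟨-, h2⟩ | ⟨h2, -⟩
    · simpa using h2
    · simp at h2
  obtain ⟨μ, h4⟩ := he m n
  have h5 : Stage usedReals μ e0 [m, n] [] _ := h4.monoD (fun _ => Set.subset_univ _)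
  obtain ⟨ν, h6⟩ := h3
  have h7 := stage_unique good_used h5 h6
  have h8 : ∃ (hm : m ∈ A) (hn : n ∈ A), ¬ r ⟨n, hn⟩ ⟨m, hm⟩ := by
    apply chi_ne_zero.1
    rw [h7]
    exact one_ne_zero
  obtain ⟨hm, hn, h9⟩ := h8
  refine ⟨hm, hn, ?_⟩
  rcases trichotomous_of r ⟨m, hm⟩ ⟨n, hn⟩ with h | h | h
  · exact h
  · exact absurd (congrArg Subtype.val h) hne
  · exact absurd h h9

theorem rho_mem {n : ℕ} (h : n ∈ A) : rho r n = typein r ⟨n, h⟩ := by
  unfold rho
  rw [dif_pos h]

theorem LTg_rho {e0 : ℕ} (he : Computes r e0) {g : Set ℕ} {m n : ℕ} (h : LTg e0 g m n) :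
    rho r m < rho r n := by
  obtain ⟨hm, hn, h⟩ := LTg_rel he h
  rw [rho_mem hm, rho_mem hn]
  exact (typein_lt_typein r).2 h

theorem LTg_of {e0 : ℕ} (he : Computes r e0) {g : Set ℕ} (hg : Full g) {m n : ℕ} (hm : m ∈ A)
    (hn : n ∈ A) (h : r ⟨m, hm⟩ ⟨n, hn⟩) : LTg e0 g m n := by
  have hne : m ≠ n := by
    rintro rfl
    exact irrefl_of r _ h
  refine ⟨?_, hne⟩
  obtain ⟨μ, h4⟩ := he m n
  have h5 := h4.monoD (D' := usedReals) (fun _ => Set.subset_univ _)
  have h6 : chi (∃ (hm : m ∈ A) (hn : n ∈ A), ¬ r ⟨n, hn⟩ ⟨m, hm⟩) = 1 := by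
    have : ∃ (hm : m ∈ A) (hn : n ∈ A), ¬ r ⟨n, hn⟩ ⟨m, hm⟩ :=
      ⟨hm, hn, fun h' => asymm_of r h h'⟩
    simp [chi, this]
  rw [h6] at h5
  exact ZZ_complete (pos := []) hg h5

end order

/-- The recursion along the order, with bounds for its length. -/
theorem exists_rec (e0 : ℕ) : ∃ rp K : ℕ, ∀ (A : Set ℕ) (r : A → A → Prop)
    (_ : IsWellOrder A r), Computes r e0 → ∀ (g : Set ℕ) (px : ℕ) (n : ℕ) (fs : List (Set ℕ)),
      px < fs.length → lvl fs px = g →
      Sem allReals (Le (ω * (K : Ordinal.{0}) + 13 * (rho r n + 1))) rp (encode (px, n)) fs 0 ∧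
      (Full g → Ge allReals (rho r n) rp (encode (px, n)) fs) := by
  obtain ⟨p1, k1, hp1⟩ := op_LTg (τ := Tp) (α := ℕ × ℕ) e0 Primrec.fst Primrec.snd
  let g1 : ℕ × (ℕ × (ℕ × (ℕ × ℕ))) → (ℕ × ℕ × List ℕ × (ℕ × ℕ)) :=
    fun x => (pK 0, 0, [x.2.2.2.1], (x.2.1, x.2.2.2.2))
  let g2 : ℕ × (ℕ × (ℕ × (ℕ × ℕ))) → (ℕ × (ℕ × ℕ)) :=
    fun x => (x.2.2.1, (x.2.2.2.1, x.2.1))
  have hm' : Primrec fun x : ℕ × (ℕ × (ℕ × (ℕ × ℕ))) => x.2.1 := Primrec.fst.comp Primrec.snd
  have h3 : Primrec fun x : ℕ × (ℕ × (ℕ × (ℕ × ℕ))) => x.2.2.2 :=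
    Primrec.snd.comp (Primrec.snd.comp Primrec.snd)
  have hg1 : Primrec g1 := (Primrec.const _).pair ((Primrec.const _).pair
    ((Primrec.list_cons.comp (Primrec.fst.comp h3) (Primrec.const [])).pair
      (hm'.pair (Primrec.snd.comp h3))))
  have hg2 : Primrec g2 := (Primrec.fst.comp (Primrec.snd.comp Primrec.snd)).pair
    ((Primrec.fst.comp h3).pair hm')
  let body : ℕ := ex (ite' (subst (cod g1) p1) (subst (cod g2) call) (pK 0))
  refine ⟨fix body, k1 + 1, ?_⟩
  intro A r hwo he g px n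
  -- the test
  have htest : ∀ (m n : ℕ) (fs : List (Set ℕ)), px < fs.length → lvl fs px = g →
      Sem allReals (LL k1) (subst (cod g1) p1) (encode (m, (fix body, (px, n)))) fs
        (chi (LTg e0 g m n)) := by
    intro m n fs hpx hlvl
    refine sem_substT (ladder_LL.bd k1) hg1 ?_
    have := hp1 allReals LL ladder_LL (fun _ => True) (fun _ _ _ => trivial) (pK 0) 0 _
      (oracle_triv (ladder_LL.bd 0) _ 0) (m, n) [px] fs trivial (by
        intro d hd
        rw [List.mem_singleton] at hd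
        rw [hd]
        exact hpx)
    simp only [List.map_cons, List.map_nil, List.getD_cons_zero, hlvl] at this
    exact this
  have hcons : ∀ (f : Set ℕ) (fs : List (Set ℕ)), px < fs.length → lvl fs px = g →
      px < (f :: fs).length ∧ lvl (f :: fs) px = g := by
    intro f fs h1 h2
    refine ⟨by simp only [List.length_cons]; omega, ?_⟩
    rw [lvl_cons h1]
    exact h2
  have henc : ∀ (m n : ℕ), Nat.pair m (Nat.pair (fix body) (encode (px, n))) =
      encode (m, (fix body, (px, n))) := by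
    intro m n
    simp only [Encodable.encode_prod_val, Encodable.encode_nat]
  have henc2 : ∀ (m : ℕ), encode (fix body, (px, m)) = Nat.pair (fix body) (encode (px, m)) := by
    intro m
    simp only [Encodable.encode_prod_val, Encodable.encode_nat]
  -- induction on the rank
  induction hρ : rho r n using WellFoundedLT.induction generalizing n with
  | ind ρ ih =>
    intro fs hpx hlvl
    subst hρ
    constructor
    · set β : Ordinal.{0} := ω * ((k1 + 1 : ℕ) : Ordinal.{0}) + 13 * rho r n with hβ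
      have hω : ω ≤ β := by
        have h1 : (1 : Ordinal.{0}) ≤ ((k1 + 1 : ℕ) : Ordinal.{0}) := by
          exact_mod_cast Nat.succ_le_succ (Nat.zero_le k1)
        calc ω = ω * 1 := (mul_one _).symm
          _ ≤ ω * ((k1 + 1 : ℕ) : Ordinal.{0}) := mul_le_mul_right h1 _
          _ ≤ β := le_self_add
      have hle : ∀ k : ℕ, β ≤ β + (k : Ordinal.{0}) := fun k => le_self_add
      have hLL : ∀ μ, LL k1 μ → Le β μ := fun μ hμ => (le_of_lt hμ).trans le_self_add
      have hfin : ω * ((k1 + 1 : ℕ) : Ordinal.{0}) + 13 * (rho r n + 1) = β + 4 + 2 + 5 + 2 := by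
        rw [mul_add_one, hβ]
        simp only [add_assoc]
        norm_num
      rw [hfin]
      have h46 : ω ≤ β + 4 + 2 := hω.trans (le_self_add.trans le_self_add)
      refine semL_fix (h46.trans le_self_add) ?_
      have hz : chi (∃ m : ℕ, (fun _ : ℕ => 0) m ≠ 0) = 0 := by simp [chi]
      suffices h : Sem allReals (Le (β + 4 + 2 + 5)) body (Nat.pair (fix body) (encode (px, n))) fs
          (chi (∃ m : ℕ, (fun _ : ℕ => 0) m ≠ 0)) by rwa [hz] at h
      refine semL_ex h46 (b := fun _ => 0) ?_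
      intro f m
      obtain ⟨hpx', hlvl'⟩ := hcons f fs hpx hlvl
      rw [henc]
      refine semL_ite (hω.trans le_self_add) (b := chi (LTg e0 g m n)) ?_ ?_ ?_
      · exact (htest m n (f :: fs) hpx' hlvl').mono fun μ hμ => (hLL μ hμ).trans le_self_add
      · intro h1
        rw [chi_ne_zero] at h1
        have h34 : ∀ x : Ordinal.{0}, x + 4 = x + 3 + 1 := fun x => by
          rw [add_assoc]; norm_num
        rw [h34 β]
        refine semL_subst (hω.trans le_self_add) hg2 ?_
        simp only [g2]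
        rw [henc2]
        refine semL_call hω ?_
        have h2 := (ih _ (LTg_rho he h1) m rfl (f :: fs) hpx' hlvl').1
        refine h2.mono fun μ hμ => le_trans hμ ?_
        refine add_le_add_right (mul_le_mul_right ?_ _) _
        exact Order.add_one_le_of_lt (LTg_rho he h1)
      · intro _
        exact (sem_const bd_omega _ _ _).mono fun μ hμ =>
          (le_of_lt hμ).trans (hω.trans le_self_add)
    · intro hg rest μ c H
      by_contra hlt
      rw [not_le] at hlt
      have hn : n ∈ A := by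
        by_contra hn
        unfold rho at hlt
        rw [dif_neg hn] at hlt
        exact absurd hlt (by simp)
      have hlt' := hlt
      rw [rho_mem hn] at hlt'
      obtain ⟨⟨m, hm⟩, h1⟩ := typein_surj r (hlt'.trans (typein_lt_type r _))
      have h2 : r ⟨m, hm⟩ ⟨n, hn⟩ := by
        rw [← typein_lt_typein r, h1]
        exact hlt'
      have h3 := LTg_of he hg hm hn h2
      have hρm : rho r m = μ := by rw [rho_mem hm]; exact h1
      obtain ⟨hpx', hlvl'⟩ := hcons ∅ fs hpx hlvl
      have h4 : Ge allReals (rho r m + 1) (fix body) (encode (px, n)) fs := by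
        refine ge_fix good_full (ge_ex (f := ∅) (m := m) ?_)
        rw [henc]
        refine ge_ite good_full (htest m n (∅ :: fs) hpx' hlvl') (chi_ne_zero.2 h3) ?_
        refine ge_subst good_full hg2 ?_
        simp only [g2]
        rw [henc2]
        refine ge_call good_full ?_
        exact (ih _ (LTg_rho he h3) m rfl (∅ :: fs) hpx' hlvl').2 hg
      have h5 := h4 rest μ c H
      rw [hρm] at h5
      exact absurd h5 (not_le.2 (Order.lt_add_one_iff.2 le_rfl))

theorem isLength_limit {e0 : ℕ} {A : Set ℕ} {r : A → A → Prop} [IsWellOrder A r]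
    (he : Computes r e0) {δ : Ordinal.{0}} (hδ : IsSuccLimit δ) (hω : ω * ω ≤ δ) (k : ℕ)
    (h1 : ∀ g m, (k = 0 ∨ LTg e0 g m (k - 1)) → rho r m < δ)
    (h2 : ∀ g, Full g → ∀ δ' < δ, ∃ m, rho r m = δ' ∧ (k = 0 ∨ LTg e0 g m (k - 1))) :
    IsLength allReals δ := by
  obtain ⟨rp, K, hrp⟩ := exists_rec e0
  have hop : Op (τ := Tp) (fun _ (x : ℕ × ℕ) rs => x.2 = 0 ∨ LTg e0 (rs.getD 0 ∅) x.1 (x.2 - 1)) :=
    (Op.prim (pEq Primrec.snd (Primrec.const 0))).or (op_LTg e0 Primrec.fst
      (Primrec.nat_sub.comp Primrec.snd (Primrec.const 1)))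
  obtain ⟨p2, k2, hp2⟩ := hop
  let g3 : ℕ × (ℕ × ℕ) → (ℕ × ℕ × List ℕ × (ℕ × ℕ)) := fun x => (pK 0, 0, [0], (x.2.2, x.2.1))
  let g4 : ℕ × (ℕ × ℕ) → (ℕ × ℕ) := fun x => (0, x.2.2)
  have hg3 : Primrec g3 := (Primrec.const _).pair ((Primrec.const _).pair ((Primrec.const _).pair
    ((Primrec.snd.comp Primrec.snd).pair (Primrec.fst.comp Primrec.snd))))
  have hg4 : Primrec g4 := (Primrec.const _).pair (Primrec.snd.comp Primrec.snd)
  let pmain : ℕ := ite' (subst (cod g3) p2) (subst (cod g4) rp) (pK 0)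
  let hmain : ℕ := pC pmain (pr1 fun m => Nat.pair 1 (encode (k, m)))
  have hpr : Primrec fun m : ℕ => Nat.pair 1 (encode (k, m)) :=
    Primrec₂.natPair.comp (Primrec.const _) (Primrec.encode.comp
      ((Primrec.const k).pair Primrec.id))
  have hbd := bd_lt hδ
  have htest : ∀ (f : Set ℕ) (m : ℕ), Sem allReals (LL k2) (subst (cod g3) p2) (encode (k, m)) [f]
      (chi (k = 0 ∨ LTg e0 f m (k - 1))) := by
    intro f m
    refine sem_substT (ladder_LL.bd k2) hg3 ?_
    have := hp2 allReals LL ladder_LL (fun _ => True) (fun _ _ _ => trivial) (pK 0) 0 _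
      (oracle_triv (ladder_LL.bd 0) _ 0) (m, k) [0] [f] trivial (by simp)
    simpa [lvl, g3] using this
  refine isLength_of_exact (e := pI hmain) (as := [0])
    (c := chi (0 ∈ nmi (fun _ : Set ℕ => {m : ℕ | (0 : ℕ) ≠ 0}))) ?_ ?_
  · refine stage_iff'.2 (.S8 _ _ _ _ (fun _ _ => 0) ?_)
    intro f _ m
    have h3 : Ev allReals (fun μ => μ < δ) hmain [m] [f] 0 := by
      refine ev_S4 hbd (ev_pr1 hbd hpr _ _ _) ?_
      have h4 : Sem allReals (fun μ => μ < δ) pmain (encode (k, m)) [f] 0 := by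
        refine sem_ite hbd ((htest f m).mono ?_) ?_ ?_
        · intro μ hμ
          refine lt_of_lt_of_le hμ (le_trans ?_ hω)
          exact mul_le_mul_right (le_of_lt (natCast_lt_omega0 _)) _
        · intro h5
          rw [chi_ne_zero] at h5
          refine sem_substT hbd hg4 ?_
          refine (hrp A r inferInstance he f 0 m [f] (by simp) (by simp [lvl])).1.mono ?_
          intro μ hμ
          exact lt_of_le_of_lt hμ (bound_lt hδ hω (h1 f m h5) K)
        · intro _
          exact sem_const hbd _ _ _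
      exact h4 [m]
    obtain ⟨μ, h4, h5⟩ := h3
    exact ⟨μ, h4, h5⟩
  · intro μ c H
    by_contra hlt
    rw [not_le] at hlt
    obtain ⟨g, hg⟩ := exists_full
    obtain ⟨m, hm1, hm2⟩ := h2 g hg μ hlt
    have h3 : GeL allReals (rho r m) hmain [m] [g] := by
      refine geL_right good_full (conv_of_ev (ev_pr1 (D := allReals) bd_true hpr _ _ _)) ?_
      have h4 : Ge allReals (rho r m) pmain (encode (k, m)) [g] := by
        refine ge_ite good_full (htest g m) (chi_ne_zero.2 hm2) ?_
        refine ge_subst good_full hg4 ?_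
        exact (hrp A r inferInstance he g 0 m [g] (by simp) (by simp [lvl])).2 hg
      exact h4 [m]
    have h4 := gtL_S8 (n := 0) h3 μ c H
    rw [hm1] at h4
    exact absurd h4 (not_le.2 (Order.lt_add_one_iff.2 le_rfl))

/-- No gaps in Kleene's reading of S8. -/
theorem no_gap {α : Ordinal.{0}} (h : ComputableOrd allReals α) : ∀ β ≤ α, IsLength allReals β := by
  obtain ⟨A, r, hwo, e0, rfl, he'⟩ := h
  have he : Computes r e0 := he'
  intro β
  induction β using Ordinal.limitRecOn with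
  | zero =>
    intro _
    have := isLength_small 0
    simpa using this
  | add_one β ih =>
    intro hβ
    exact isLength_succ (ih ((Order.lt_add_one_iff.2 le_rfl).le.trans hβ))
  | limit β hβ _ =>
    intro hle
    rcases le_or_gt (ω * ω) β with h1 | h1
    · rcases eq_or_lt_of_le hle with h2 | h2
      · refine isLength_limit he hβ h1 0 ?_ ?_
        · intro g m _
          unfold rho
          split_ifs with hm
          · rw [h2]
            exact typein_lt_type r _
          · exact hβ.bot_lt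
        · intro g _ δ' hδ'
          rw [h2] at hδ'
          obtain ⟨⟨m, hm⟩, h3⟩ := typein_surj r hδ'
          exact ⟨m, by rw [rho_mem hm]; exact h3, Or.inl rfl⟩
      · obtain ⟨⟨n, hn⟩, h3⟩ := typein_surj r h2
        have h4 : rho r n = β := by rw [rho_mem hn]; exact h3
        refine isLength_limit he hβ h1 (n + 1) ?_ ?_
        · rintro g m (h5 | h5)
          · simp at h5
          · rw [← h4]
            exact LTg_rho he h5
        · intro g hg δ' hδ'
          obtain ⟨⟨m, hm⟩, h5⟩ := typein_surj r (hδ'.trans h2)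
          refine ⟨m, by rw [rho_mem hm]; exact h5, Or.inr ?_⟩
          have h6 : r ⟨m, hm⟩ ⟨n, hn⟩ := by
            rw [← typein_lt_typein r, h5, h3]
            exact hδ'
          exact LTg_of he hg hm hn h6
    · obtain ⟨γ, rfl⟩ := isSuccPrelimit_iff_omega0_dvd.1 hβ.isSuccPrelimit
      have h2 : γ < ω := (mul_lt_mul_iff_of_pos_left omega0_pos).1 h1
      obtain ⟨j, rfl⟩ := lt_omega0.1 h2
      exact isLength_small j

end Pool.Agent.Helper80.NMI
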