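import Pool.Agent.Helper80.NMI.Sound

namespace Pool.Agent.Helper80.NMI

open Order Encodable Ordinal

/-! ### Ordinal arithmetic -/

theorem bound_lt {δ x : Ordinal.{0}} (hδ : IsSuccLimit δ) (h2 : ω * ω ≤ δ) (hx : x < δ)
    (k : ℕ) : ω * (k : Ordinal.{0}) + 13 * (x + 1) < δ := by
  have hdvd : ω ∣ δ := isSuccPrelimit_iff_omega0_dvd.1 hδ.isSuccPrelimit
  have h13 : (13 : Ordinal.{0}) * δ = δ := by
    have h0 : (13 : Ordinal.{0}) = ((13 : ℕ) : Ordinal.{0}) := by norm_num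
    rw [h0]
    exact mul_omega0_dvd (by norm_num) (natCast_lt_omega0 _) hdvd
  have h3 : (13 : Ordinal.{0}) * (x + 1) < δ := by
    conv_rhs => rw [← h13]
    refine (mul_lt_mul_iff_of_pos_left ?_).2 (hδ.add_one_lt hx)
    norm_num
  have h4 : ω * (k : Ordinal.{0}) + δ = δ := by
    have h5 : δ = ω * ω + (δ - ω * ω) := (Ordinal.add_sub_cancel_of_le h2).symm
    rw [h5, ← add_assoc, ← mul_add, natCast_add_omega0]
  calc ω * (k : Ordinal.{0}) + 13 * (x + 1) < ω * (k : Ordinal.{0}) + δ :=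
        (add_lt_add_iff_left _).2 h3
    _ = δ := h4

/-! ### The ladder `ω * (k + 1)` -/

def LL (k : ℕ) (μ : Ordinal.{0}) : Prop := μ < ω * ((k + 1 : ℕ) : Ordinal.{0})

theorem isSuccLimit_LL (k : ℕ) : IsSuccLimit (ω * ((k + 1 : ℕ) : Ordinal.{0})) := by
  rw [isSuccLimit_iff, isSuccPrelimit_iff_omega0_dvd]
  refine ⟨?_, dvd_mul_right _ _⟩
  have h1 : (0 : Ordinal.{0}) < ω * ((k + 1 : ℕ) : Ordinal.{0}) :=
    mul_pos omega0_pos (by exact_mod_cast Nat.succ_pos k)
  exact h1.ne'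

theorem bd_lt {δ : Ordinal.{0}} (h : IsSuccLimit δ) : Bd (fun μ => μ < δ) where
  zero := by
    have := h.bot_lt
    simpa using this
  down := fun h1 h2 => h1.trans_lt h2
  succ := fun h1 => h.add_one_lt h1

theorem ladder_LL : Ladder LL where
  bd k := bd_lt (isSuccLimit_LL k)
  mono k μ h := by
    refine lt_of_lt_of_le h ?_
    exact mul_le_mul_right (by exact_mod_cast Nat.le_succ _) _
  sup k := by
    intro ι μ hμ
    refine ⟨ω * ((k + 1 : ℕ) : Ordinal.{0}), ?_, hμ⟩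
    change ω * ((k + 1 : ℕ) : Ordinal.{0}) < ω * ((k + 1 + 1 : ℕ) : Ordinal.{0})
    refine (mul_lt_mul_iff_of_pos_left omega0_pos).2 ?_
    exact_mod_cast Nat.lt_succ_self _

/-! ### Upper bounds -/

def Le (β μ : Ordinal.{0}) : Prop := μ ≤ β

theorem bd_omega : Bd (fun μ : Ordinal.{0} => μ < ω) := bd_lt isSuccLimit_omega0

variable {D : (Set ℕ → Set ℕ) → Set (Set ℕ)} {β : Ordinal.{0}}

theorem Ev.toLe {B : Ordinal.{0} → Prop} {e : ℕ} {as : List ℕ} {fs : List (Set ℕ)} {c : ℕ}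
    (H : Ev D B e as fs c) (h : ∀ μ, B μ → μ ≤ β) : Ev D (Le β) e as fs c := H.mono h

theorem evL_S4 {g h : ℕ} {as : List ℕ} {fs : List (Set ℕ)} {b c : ℕ}
    (h1 : Ev D (Le β) h as fs b) (h2 : Ev D (Le β) g (b :: as) fs c) :
    Ev D (Le (β + 1)) (pC g h) as fs c := by
  obtain ⟨μ, h3, h4⟩ := h1
  obtain ⟨ν, h5, h6⟩ := h2
  exact ⟨β + 1, le_rfl, stage_iff'.2 (.S4 _ _ _ _ b _ (before_succ.2 (h4.mono h3))
    (before_succ.2 (h6.mono h5)))⟩

theorem evL_S9 {e : ℕ} {as : List ℕ} {fs : List (Set ℕ)} {c : ℕ}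
    (h : Ev D (Le β) e as fs c) : Ev D (Le (β + 1)) pU (e :: as) fs c := by
  obtain ⟨μ, h3, h4⟩ := h
  refine ⟨β + 1, le_rfl, stage_iff'.2 ?_⟩
  have := Clause.S9 (D := D) (X := Before D (β + 1)) e as [] fs [] c (before_succ.2 (h4.mono h3))
  have h0 : Nat.pair 0 0 = 0 := by decide
  simpa [pU, h0] using this

theorem Ev.leMono {β' : Ordinal.{0}} (h : β ≤ β') {e : ℕ} {as : List ℕ} {fs : List (Set ℕ)}
    {c : ℕ} (H : Ev D (Le β) e as fs c) : Ev D (Le β') e as fs c := H.mono fun _ h1 => h1.trans h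

theorem evL_fin (hβ : ω ≤ β) {e : ℕ} {as : List ℕ} {fs : List (Set ℕ)} {c : ℕ}
    (h : Ev D (fun μ => μ < ω) e as fs c) : Ev D (Le β) e as fs c :=
  h.mono fun _ h1 => h1.le.trans hβ

theorem le_add_one' (β : Ordinal.{0}) : β ≤ β + 1 := (Order.lt_add_one_iff.2 le_rfl).le

theorem semL_subst (hβ : ω ≤ β) {α γ : Type} [Primcodable α] [Primcodable γ] {g : ℕ × α → γ}
    (hg : Primrec g) {p : ℕ} {a : α} {fs : List (Set ℕ)} {c : ℕ}
    (h : Sem D (Le β) p (encode (g (fs.length, a))) fs c) :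
    Sem D (Le (β + 1)) (subst (cod g) p) (encode a) fs c := by
  intro rest
  have hf : Primrec fun u => Nat.pair u.unpair.1 (cod g u) :=
    Primrec₂.natPair.comp (Primrec.fst.comp Primrec.unpair) (primrec_cod hg)
  refine evL_S4 (evL_fin hβ (ev_pr1 bd_omega hf _ _ _)) ?_
  have := h (Nat.pair fs.length (encode a) :: rest)
  have h2 : Nat.pair fs.length (encode a) = encode (fs.length, a) := rfl
  simp only [Nat.unpair_pair]
  rw [h2, cod_encode]
  exact this

theorem semL_ite (hβ : ω ≤ β) {t p q a : ℕ} {fs : List (Set ℕ)} {b c : ℕ}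
    (ht : Sem D (Le β) t a fs b) (hp : b ≠ 0 → Sem D (Le β) p a fs c)
    (hq : b = 0 → Sem D (Le β) q a fs c) : Sem D (Le (β + 2)) (ite' t p q) a fs c := by
  intro rest
  have hg : Primrec fun b : ℕ => if b = 0 then q else p :=
    Primrec.ite (Primrec.eq.comp Primrec.id (Primrec.const 0)) (Primrec.const _) (Primrec.const _)
  have h2 : β + 2 = β + 1 + 1 := by
    rw [add_assoc]; norm_num
  rw [h2]
  refine evL_S4 (evL_S4 (ht rest) (evL_fin hβ (ev_pr1 bd_omega hg _ _ _))) (evL_S9 ?_)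
  by_cases hb : b = 0
  · simpa [hb] using hq hb rest
  · simpa [hb] using hp hb rest

theorem semL_call (hβ : ω ≤ β) {z a : ℕ} {fs : List (Set ℕ)} {c : ℕ}
    (h : Sem D (Le β) z a fs c) : Sem D (Le (β + 3)) call (Nat.pair z a) fs c := by
  intro rest
  have hg' : Primrec fun u : ℕ => Nat.pair u.unpair.1 u.unpair.2.unpair.2 :=
    Primrec₂.natPair.comp (Primrec.fst.comp Primrec.unpair) (Primrec.snd.comp
      (Primrec.unpair.comp (Primrec.snd.comp Primrec.unpair)))
  have hg : Primrec₂ fun _ u : ℕ => u.unpair.2.unpair.1 :=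
    Primrec.fst.comp (Primrec.unpair.comp (Primrec.snd.comp (Primrec.unpair.comp Primrec.snd)))
  have h2 : β + 3 = β + 1 + 1 + 1 := by
    rw [add_assoc, add_assoc]; norm_num
  rw [h2]
  have e1 : β ≤ β + 1 := le_add_one' β
  have e2 : β + 1 ≤ β + 1 + 1 := le_add_one' _
  refine evL_S4 (evL_fin (hβ.trans (e1.trans e2)) (ev_pr1 bd_omega hg' _ _ _))
    (evL_S4 (evL_fin (hβ.trans e1) (ev_pr2 bd_omega hg _ _ _ _)) (evL_S9 ?_))
  simp only [Nat.unpair_pair]
  exact h _

theorem semL_ex (hβ : ω ≤ β) {p a : ℕ} {fs : List (Set ℕ)}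
    {b : ℕ → ℕ} (H : ∀ f m, Sem D (Le β) p (Nat.pair m a) (f :: fs) (b m)) :
    Sem D (Le (β + 5)) (ex p) a fs (chi (∃ m, b m ≠ 0)) := by
  intro rest
  rw [← nmi_ex]
  have hg : Primrec₂ fun m u : ℕ => Nat.pair (u.unpair.1 + 1) (Nat.pair m u.unpair.2) := by
    refine Primrec₂.natPair.comp (Primrec.succ.comp (Primrec.fst.comp
      (Primrec.unpair.comp Primrec.snd))) (Primrec₂.natPair.comp Primrec.fst ?_)
    exact Primrec.snd.comp (Primrec.unpair.comp Primrec.snd)
  have hg' : Primrec fun b : ℕ => if b = 0 then pC pAp pS else pK 1 :=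
    Primrec.ite (Primrec.eq.comp Primrec.id (Primrec.const 0)) (Primrec.const _) (Primrec.const _)
  have h5 : β + 5 = β + 1 + 1 + 1 + 1 + 1 := by
    rw [add_assoc, add_assoc, add_assoc, add_assoc]; norm_num
  have e1 : β ≤ β + 1 := le_add_one' β
  have e2 : β + 1 ≤ β + 1 + 1 := le_add_one' _
  have e3 : β + 1 + 1 ≤ β + 1 + 1 + 1 := le_add_one' _
  have e4 : β + 1 + 1 + 1 ≤ β + 1 + 1 + 1 + 1 := le_add_one' _
  rw [h5]
  refine evL_S4 (evL_fin (hβ.trans (e1.trans (e2.trans (e3.trans e4))))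
    (ev_S2 bd_omega 0 _ _)) ?_
  have key : ∀ f m, Ev D (Le (β + 1 + 1 + 1)) (pC pU (pC (pr1 fun b => if b = 0 then pC pAp pS
      else pK 1) (pC p (pr2 fun m u => Nat.pair (u.unpair.1 + 1) (Nat.pair m u.unpair.2)))))
      (m :: Nat.pair fs.length a :: rest) (f :: fs)
      (if b m = 0 then chi (m + 1 ∈ f) else 1) := by
    intro f m
    refine evL_S4 (evL_S4 (evL_S4 (evL_fin hβ (ev_pr2 bd_omega hg _ _ _ _)) ?_)
      (evL_fin (hβ.trans e1) (ev_pr1 bd_omega hg' (b m) _ _))) (evL_S9 ?_)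
    · simp only [Nat.unpair_pair]
      exact H f m _
    · by_cases hb : b m = 0
      · simp only [hb, if_true]
        exact evL_fin (hβ.trans e1) (ev_S4 bd_omega (ev_S1 bd_omega _ _ _)
          (ev_S7 bd_omega _ _ _ _))
      · simp only [hb, if_false]
        exact evL_fin (hβ.trans e1) (ev_S2 bd_omega _ _ _)
  refine ⟨β + 1 + 1 + 1 + 1, le_rfl, stage_iff'.2 (.S8 _ _ _ _ _ ?_)⟩
  intro f _ m
  obtain ⟨μ, h1, h2⟩ := key f m
  exact before_succ.2 (h2.mono h1)

theorem semL_fix (hβ : ω ≤ β) {p a : ℕ} {fs : List (Set ℕ)} {c : ℕ}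
    (h : Sem D (Le β) p (Nat.pair (fix p) a) fs c) : Sem D (Le (β + 2)) (fix p) a fs c := by
  intro rest
  have hg : Primrec₂ fun y u : ℕ =>
      Nat.pair u.unpair.1 (Nat.pair (pC y (pK y)) u.unpair.2) := by
    unfold pC pK
    refine Primrec₂.natPair.comp (Primrec.fst.comp (Primrec.unpair.comp Primrec.snd))
      (Primrec₂.natPair.comp (Primrec₂.natPair.comp (Primrec.const _)
        (Primrec₂.natPair.comp Primrec.fst (Primrec₂.natPair.comp (Primrec.const _) Primrec.fst)))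
        (Primrec.snd.comp (Primrec.unpair.comp Primrec.snd)))
  have h2 : β + 2 = β + 1 + 1 := by
    rw [add_assoc]; norm_num
  rw [h2]
  have e1 : β ≤ β + 1 := le_add_one' β
  refine evL_S4 (evL_fin (hβ.trans e1) (ev_S2 bd_omega (fixAux p) _ _))
    (evL_S4 (evL_fin hβ (ev_pr2 bd_omega hg _ _ _ _)) ?_)
  simp only [Nat.unpair_pair]
  exact h _

/-! ### Lower bounds -/

/-- Every computation of this tuple has length at least `β`. -/
def GeL (D : (Set ℕ → Set ℕ) → Set (Set ℕ)) (β : Ordinal.{0}) (e : ℕ) (as : List ℕ)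
    (fs : List (Set ℕ)) : Prop := ∀ μ c, Stage D μ e as fs c → β ≤ μ

def Ge (D : (Set ℕ → Set ℕ) → Set (Set ℕ)) (β : Ordinal.{0}) (p a : ℕ)
    (fs : List (Set ℕ)) : Prop := ∀ rest, GeL D β p (Nat.pair fs.length a :: rest) fs

theorem geL_right (hD : Good D) {g h : ℕ} {as : List ℕ} {fs : List (Set ℕ)} {b : ℕ}
    (h1 : Conv D h as fs b) (h2 : GeL D β g (b :: as) fs) : GeL D β (pC g h) as fs := by
  intro μ c H
  rw [stage_iff'] at H
  obtain ⟨b', ⟨ν, h3, h4⟩, ⟨κ, h5, h6⟩⟩ := inv_S4 H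
  obtain ⟨ν', h7⟩ := h1
  obtain rfl := stage_unique hD h7 h4
  exact (h2 _ _ h6).trans h5.le

theorem geL_left {g h : ℕ} {as : List ℕ} {fs : List (Set ℕ)}
    (h2 : GeL D β h as fs) : GeL D β (pC g h) as fs := by
  intro μ c H
  rw [stage_iff'] at H
  obtain ⟨b', ⟨ν, h3, h4⟩, ⟨κ, h5, h6⟩⟩ := inv_S4 H
  exact (h2 _ _ h4).trans h3.le

theorem geL_S9 {e : ℕ} {as : List ℕ} {fs : List (Set ℕ)}
    (h : GeL D β e as fs) : GeL D β pU (e :: as) fs := by
  intro μ c H
  rw [stage_iff'] at H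
  have h0 : pU = Nat.pair 9 (Nat.pair 0 0) := by
    have h0 : Nat.pair 0 0 = 0 := by decide
    rw [h0]; rfl
  rw [h0] at H
  obtain ⟨e', as₁, as₂, fs₁, fs₂, h2, h3, h4, h5, ν, h6, h7⟩ := inv_S9 H
  rw [List.length_eq_zero_iff] at h3 h5
  subst h3 h5
  simp only [List.append_nil, List.cons.injEq] at h2 h4
  obtain ⟨rfl, rfl⟩ := h2
  subst h4
  exact (h _ _ h7).trans h6.le

theorem conv_of_ev {B : Ordinal.{0} → Prop} {e : ℕ} {as : List ℕ} {fs : List (Set ℕ)} {c : ℕ}
    (h : Ev D B e as fs c) : Conv D e as fs c := by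
  obtain ⟨μ, -, h⟩ := h
  exact ⟨μ, h⟩

theorem ge_subst (hD : Good D) {α γ : Type} [Primcodable α] [Primcodable γ] {g : ℕ × α → γ}
    (hg : Primrec g) {p : ℕ} {a : α} {fs : List (Set ℕ)}
    (h : Ge D β p (encode (g (fs.length, a))) fs) : Ge D β (subst (cod g) p) (encode a) fs := by
  intro rest
  have hf : Primrec fun u => Nat.pair u.unpair.1 (cod g u) :=
    Primrec₂.natPair.comp (Primrec.fst.comp Primrec.unpair) (primrec_cod hg)
  refine geL_right hD (conv_of_ev (ev_pr1 (D := D) bd_true hf _ _ _)) ?_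
  have := h (Nat.pair fs.length (encode a) :: rest)
  have h2 : Nat.pair fs.length (encode a) = encode (fs.length, a) := rfl
  simp only [Nat.unpair_pair]
  rw [h2, cod_encode]
  exact this

theorem ge_ite (hD : Good D) {B : Ordinal.{0} → Prop} {t p q a : ℕ} {fs : List (Set ℕ)} {b : ℕ}
    (ht : Sem D B t a fs b) (hb : b ≠ 0) (hp : Ge D β p a fs) :
    Ge D β (ite' t p q) a fs := by
  intro rest
  have hg : Primrec fun b : ℕ => if b = 0 then q else p :=
    Primrec.ite (Primrec.eq.comp Primrec.id (Primrec.const 0)) (Primrec.const _) (Primrec.const _)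
  refine geL_right hD (conv_of_ev (ev_S4 bd_true ((ht rest).mono (fun _ _ => trivial))
    (ev_pr1 bd_true hg _ _ _))) (geL_S9 ?_)
  simpa [hb] using hp rest

theorem ge_call (hD : Good D) {z a : ℕ} {fs : List (Set ℕ)}
    (h : Ge D β z a fs) : Ge D β call (Nat.pair z a) fs := by
  intro rest
  have hg' : Primrec fun u : ℕ => Nat.pair u.unpair.1 u.unpair.2.unpair.2 :=
    Primrec₂.natPair.comp (Primrec.fst.comp Primrec.unpair) (Primrec.snd.comp
      (Primrec.unpair.comp (Primrec.snd.comp Primrec.unpair)))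
  have hg : Primrec₂ fun _ u : ℕ => u.unpair.2.unpair.1 :=
    Primrec.fst.comp (Primrec.unpair.comp (Primrec.snd.comp (Primrec.unpair.comp Primrec.snd)))
  refine geL_right hD (conv_of_ev (ev_pr1 (D := D) bd_true hg' _ _ _))
    (geL_right hD (conv_of_ev (ev_pr2 (D := D) bd_true hg _ _ _ _)) (geL_S9 ?_))
  simp only [Nat.unpair_pair]
  exact h _

theorem ge_fix (hD : Good D) {p a : ℕ} {fs : List (Set ℕ)}
    (h : Ge D β p (Nat.pair (fix p) a) fs) : Ge D β (fix p) a fs := by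
  intro rest
  have hg : Primrec₂ fun y u : ℕ =>
      Nat.pair u.unpair.1 (Nat.pair (pC y (pK y)) u.unpair.2) := by
    unfold pC pK
    refine Primrec₂.natPair.comp (Primrec.fst.comp (Primrec.unpair.comp Primrec.snd))
      (Primrec₂.natPair.comp (Primrec₂.natPair.comp (Primrec.const _)
        (Primrec₂.natPair.comp Primrec.fst (Primrec₂.natPair.comp (Primrec.const _) Primrec.fst)))
        (Primrec.snd.comp (Primrec.unpair.comp Primrec.snd)))
  refine geL_right hD (conv_of_ev (ev_S2 (D := D) bd_true (fixAux p) _ _))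
    (geL_right hD (conv_of_ev (ev_pr2 (D := D) bd_true hg _ _ _ _)) ?_)
  simp only [Nat.unpair_pair]
  exact h _

theorem gtL_S8 {h n : ℕ} {as : List ℕ} {fs : List (Set ℕ)} {f : Set ℕ} {m : ℕ}
    (H : GeL allReals β h (m :: as) (f :: fs)) : GeL allReals (β + 1) (pI h) (n :: as) fs := by
  intro μ c hs
  rw [stage_iff'] at hs
  obtain ⟨n', as', G, h1, -, h3⟩ := inv_S8 hs
  cases h1
  obtain ⟨ν, h4, h5⟩ := h3 f (Set.mem_univ _) m
  exact Order.add_one_le_of_lt ((H _ _ h5).trans_lt h4)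

theorem ge_ex {p a : ℕ} {fs : List (Set ℕ)} {f : Set ℕ} {m : ℕ}
    (H : Ge allReals β p (Nat.pair m a) (f :: fs)) : Ge allReals (β + 1) (ex p) a fs := by
  intro rest
  have hg : Primrec₂ fun m u : ℕ => Nat.pair (u.unpair.1 + 1) (Nat.pair m u.unpair.2) := by
    refine Primrec₂.natPair.comp (Primrec.succ.comp (Primrec.fst.comp
      (Primrec.unpair.comp Primrec.snd))) (Primrec₂.natPair.comp Primrec.fst ?_)
    exact Primrec.snd.comp (Primrec.unpair.comp Primrec.snd)
  refine geL_right good_full (conv_of_ev (ev_S2 (D := allReals) bd_true 0 _ _))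
    (gtL_S8 (f := f) (m := m) ?_)
  refine geL_left (geL_left (geL_right good_full (conv_of_ev (ev_pr2 (D := allReals) bd_true hg
    _ _ _ _)) ?_))
  simp only [Nat.unpair_pair]
  exact H _

/-! ### Small lengths -/

def eJ : ℕ → ℕ
  | 0 => pK 0
  | j + 1 => pI (pR (pC (eJ j) (pK 0)) (pA 1 pHd))

theorem nmi_empty : nmi (fun _ : Set ℕ => {m : ℕ | (0 : ℕ) ≠ 0}) = ∅ := by
  apply Set.eq_empty_of_subset_empty
  apply nmi_subset_of
  intro X _ m hm
  exact absurd rfl hm

theorem eJ_spec (j : ℕ) : ∀ (as : List ℕ) (fs : List (Set ℕ)),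
    Stage allReals (ω * (j : Ordinal.{0})) (eJ j) (0 :: as) fs 0 ∧
    GeL allReals (ω * (j : Ordinal.{0})) (eJ j) (0 :: as) fs := by
  induction j with
  | zero =>
    intro as fs
    refine ⟨?_, fun μ c _ => by simp⟩
    simp only [Nat.cast_zero, mul_zero]
    have h1 : Clause allReals (Before allReals 0) (Nat.pair 2 0) (0 :: as) fs 0 := .S2 ..
    exact stage_iff'.2 h1
  | succ j ih =>
    intro as fs
    set δ : Ordinal.{0} := ω * (j : Ordinal.{0}) with hδ
    have hsucc : ω * ((j + 1 : ℕ) : Ordinal.{0}) = δ + ω := by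
      rw [Nat.cast_succ, mul_add_one]
    -- upper bounds for the recursion
    have up : ∀ (m : ℕ) (as : List ℕ) (fs : List (Set ℕ)),
        Stage allReals (δ + m + 2) (pR (pC (eJ j) (pK 0)) (pA 1 pHd)) (m :: as) fs 0 := by
      intro m as fs
      induction m with
      | zero =>
        have h1 : Stage allReals (δ + 1) (pC (eJ j) (pK 0)) as fs 0 := by
          refine stage_iff'.2 (.S4 _ _ _ _ 0 _ ?_ (before_succ.2 (ih as fs).1))
          exact ⟨0, by simp, stage_iff'.2 (.S2 ..)⟩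
        have h2 : δ + ((0 : ℕ) : Ordinal.{0}) + 2 = δ + 1 + 1 := by
          simp only [Nat.cast_zero, add_zero]
          rw [add_assoc]; norm_num
        rw [h2]
        exact stage_iff'.2 (.S5z _ _ _ _ _ (before_succ.2 h1))
      | succ m ih2 =>
        have h1 : Stage allReals 1 (pA 1 pHd) (m :: 0 :: as) fs 0 := by
          refine stage_iff'.2 (.S6a pHd 0 [m] as fs 0 ?_)
          exact ⟨0, by simp, stage_iff'.2 (.S3 ..)⟩
        have h2 : δ + ((m + 1 : ℕ) : Ordinal.{0}) + 2 = δ + m + 2 + 1 := by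
          rw [Nat.cast_succ, add_assoc, add_assoc, add_assoc, add_assoc]
          norm_cast
        rw [h2]
        refine stage_iff'.2 (.S5s _ _ _ _ _ 0 _ (before_succ.2 ih2)
          (before_succ.2 (h1.mono ?_)))
        have h3 : (1 : Ordinal.{0}) ≤ 2 := by norm_num
        exact h3.trans le_add_self
    have low : ∀ (m : ℕ) (as : List ℕ) (fs : List (Set ℕ)),
        GeL allReals (δ + m) (pR (pC (eJ j) (pK 0)) (pA 1 pHd)) (m :: as) fs := by
      intro m as fs
      induction m with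
      | zero =>
        intro μ c H
        rw [stage_iff'] at H
        rcases inv_S5 H with ⟨as', h3, ν, h4, h5⟩ | ⟨a, as', b, h3, -⟩
        · cases h3
          have h6 := geL_right (D := allReals) good_full (g := eJ j)
            (conv_of_ev (ev_S2 (D := allReals) bd_true 0 as fs)) (ih as fs).2
          simpa using (h6 _ _ h5).trans h4.le
        · simp at h3
      | succ m ih2 =>
        intro μ c H
        rw [stage_iff'] at H
        rcases inv_S5 H with ⟨as', h3, -⟩ | ⟨a, as', b, h3, ⟨ν, h4, h5⟩, -⟩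
        · simp at h3
        · cases h3
          rw [Nat.cast_succ, ← add_assoc]
          exact Order.add_one_le_of_lt ((ih2 _ _ h5).trans_lt h4)
    refine ⟨?_, ?_⟩
    · have h1 := Clause.S8 (D := allReals) (X := Before allReals (ω * ((j + 1 : ℕ) : Ordinal.{0})))
        (pR (pC (eJ j) (pK 0)) (pA 1 pHd)) 0 as fs (fun _ _ => 0) ?_
      · have h2 : chi (0 ∈ nmi (fun _ : Set ℕ => {m : ℕ | (0 : ℕ) ≠ 0})) = 0 := by
          rw [nmi_empty, chi_eq_zero]
          exact Set.notMem_empty 0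
        rw [h2] at h1
        exact stage_iff'.2 h1
      · intro f _ m
        refine ⟨δ + m + 2, ?_, up m as (f :: fs)⟩
        rw [hsucc, add_assoc]
        refine (add_lt_add_iff_left _).2 ?_
        exact_mod_cast natCast_lt_omega0 (m + 2)
    · intro μ c H
      rw [hsucc]
      have h1 : ∀ m : ℕ, δ + m < μ := by
        intro m
        have h2 := gtL_S8 (f := ∅) (m := m) (n := 0) (low m as (∅ :: fs))
        exact (Order.lt_add_one_iff.2 le_rfl).trans_le (h2 _ _ H)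
      by_contra hlt
      rw [not_le, lt_add_iff_of_isSuccLimit isSuccLimit_omega0] at hlt
      obtain ⟨d, hd, h2⟩ := hlt
      obtain ⟨n, rfl⟩ := lt_omega0.1 hd
      exact absurd (h1 n) (not_lt.2 h2.le)

theorem isLength_of_exact {δ : Ordinal.{0}} {e : ℕ} {as : List ℕ} {c : ℕ}
    (h1 : Stage allReals δ e as [] c) (h2 : GeL allReals δ e as []) : IsLength allReals δ :=
  ⟨e, as, c, h1, fun _ hν h3 => absurd (h2 _ _ h3) (not_le.2 hν)⟩

theorem isLength_small (j : ℕ) : IsLength allReals (ω * (j : Ordinal.{0})) :=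
  isLength_of_exact (eJ_spec j [] []).1 (eJ_spec j [] []).2

theorem isLength_succ {δ : Ordinal.{0}} (h : IsLength allReals δ) : IsLength allReals (δ + 1) := by
  obtain ⟨e, as, c, h1, h2⟩ := h
  refine isLength_of_exact (e := pC pHd e) (as := as) (c := c) ?_ ?_
  · refine stage_iff'.2 (.S4 _ _ _ _ c _ (before_succ.2 h1) ?_)
    exact ⟨0, by simp, stage_iff'.2 (.S3 ..)⟩
  · intro μ c' H
    rw [stage_iff'] at H
    obtain ⟨b, ⟨ν, h3, h4⟩, -⟩ := inv_S4 H
    refine Order.add_one_le_of_lt (lt_of_le_of_lt ?_ h3)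
    obtain rfl := stage_unique good_full h1 h4
    by_contra hlt
    exact h2 ν (not_le.1 hlt) h4

end Pool.Agent.Helper80.NMI
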