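import Pool.Agent.Helper80.NMI.Prog

namespace Pool.Agent.Helper80.NMI

open Order Encodable

/-! ### Typed coding -/

/-- The numerical function induced by a typed function. -/
def cod {α β : Type} [Primcodable α] [Primcodable β] (g : α → β) (n : ℕ) : ℕ :=
  (encode ((decode (α := α) n).map g)).pred

theorem cod_encode {α β : Type} [Primcodable α] [Primcodable β] (g : α → β) (a : α) :
    cod g (encode a) = encode (g a) := by
  simp [cod]

theorem primrec_cod {α β : Type} [Primcodable α] [Primcodable β] {g : α → β} (hg : Primrec g) :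
    Primrec (cod g) := by
  unfold cod
  exact Primrec.pred.comp (Primrec.encode.comp
    (Primrec.option_map Primrec.decode (hg.comp Primrec.snd)))

variable {D : (Set ℕ → Set ℕ) → Set (Set ℕ)} {B B' : Ordinal.{0} → Prop}

theorem sem_substT (hB : Bd B) {α β : Type} [Primcodable α] [Primcodable β] {g : ℕ × α → β}
    (hg : Primrec g) {p : ℕ} {a : α} {fs : List (Set ℕ)} {c : ℕ}
    (h : Sem D B p (encode (g (fs.length, a))) fs c) :
    Sem D B (subst (cod g) p) (encode a) fs c := by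
  refine sem_subst hB (primrec_cod hg) ?_
  have : Nat.pair fs.length (encode a) = encode (fs.length, a) := rfl
  rw [this, cod_encode]
  exact h

theorem sem_primT (hB : Bd B) {α β : Type} [Primcodable α] [Primcodable β] {g : ℕ × α → β}
    (hg : Primrec g) (a : α) (fs : List (Set ℕ)) :
    Sem D B (prim (cod g)) (encode a) fs (encode (g (fs.length, a))) := by
  have := sem_prim (D := D) hB (primrec_cod hg) (encode a) fs
  rwa [show Nat.pair fs.length (encode a) = encode (fs.length, a) from rfl, cod_encode] at this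

/-! ### Operators on relations -/

/-- Relations between codes and finite lists of reals. -/
abbrev RR (τ : Type) := τ → List (Set ℕ) → Prop

/-- An increasing sequence of classes of ordinals, each bounding small families of the previous
one. -/
structure Ladder (L : ℕ → Ordinal.{0} → Prop) : Prop where
  bd : ∀ k, Bd (L k)
  mono : ∀ k μ, L k μ → L (k + 1) μ
  sup : ∀ k, SupTo (L k) (L (k + 1))

theorem Ladder.le {L : ℕ → Ordinal.{0} → Prop} (hL : Ladder L) {k l : ℕ} (h : k ≤ l)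
    (μ : Ordinal.{0}) (hμ : L k μ) : L l μ := by
  induction h with
  | refl => exact hμ
  | step _ ih => exact hL.mono _ _ ih

/-- `z`, with parameter `v`, decides `R`, in all environments satisfying `C`. -/
def Oracle {τ : Type} [Primcodable τ] (D : (Set ℕ → Set ℕ) → Set (Set ℕ))
    (B : Ordinal.{0} → Prop) (C : List (Set ℕ) → Prop) (z v : ℕ) (R : RR τ) : Prop :=
  ∀ (t : τ) (ds : List ℕ) (fs : List (Set ℕ)), C fs → (∀ d ∈ ds, d < fs.length) →
    Sem D B z (encode (v, ds, t)) fs (chi (R t (ds.map (lvl fs))))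

/-- A condition on environments preserved by adding reals. -/
def Stable (C : List (Set ℕ) → Prop) : Prop := ∀ f fs, C fs → C (f :: fs)

/-- The operator `Φ` on relations is given by a program, uniformly in a program for its
argument. -/
def Op {τ α : Type} [Primcodable τ] [Primcodable α] (Φ : RR τ → RR α) : Prop :=
  ∃ p k : ℕ, ∀ (D : (Set ℕ → Set ℕ) → Set (Set ℕ)) (L : ℕ → Ordinal.{0} → Prop), Ladder L →
    ∀ C, Stable C → ∀ (z v : ℕ) (R : RR τ), Oracle D (L 0) C z v R →
    ∀ (a : α) (ds : List ℕ) (fs : List (Set ℕ)), C fs → (∀ d ∈ ds, d < fs.length) →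
      Sem D (L k) p (encode (z, v, ds, a)) fs (chi (Φ R a (ds.map (lvl fs))))

section closure

variable {τ α β : Type} [Primcodable τ] [Primcodable α] [Primcodable β]

theorem chi_congr {P Q : Prop} (h : P ↔ Q) : chi P = chi Q := by
  rw [propext h]

theorem chi_ne_zero {P : Prop} : chi P ≠ 0 ↔ P := by
  by_cases h : P <;> simp [chi, h]

theorem chi_eq_zero {P : Prop} : chi P = 0 ↔ ¬ P := by
  by_cases h : P <;> simp [chi, h]

theorem Op.primLen {P : α × ℕ → Prop} (hP : PrimrecPred P) :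
    Op (τ := τ) (fun _ a rs => P (a, rs.length)) := by
  obtain ⟨_, hP⟩ := hP
  let g : ℕ × (ℕ × ℕ × List ℕ × α) → ℕ :=
    fun x => if decide (P (x.2.2.2.2, x.2.2.2.1.length)) = true then 1 else 0
  have h1 : Primrec fun x : ℕ × (ℕ × ℕ × List ℕ × α) => x.2.2.2 :=
    Primrec.snd.comp (Primrec.snd.comp Primrec.snd)
  have hg : Primrec g := by
    refine Primrec.ite (Primrec.eq.comp (hP.comp ?_) (Primrec.const true)) (Primrec.const _)
      (Primrec.const _)
    exact (Primrec.snd.comp h1).pair (Primrec.list_length.comp (Primrec.fst.comp h1))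
  refine ⟨NMI.prim (cod g), 0, ?_⟩
  intro D L hL C hC z v R hR a ds fs hfs hds
  have := sem_primT (D := D) (hL.bd 0) hg (z, v, ds, a) fs
  have h2 : encode (g (fs.length, (z, v, ds, a))) = chi (P (a, (ds.map (lvl fs)).length)) := by
    by_cases h : P (a, ds.length) <;> simp [g, chi, h]
  rwa [h2] at this

theorem Op.prim {P : α → Prop} (hP : PrimrecPred P) : Op (τ := τ) (fun _ a _ => P a) :=
  Op.primLen (P := fun x => P x.1) (hP.comp Primrec.fst)

theorem Op.sub {Φ : RR τ → RR α} (hΦ : Op Φ) {f : β → α} (hf : Primrec f) :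
    Op (fun R b rs => Φ R (f b) rs) := by
  obtain ⟨p, k, hp⟩ := hΦ
  let g : ℕ × (ℕ × ℕ × List ℕ × β) → (ℕ × ℕ × List ℕ × α) :=
    fun x => (x.2.1, x.2.2.1, x.2.2.2.1, f x.2.2.2.2)
  have hg : Primrec g := by
    refine (Primrec.fst.comp Primrec.snd).pair ((Primrec.fst.comp (Primrec.snd.comp
      Primrec.snd)).pair ((Primrec.fst.comp (Primrec.snd.comp (Primrec.snd.comp
      Primrec.snd))).pair (hf.comp (Primrec.snd.comp (Primrec.snd.comp (Primrec.snd.comp
      Primrec.snd))))))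
  refine ⟨subst (cod g) p, k, ?_⟩
  intro D L hL C hC z v R hR b ds fs hfs hds
  exact sem_substT (hL.bd k) hg (hp D L hL C hC z v R hR (f b) ds fs hfs hds)

theorem Op.not {Φ : RR τ → RR α} (hΦ : Op Φ) : Op (fun R a rs => ¬ Φ R a rs) := by
  obtain ⟨p, k, hp⟩ := hΦ
  refine ⟨ite' p (pK 0) (pK 1), k, ?_⟩
  intro D L hL C hC z v R hR a ds fs hfs hds
  have hB := hL.bd k
  refine sem_ite hB (hp D L hL C hC z v R hR a ds fs hfs hds) ?_ ?_
  · intro h
    rw [chi_ne_zero] at h
    have : chi (¬ Φ R a (ds.map (lvl fs))) = 0 := chi_eq_zero.2 (by simpa using h)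
    rw [this]
    exact sem_const hB _ _ _
  · intro h
    rw [chi_eq_zero] at h
    have : chi (¬ Φ R a (ds.map (lvl fs))) = 1 := by simp [chi, h]
    rw [this]
    exact sem_const hB _ _ _

theorem Op.and {Φ Ψ : RR τ → RR α} (hΦ : Op Φ) (hΨ : Op Ψ) :
    Op (fun R a rs => Φ R a rs ∧ Ψ R a rs) := by
  obtain ⟨p, k, hp⟩ := hΦ
  obtain ⟨q, l, hq⟩ := hΨ
  refine ⟨ite' p q (pK 0), max k l, ?_⟩
  intro D L hL C hC z v R hR a ds fs hfs hds
  have hB := hL.bd (max k l)
  refine sem_ite hB ((hp D L hL C hC z v R hR a ds fs hfs hds).mono (hL.le (le_max_left _ _))) ?_ ?_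
  · intro h
    rw [chi_ne_zero] at h
    rw [chi_congr (show (Φ R a (ds.map (lvl fs)) ∧ Ψ R a (ds.map (lvl fs))) ↔
      Ψ R a (ds.map (lvl fs)) from by simp [h])]
    exact (hq D L hL C hC z v R hR a ds fs hfs hds).mono (hL.le (le_max_right _ _))
  · intro h
    rw [chi_eq_zero] at h
    have : chi (Φ R a (ds.map (lvl fs)) ∧ Ψ R a (ds.map (lvl fs))) = 0 := by
      simp [chi, h]
    rw [this]
    exact sem_const hB _ _ _

theorem Op.of_iff {Φ Ψ : RR τ → RR α} (hΦ : Op Φ) (h : ∀ R a rs, Ψ R a rs ↔ Φ R a rs) :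
    Op Ψ := by
  have : Ψ = Φ := by
    funext R a rs
    exact propext (h R a rs)
  rwa [this]

theorem Op.or {Φ Ψ : RR τ → RR α} (hΦ : Op Φ) (hΨ : Op Ψ) :
    Op (fun R a rs => Φ R a rs ∨ Ψ R a rs) :=
  (hΦ.not.and hΨ.not).not.of_iff fun R a rs => by tauto

theorem Op.imp {Φ Ψ : RR τ → RR α} (hΦ : Op Φ) (hΨ : Op Ψ) :
    Op (fun R a rs => Φ R a rs → Ψ R a rs) :=
  (hΦ.not.or hΨ).of_iff fun R a rs => by tauto

theorem Op.iff {Φ Ψ : RR τ → RR α} (hΦ : Op Φ) (hΨ : Op Ψ) :
    Op (fun R a rs => (Φ R a rs ↔ Ψ R a rs)) :=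
  ((hΦ.imp hΨ).and (hΨ.imp hΦ)).of_iff fun R a rs => by tauto

theorem map_lvl_cons {ds : List ℕ} {f : Set ℕ} {fs : List (Set ℕ)}
    (hds : ∀ d ∈ ds, d < fs.length) : ds.map (lvl (f :: fs)) = ds.map (lvl fs) :=
  List.map_congr_left fun d hd => lvl_cons (hds d hd)

theorem Op.ex {Φ : RR τ → RR (ℕ × α)} (hΦ : Op Φ) :
    Op (fun R a rs => ∃ m, Φ R (m, a) rs) := by
  obtain ⟨p, k, hp⟩ := hΦ
  let g : ℕ × (ℕ × (ℕ × ℕ × List ℕ × α)) → (ℕ × ℕ × List ℕ × (ℕ × α)) :=
    fun x => (x.2.2.1, x.2.2.2.1, x.2.2.2.2.1, (x.2.1, x.2.2.2.2.2))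
  have hg : Primrec g := by
    have h2 : Primrec fun x : ℕ × (ℕ × (ℕ × ℕ × List ℕ × α)) => x.2.2 :=
      Primrec.snd.comp Primrec.snd
    refine (Primrec.fst.comp h2).pair ((Primrec.fst.comp (Primrec.snd.comp
      h2)).pair ((Primrec.fst.comp (Primrec.snd.comp (Primrec.snd.comp
      h2))).pair ((Primrec.fst.comp Primrec.snd).pair (Primrec.snd.comp (Primrec.snd.comp
      (Primrec.snd.comp h2))))))
  refine ⟨NMI.ex (subst (cod g) p), k + 1, ?_⟩
  intro D L hL C hC z v R hR a ds fs hfs hds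
  have := sem_ex (D := D) (hL.bd k) (hL.bd (k + 1)) (hL.sup k) (p := subst (cod g) p)
    (a := encode (z, v, ds, a)) (fs := fs)
    (b := fun m => chi (Φ R (m, a) (ds.map (lvl fs)))) ?_
  · simp only [chi_ne_zero] at this
    exact this
  · intro f m
    refine sem_substT (a := (m, (z, v, ds, a))) (hL.bd k) hg ?_
    have h2 : ∀ d ∈ ds, d < (f :: fs).length := fun d hd => by
      have := hds d hd
      simp only [List.length_cons]
      omega
    have := hp D L hL C hC z v R hR (m, a) ds (f :: fs) (hC _ _ hfs) h2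
    rwa [map_lvl_cons hds] at this

theorem Op.all {Φ : RR τ → RR (ℕ × α)} (hΦ : Op Φ) :
    Op (fun R a rs => ∀ m, Φ R (m, a) rs) :=
  hΦ.not.ex.not.of_iff fun R a rs => by simp

theorem Op.const (P : Prop) : Op (τ := τ) (α := α) (fun _ _ _ => P) := by
  by_cases h : P
  · exact (Op.prim (P := fun _ : α => True) (PrimrecPred.of_eq (Primrec.eq.comp
      (Primrec.const 0) (Primrec.const 0)) (by simp))).of_iff fun R a rs => by simp [h]
  · exact (Op.prim (P := fun _ : α => False) (PrimrecPred.of_eq (Primrec.eq.comp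
      (Primrec.const 0) (Primrec.const 1)) (by simp))).of_iff fun R a rs => by simp [h]

theorem Op.read : Op (τ := τ) (α := ℕ × ℕ) (fun _ ji rs => ji.2 ∈ rs.getD ji.1 ∅) := by
  let g : ℕ × (ℕ × ℕ × List ℕ × (ℕ × ℕ)) → ℕ := fun x =>
    if x.2.2.2.2.1 < x.2.2.2.1.length then 1 else 0
  let g' : ℕ × (ℕ × ℕ × List ℕ × (ℕ × ℕ)) → ℕ × ℕ := fun x =>
    (x.2.2.2.1.getD x.2.2.2.2.1 0, x.2.2.2.2.2)
  have h1 : Primrec fun x : ℕ × (ℕ × ℕ × List ℕ × (ℕ × ℕ)) => x.2.2.2 :=
    Primrec.snd.comp (Primrec.snd.comp Primrec.snd)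
  have hg : Primrec g := by
    refine Primrec.ite (Primrec.nat_lt.comp (Primrec.fst.comp (Primrec.snd.comp h1))
      (Primrec.list_length.comp (Primrec.fst.comp h1))) (Primrec.const _) (Primrec.const _)
  have hg' : Primrec g' :=
    ((Primrec.list_getD 0).comp (Primrec.fst.comp h1) (Primrec.fst.comp
      (Primrec.snd.comp h1))).pair (Primrec.snd.comp (Primrec.snd.comp h1))
  refine ⟨ite' (NMI.prim (cod g)) (subst (cod g') rd) (pK 0), 0, ?_⟩
  intro D L hL C hC z v R hR a ds fs hfs hds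
  have hB := hL.bd 0
  refine sem_ite hB (sem_primT hB hg (z, v, ds, a) fs) ?_ ?_
  · intro h
    have hlt : a.1 < ds.length := by
      by_contra hn
      simp [g, hn] at h
    refine sem_substT hB hg' ?_
    have h3 : (ds.map (lvl fs)).getD a.1 ∅ = lvl fs (ds.getD a.1 0) := by
      rw [List.getD_eq_getElem _ _ (by simpa using hlt), List.getD_eq_getElem _ _ hlt]
      simp
    have h4 : ds.getD a.1 0 < fs.length := by
      rw [List.getD_eq_getElem _ _ hlt]
      exact hds _ (List.getElem_mem hlt)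
    have := sem_rd (D := D) hB (i := a.2) h4
    rw [chi_congr (show a.2 ∈ (ds.map (lvl fs)).getD a.1 ∅ ↔ a.2 ∈ lvl fs (ds.getD a.1 0) from
      by rw [h3])]
    exact this
  · intro h
    have hlt : ¬ a.1 < ds.length := by
      intro hn
      simp [g, hn] at h
    have : chi (a.2 ∈ (ds.map (lvl fs)).getD a.1 ∅) = 0 := by
      rw [chi_eq_zero, List.getD_eq_default _ _ (by simpa using hlt)]
      simp
    rw [this]
    exact sem_const hB _ _ _

theorem Op.call : Op (τ := τ) (fun R a rs => R a rs) := by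
  refine ⟨NMI.call, 0, ?_⟩
  intro D L hL C hC z v R hR a ds fs hfs hds
  exact sem_call (hL.bd 0) (hR a ds fs hfs hds)

theorem Op.reals {Φ : RR τ → RR α} (hΦ : Op Φ) (g : α → List ℕ → List ℕ)
    (g' : α → List (Set ℕ) → List (Set ℕ)) (hg : Primrec₂ g)
    (hnat : ∀ (a : α) (φ : ℕ → Set ℕ) (ds : List ℕ), (g a ds).map φ = g' a (ds.map φ))
    (hsub : ∀ (a : α) (ds : List ℕ), ∀ d ∈ g a ds, d ∈ ds) :
    Op (fun R a rs => Φ R a (g' a rs)) := by
  obtain ⟨p, k, hp⟩ := hΦ
  let f : ℕ × (ℕ × ℕ × List ℕ × α) → (ℕ × ℕ × List ℕ × α) :=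
    fun x => (x.2.1, x.2.2.1, g x.2.2.2.2 x.2.2.2.1, x.2.2.2.2)
  have h1 : Primrec fun x : ℕ × (ℕ × ℕ × List ℕ × α) => x.2.2.2 :=
    Primrec.snd.comp (Primrec.snd.comp Primrec.snd)
  have hf : Primrec f := by
    refine (Primrec.fst.comp Primrec.snd).pair ((Primrec.fst.comp (Primrec.snd.comp
      Primrec.snd)).pair ((hg.comp (Primrec.snd.comp h1) (Primrec.fst.comp h1)).pair
      (Primrec.snd.comp h1)))
  refine ⟨subst (cod f) p, k, ?_⟩
  intro D L hL C hC z v R hR a ds fs hfs hds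
  refine sem_substT (hL.bd k) hf ?_
  have h3 := hp D L hL C hC z v R hR a (g a ds) fs hfs fun d hd => hds d (hsub a ds d hd)
  rw [hnat] at h3
  exact h3

theorem Op.ind {Φ : RR τ → RR (ℕ × α)} (hΦ : Op Φ) :
    Op (α := ℕ × α) (fun R na rs => na.1 ∈ nmi (fun G => {m | Φ R (m, na.2) (G :: rs)})) := by
  obtain ⟨p, k, hp⟩ := hΦ
  let g : ℕ × (ℕ × ℕ × List ℕ × (ℕ × α)) → (ℕ × (ℕ × ℕ × List ℕ × α)) :=
    fun x => (x.2.2.2.2.1, (x.2.1, x.2.2.1, x.2.2.2.1, x.2.2.2.2.2))
  let g' : ℕ × (ℕ × (ℕ × ℕ × List ℕ × α)) → (ℕ × ℕ × List ℕ × (ℕ × α)) :=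
    fun x => (x.2.2.1, x.2.2.2.1, (x.1 - 1) :: x.2.2.2.2.1, (x.2.1, x.2.2.2.2.2))
  have hg : Primrec g := by
    have h1 : Primrec fun x : ℕ × (ℕ × ℕ × List ℕ × (ℕ × α)) => x.2.2.2 :=
      Primrec.snd.comp (Primrec.snd.comp Primrec.snd)
    refine (Primrec.fst.comp (Primrec.snd.comp h1)).pair ((Primrec.fst.comp Primrec.snd).pair
      ((Primrec.fst.comp (Primrec.snd.comp Primrec.snd)).pair ((Primrec.fst.comp h1).pair
      (Primrec.snd.comp (Primrec.snd.comp h1)))))
  have hg' : Primrec g' := by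
    have h2 : Primrec fun x : ℕ × (ℕ × (ℕ × ℕ × List ℕ × α)) => x.2.2 :=
      Primrec.snd.comp Primrec.snd
    have h3 : Primrec fun x : ℕ × (ℕ × (ℕ × ℕ × List ℕ × α)) => x.2.2.2.2 :=
      Primrec.snd.comp (Primrec.snd.comp h2)
    refine (Primrec.fst.comp h2).pair ((Primrec.fst.comp (Primrec.snd.comp h2)).pair
      ((Primrec.list_cons.comp (Primrec.nat_sub.comp Primrec.fst (Primrec.const 1))
      (Primrec.fst.comp h3)).pair ((Primrec.fst.comp Primrec.snd).pair (Primrec.snd.comp h3))))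
  refine ⟨subst (cod g) (NMI.ind (subst (cod g') p)), k + 1, ?_⟩
  rintro D L hL C hC z v R hR ⟨n, a⟩ ds fs hfs hds
  refine sem_substT (hL.bd (k + 1)) hg ?_
  have := sem_ind (D := D) (hL.bd k) (hL.bd (k + 1)) (hL.sup k) (p := subst (cod g') p)
    (n := n) (a := encode (z, v, ds, a)) (fs := fs)
    (G := fun f m => chi (Φ R (m, a) (f :: ds.map (lvl fs)))) ?_
  · simp only [chi_ne_zero] at this
    exact this
  · intro f _ m
    refine sem_substT (a := (m, (z, v, ds, a))) (hL.bd k) hg' ?_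
    have h2 : ∀ d ∈ (fs.length :: ds), d < (f :: fs).length := by
      intro d hd
      simp only [List.mem_cons] at hd
      rcases hd with rfl | hd
      · simp
      · have := hds d hd
        simp only [List.length_cons]
        omega
    have := hp D L hL C hC z v R hR (m, a) (fs.length :: ds) (f :: fs) (hC _ _ hfs) h2
    rw [List.map_cons, lvl_length, map_lvl_cons hds] at this
    simpa [g'] using this

end closure

end Pool.Agent.Helper80.NMI
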