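import Pool.Agent.Helper80.NMI.Step

namespace Pool.Agent.Helper80.NMI

open Order Encodable

section helpers

variable {τ α β : Type} [Primcodable τ] [Primcodable α] [Primcodable β]

theorem U1 {f : α → ℕ} (hf : Primrec f) : Primrec fun a => (f a).unpair.1 :=
  Primrec.fst.comp (Primrec.unpair.comp hf)

theorem U2 {f : α → ℕ} (hf : Primrec f) : Primrec fun a => (f a).unpair.2 :=
  Primrec.snd.comp (Primrec.unpair.comp hf)

theorem pEq {f g : α → ℕ} (hf : Primrec f) (hg : Primrec g) : PrimrecPred fun a => f a = g a :=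
  Primrec.eq.comp hf hg

theorem pLt {f g : α → ℕ} (hf : Primrec f) (hg : Primrec g) : PrimrecPred fun a => f a < g a :=
  Primrec.nat_lt.comp hf hg

theorem pLe {f g : α → ℕ} (hf : Primrec f) (hg : Primrec g) : PrimrecPred fun a => f a ≤ g a :=
  Primrec.nat_le.comp hf hg

theorem eq_chi_iff {c : ℕ} {P : Prop} : c = chi P ↔ ((c = 1 ∧ P) ∨ (c = 0 ∧ ¬ P)) := by
  by_cases h : P <;> simp [chi, h]

theorem Op.eqChi {Φ : RR τ → RR α} (hΦ : Op Φ) {f : α → ℕ} (hf : Primrec f) :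
    Op (fun R a rs => f a = chi (Φ R a rs)) :=
  (((Op.prim (pEq hf (Primrec.const 1))).and hΦ).or
    ((Op.prim (pEq hf (Primrec.const 0))).and hΦ.not)).of_iff fun _ _ _ => eq_chi_iff

theorem Op.callAt {f : α → τ} (hf : Primrec f) : Op (fun R a rs => R (f a) rs) :=
  Op.call.sub hf

/-- membership of a primitive recursively computed number in the real number `j`. -/
theorem Op.memAt (j : ℕ) {f : α → ℕ} (hf : Primrec f) :
    Op (τ := τ) (fun _ a rs => f a ∈ rs.getD j ∅) :=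
  Op.read.sub ((Primrec.const j).pair hf)

/-- `∃` with an explicit type. -/
theorem Op.ex' {Φ : RR τ → ℕ → RR α} (hΦ : Op (fun R (x : ℕ × α) rs => Φ R x.1 x.2 rs)) :
    Op (fun R a rs => ∃ m, Φ R m a rs) := hΦ.ex

theorem Op.all' {Φ : RR τ → ℕ → RR α} (hΦ : Op (fun R (x : ℕ × α) rs => Φ R x.1 x.2 rs)) :
    Op (fun R a rs => ∀ m, Φ R m a rs) := hΦ.all

theorem Op.ind' {Φ : RR τ → ℕ → RR α} (hΦ : Op (fun R (x : ℕ × α) rs => Φ R x.1 x.2 rs))
    {f : α → ℕ} (hf : Primrec f) :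
    Op (fun R a rs => f a ∈ nmi (fun G => {m | Φ R m a (G :: rs)})) :=
  hΦ.ind.sub (f := fun a => (f a, a)) (hf.pair Primrec.id)

end helpers

abbrev Tp := ℕ × List ℕ × ℕ

/-- The body of the flagged functional. -/
def Theta (R : RR Tp) (m : ℕ) (t : Tp) (rs : List (Set ℕ)) : Prop :=
  0 ∉ rs.getD 0 ∅ ∧ ((m = 0 ∧ ∃ m', ∀ b, ¬ R (t.1.unpair.2, m' :: t.2.1.tail, b) rs) ∨
    (m ≠ 0 ∧ (∀ m', ∃ b, R (t.1.unpair.2, m' :: t.2.1.tail, b) rs) ∧
      ∃ b, b ≠ 0 ∧ R (t.1.unpair.2, (m - 1) :: t.2.1.tail, b) rs))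

theorem op_Theta : Op (fun R (x : ℕ × Tp) rs => Theta R x.1 x.2 rs) := by
  unfold Theta
  -- generic accessors on `ℕ × (ℕ × (ℕ × Tp))`
  have hcall : Op (α := ℕ × (ℕ × (ℕ × Tp))) (fun R x rs =>
      R (x.2.2.2.1.unpair.2, x.2.1 :: x.2.2.2.2.1.tail, x.1) rs) := by
    have h3 : Primrec fun x : ℕ × (ℕ × (ℕ × Tp)) => x.2.2.2 :=
      Primrec.snd.comp (Primrec.snd.comp Primrec.snd)
    exact Op.callAt ((U2 (Primrec.fst.comp h3)).pair ((Primrec.list_cons.comp
      (Primrec.fst.comp Primrec.snd) (Primrec.list_tail.comp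
      (Primrec.fst.comp (Primrec.snd.comp h3)))).pair Primrec.fst))
  have hcall2 : Op (α := ℕ × (ℕ × Tp)) (fun R x rs =>
      R (x.2.2.1.unpair.2, (x.2.1 - 1) :: x.2.2.2.1.tail, x.1) rs) := by
    have h3 : Primrec fun x : ℕ × (ℕ × Tp) => x.2.2 := Primrec.snd.comp Primrec.snd
    exact Op.callAt ((U2 (Primrec.fst.comp h3)).pair ((Primrec.list_cons.comp
      (Primrec.nat_sub.comp (Primrec.fst.comp Primrec.snd) (Primrec.const 1))
      (Primrec.list_tail.comp (Primrec.fst.comp (Primrec.snd.comp h3)))).pair Primrec.fst))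
  refine (Op.memAt 0 (Primrec.const 0)).not.and (((Op.prim (pEq Primrec.fst
    (Primrec.const 0))).and (Op.ex' (Op.all' hcall.not))).or
    ((Op.prim (pEq Primrec.fst (Primrec.const 0))).not.and ((Op.all' (Op.ex' hcall)).and
      (Op.ex' ((Op.prim (pEq Primrec.fst (Primrec.const 0))).not.and hcall2)))))

/-- One step of the clocked evaluation. -/
def Phi (R : RR Tp) (t : Tp) (rs : List (Set ℕ)) : Prop :=
  (t.1 = Nat.pair 1 0 ∧ 0 < t.2.1.length ∧ t.2.2 = t.2.1.headI + 1) ∨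
  (t.1.unpair.1 = 2 ∧ t.2.2 = t.1.unpair.2) ∨
  (t.1 = Nat.pair 3 0 ∧ 0 < t.2.1.length ∧ t.2.2 = t.2.1.headI) ∨
  (t.1.unpair.1 = 4 ∧ ∃ b, R (t.1.unpair.2.unpair.2, t.2.1, b) rs ∧
    R (t.1.unpair.2.unpair.1, b :: t.2.1, t.2.2) rs) ∨
  (t.1.unpair.1 = 5 ∧ 0 < t.2.1.length ∧ t.2.1.headI = 0 ∧
    R (t.1.unpair.2.unpair.1, t.2.1.tail, t.2.2) rs) ∨
  (t.1.unpair.1 = 5 ∧ 0 < t.2.1.length ∧ t.2.1.headI ≠ 0 ∧ ∃ b,
    R (t.1, (t.2.1.headI - 1) :: t.2.1.tail, b) rs ∧
    R (t.1.unpair.2.unpair.2, (t.2.1.headI - 1) :: b :: t.2.1.tail, t.2.2) rs) ∨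
  (t.1.unpair.1 = 6 ∧ t.1.unpair.2.unpair.1 = 0 ∧
    t.1.unpair.2.unpair.2.unpair.1 < t.2.1.length ∧
    R (t.1.unpair.2.unpair.2.unpair.2, front t.1.unpair.2.unpair.2.unpair.1 t.2.1, t.2.2) rs) ∨
  (t.1.unpair.1 = 6 ∧ t.1.unpair.2.unpair.1 = 1 ∧
    t.1.unpair.2.unpair.2.unpair.1 < rs.length ∧
    R (t.1.unpair.2.unpair.2.unpair.2, t.2.1, t.2.2)
      (front t.1.unpair.2.unpair.2.unpair.1 rs)) ∨
  (t.1 = Nat.pair 7 0 ∧ 0 < t.2.1.length ∧ 0 < rs.length ∧
    t.2.2 = chi (t.2.1.headI + 1 ∈ rs.getD 0 ∅)) ∨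
  (t.1.unpair.1 = 8 ∧ 0 < t.2.1.length ∧ (0 ∉ nmi (fun G => {m | Theta R m t (G :: rs)}) ∧
    t.2.2 = chi (t.2.1.headI + 1 ∈ nmi (fun G => {m | Theta R m t (G :: rs)})))) ∨
  (t.1.unpair.1 = 9 ∧ 0 < t.2.1.length ∧ t.1.unpair.2.unpair.1 ≤ t.2.1.tail.length ∧
    t.1.unpair.2.unpair.2 ≤ rs.length ∧
    R (t.2.1.headI, t.2.1.tail.take (t.2.1.tail.length - t.1.unpair.2.unpair.1), t.2.2)
      (rs.take (rs.length - t.1.unpair.2.unpair.2)))

theorem primrec_front : Primrec₂ (front : ℕ → List ℕ → List ℕ) := by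
  unfold front
  refine Primrec.list_append.comp (Primrec.list_take.comp (Primrec.const 1)
    (Primrec.list_drop.comp Primrec.fst Primrec.snd)) (Primrec.list_append.comp
    (Primrec.list_take.comp Primrec.fst Primrec.snd) (Primrec.list_drop.comp
      (Primrec.succ.comp Primrec.fst) Primrec.snd))

theorem mem_of_mem_front {δ : Type*} {k : ℕ} {l : List δ} {x : δ} (h : x ∈ front k l) :
    x ∈ l := by
  unfold front at h
  simp only [List.mem_append] at h
  rcases h with h | h | h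
  · exact List.mem_of_mem_drop (List.mem_of_mem_take h)
  · exact List.mem_of_mem_take h
  · exact List.mem_of_mem_drop h

theorem op_Phi : Op Phi := by
  have he : Primrec fun t : Tp => t.1 := Primrec.fst
  have ha : Primrec fun t : Tp => t.2.1 := Primrec.fst.comp Primrec.snd
  have hc : Primrec fun t : Tp => t.2.2 := Primrec.snd.comp Primrec.snd
  have hlen : Primrec fun t : Tp => t.2.1.length := Primrec.list_length.comp ha
  have hhd : Primrec fun t : Tp => t.2.1.headI := Primrec.list_headI.comp ha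
  have htl : Primrec fun t : Tp => t.2.1.tail := Primrec.list_tail.comp ha
  have hpos : Op (τ := Tp) (fun _ (t : Tp) _ => 0 < t.2.1.length) :=
    Op.prim (pLt (Primrec.const 0) hlen)
  have htag : ∀ n : ℕ, Op (τ := Tp) (fun _ (t : Tp) _ => t.1.unpair.1 = n) := fun n =>
    Op.prim (pEq (U1 he) (Primrec.const n))
  have hind : Op (τ := Tp) (fun _ (t : Tp) _ => t.1 = t.1) := Op.prim (pEq he he)
  unfold Phi
  refine Op.or ?_ (Op.or ?_ (Op.or ?_ (Op.or ?_ (Op.or ?_ (Op.or ?_ (Op.or ?_ (Op.or ?_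
    (Op.or ?_ (Op.or ?_ ?_)))))))))
  · exact (Op.prim (pEq he (Primrec.const _))).and (hpos.and (Op.prim (pEq hc
      (Primrec.succ.comp hhd))))
  · exact (htag 2).and (Op.prim (pEq hc (U2 he)))
  · exact (Op.prim (pEq he (Primrec.const _))).and (hpos.and (Op.prim (pEq hc hhd)))
  · have hs : Primrec fun x : ℕ × Tp => x.2 := Primrec.snd
    refine (htag 4).and (Op.ex' (Op.and (Op.callAt ?_) (Op.callAt ?_)))
    · exact (U2 (U2 (he.comp hs))).pair ((ha.comp hs).pair Primrec.fst)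
    · exact (U1 (U2 (he.comp hs))).pair ((Primrec.list_cons.comp Primrec.fst
        (ha.comp hs)).pair (hc.comp hs))
  · exact (htag 5).and (hpos.and ((Op.prim (pEq hhd (Primrec.const 0))).and (Op.callAt
      ((U1 (U2 he)).pair (htl.pair hc)))))
  · have hs : Primrec fun x : ℕ × Tp => x.2 := Primrec.snd
    have hh1 : Primrec fun x : ℕ × Tp => x.2.2.1.headI - 1 :=
      Primrec.nat_sub.comp (hhd.comp hs) (Primrec.const 1)
    refine (htag 5).and (hpos.and ((Op.prim (pEq hhd (Primrec.const 0))).not.and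
      (Op.ex' (Op.and (Op.callAt ?_) (Op.callAt ?_)))))
    · exact (he.comp hs).pair ((Primrec.list_cons.comp hh1 (htl.comp hs)).pair Primrec.fst)
    · exact (U2 (U2 (he.comp hs))).pair ((Primrec.list_cons.comp hh1
        (Primrec.list_cons.comp Primrec.fst (htl.comp hs))).pair (hc.comp hs))
  · exact (htag 6).and ((Op.prim (pEq (U1 (U2 he)) (Primrec.const 0))).and ((Op.prim (pLt
      (U1 (U2 (U2 he))) hlen)).and (Op.callAt ((U2 (U2 (U2 he))).pair
      ((primrec_front.comp (U1 (U2 (U2 he))) ha).pair hc)))))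
  · refine (htag 6).and ((Op.prim (pEq (U1 (U2 he)) (Primrec.const 1))).and
      ((Op.primLen (P := fun x : Tp × ℕ => x.1.1.unpair.2.unpair.2.unpair.1 < x.2)
        (pLt (U1 (U2 (U2 (he.comp Primrec.fst)))) Primrec.snd)).and ?_))
    refine Op.reals (τ := Tp) (α := Tp)
      (Φ := fun (R : RR Tp) (t : Tp) rs => R (t.1.unpair.2.unpair.2.unpair.2, t.2.1, t.2.2) rs)
      (Op.callAt ((U2 (U2 (U2 he))).pair (ha.pair hc)))
      (fun (t : Tp) ds => front t.1.unpair.2.unpair.2.unpair.1 ds)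
      (fun (t : Tp) rs => front t.1.unpair.2.unpair.2.unpair.1 rs)
      (primrec_front.comp (U1 (U2 (U2 (he.comp Primrec.fst)))) Primrec.snd) ?_ ?_
    · intro t φ ds
      exact front_map _ _ _
    · intro t ds d hd
      exact mem_of_mem_front hd
  · exact (Op.prim (pEq he (Primrec.const _))).and (hpos.and ((Op.primLen
      (P := fun x : Tp × ℕ => 0 < x.2) (pLt (Primrec.const 0) Primrec.snd)).and
      (Op.eqChi (Op.memAt 0 (Primrec.succ.comp hhd)) hc)))
  · refine (htag 8).and (hpos.and ((Op.ind' op_Theta (Primrec.const 0)).not.and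
      (Op.eqChi (Op.ind' op_Theta (Primrec.succ.comp hhd)) hc)))
  · refine (htag 9).and (hpos.and ((Op.prim (pLe (U1 (U2 he)) (Primrec.list_length.comp
      htl))).and ((Op.primLen (P := fun x : Tp × ℕ => x.1.1.unpair.2.unpair.2 ≤ x.2)
      (pLe (U2 (U2 (he.comp Primrec.fst))) Primrec.snd)).and ?_)))
    refine Op.reals (τ := Tp) (α := Tp)
      (Φ := fun (R : RR Tp) (t : Tp) rs => R (t.2.1.headI,
        t.2.1.tail.take (t.2.1.tail.length - t.1.unpair.2.unpair.1), t.2.2) rs)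
      (Op.callAt (hhd.pair ((Primrec.list_take.comp (Primrec.nat_sub.comp
        (Primrec.list_length.comp htl) (U1 (U2 he))) htl).pair hc)))
      (fun (t : Tp) ds => ds.take (ds.length - t.1.unpair.2.unpair.2))
      (fun (t : Tp) rs => rs.take (rs.length - t.1.unpair.2.unpair.2))
      (Primrec.list_take.comp (Primrec.nat_sub.comp (Primrec.list_length.comp Primrec.snd)
        (U2 (U2 (he.comp Primrec.fst)))) Primrec.snd) ?_ ?_
    · intro t φ ds
      simp [List.map_take]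
    · intro t ds d hd
      exact List.mem_of_mem_take hd

/-- Correctness of one step. -/
theorem Phi_iff {X : ℕ → List ℕ → List (Set ℕ) → ℕ → Prop}
    (hX : ∀ e as fs c c', X e as fs c → X e as fs c' → c = c') {R : RR Tp}
    (hR : ∀ t rs, R t rs ↔ X t.1 t.2.1 (rs.map shift) t.2.2) (t : Tp) (rs : List (Set ℕ)) :
    Phi R t rs ↔ Clause usedReals X t.1 t.2.1 (rs.map shift) t.2.2 := by
  rw [clause_iff]
  unfold Phi Fcl
  obtain ⟨e, as, c⟩ := t
  simp only [hR, front_map, List.length_map, List.map_take]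
  have h8 : (∃ G : Set ℕ → ℕ → ℕ, (∀ f ∈ usedReals (fun f => {m | G f m ≠ 0}), ∀ m,
      X e.unpair.2 (m :: as.tail) (f :: rs.map shift) (G f m)) ∧
      c = chi (as.headI ∈ nmi (fun f => {m | G f m ≠ 0}))) ↔
      (0 ∉ nmi (fun G => {m | Theta R m (e, as, c) (G :: rs)}) ∧
        c = chi (as.headI + 1 ∈ nmi (fun G => {m | Theta R m (e, as, c) (G :: rs)}))) := by
    have h1 : (fun G => {m | Theta R m (e, as, c) (G :: rs)}) =
        flag (fun f m b => X e.unpair.2 (m :: as.tail) (f :: rs.map shift) b) := by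
      funext G
      ext m
      simp only [Theta, flag, hR, Set.mem_ofPred_eq, List.map_cons, List.getD_cons_zero]
    rw [h1]
    exact s8_flag (V := fun f m b => X e.unpair.2 (m :: as.tail) (f :: rs.map shift) b)
      (fun f m b b' h2 h3 => hX _ _ _ _ _ h2 h3) as.headI c
  rw [h8]
  have h7 : (0 < rs.length ∧ c = chi (as.headI + 1 ∈ rs.getD 0 ∅)) ↔
      (0 < rs.length ∧ c = chi (as.headI ∈ (rs.map shift).getD 0 ∅)) := by
    cases rs with
    | nil => simp
    | cons f fs => simp [shift]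
  rw [h7]

end Pool.Agent.Helper80.NMI
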