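import Pool.Agent.Helper80.NMI.Basic

namespace Pool.Agent.Helper80.NMI

open Order

/-! ### Programs -/

def pS : ℕ := Nat.pair 1 0
def pK (q : ℕ) : ℕ := Nat.pair 2 q
def pHd : ℕ := Nat.pair 3 0
def pC (g h : ℕ) : ℕ := Nat.pair 4 (Nat.pair g h)
def pR (g h : ℕ) : ℕ := Nat.pair 5 (Nat.pair g h)
def pA (k g : ℕ) : ℕ := Nat.pair 6 (Nat.pair 0 (Nat.pair k g))
def pB (k g : ℕ) : ℕ := Nat.pair 6 (Nat.pair 1 (Nat.pair k g))
def pAp : ℕ := Nat.pair 7 0
def pI (h : ℕ) : ℕ := Nat.pair 8 h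
def pU : ℕ := Nat.pair 9 0

/-- A class of ordinals closed under finite overheads. -/
structure Bd (B : Ordinal.{0} → Prop) : Prop where
  zero : B 0
  down : ∀ {μ ν}, μ ≤ ν → B ν → B μ
  succ : ∀ {μ}, B μ → B (μ + 1)

/-- `{e}(a⃗, f⃗) = c` with length in the class `B`. -/
def Ev (D : (Set ℕ → Set ℕ) → Set (Set ℕ)) (B : Ordinal.{0} → Prop) (e : ℕ) (as : List ℕ)
    (fs : List (Set ℕ)) (c : ℕ) : Prop := ∃ μ, B μ ∧ Stage D μ e as fs c

variable {D : (Set ℕ → Set ℕ) → Set (Set ℕ)} {B B' : Ordinal.{0} → Prop}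

theorem Bd.max (_ : Bd B) {μ ν : Ordinal.{0}} (h1 : B μ) (h2 : B ν) : B (max μ ν) := by
  rcases le_total μ ν with h | h
  · rwa [max_eq_right h]
  · rwa [max_eq_left h]

theorem ev_zero (hB : Bd B) {e : ℕ} {as : List ℕ} {fs : List (Set ℕ)} {c : ℕ}
    (h : Clause D (Before D 0) e as fs c) : Ev D B e as fs c :=
  ⟨0, hB.zero, stage_iff'.2 h⟩

theorem ev_S1 (hB : Bd B) (a : ℕ) (as : List ℕ) (fs : List (Set ℕ)) :
    Ev D B pS (a :: as) fs (a + 1) := ev_zero hB (.S1 ..)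

theorem ev_S2 (hB : Bd B) (q : ℕ) (as : List ℕ) (fs : List (Set ℕ)) :
    Ev D B (pK q) as fs q := ev_zero hB (.S2 ..)

theorem ev_S3 (hB : Bd B) (a : ℕ) (as : List ℕ) (fs : List (Set ℕ)) :
    Ev D B pHd (a :: as) fs a := ev_zero hB (.S3 ..)

theorem ev_S7 (hB : Bd B) (a : ℕ) (as : List ℕ) (f : Set ℕ) (fs : List (Set ℕ)) :
    Ev D B pAp (a :: as) (f :: fs) (chi (a ∈ f)) := ev_zero hB (.S7 ..)

theorem ev_one (hB : Bd B) {e e' : ℕ} {as as' : List ℕ} {fs fs' : List (Set ℕ)} {c c' : ℕ}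
    (h : Ev D B e as fs c)
    (H : ∀ X : ℕ → List ℕ → List (Set ℕ) → ℕ → Prop, X e as fs c → Clause D X e' as' fs' c') :
    Ev D B e' as' fs' c' := by
  obtain ⟨μ, h1, h2⟩ := h
  exact ⟨μ + 1, hB.succ h1, stage_iff'.2 (H _ (Before.of_stage h2))⟩

theorem ev_two (hB : Bd B) {e e' e₂ : ℕ} {as as' as₂ : List ℕ} {fs fs' fs₂ : List (Set ℕ)}
    {c c' c₂ : ℕ} (h : Ev D B e as fs c) (h' : Ev D B e₂ as₂ fs₂ c₂)
    (H : ∀ X : ℕ → List ℕ → List (Set ℕ) → ℕ → Prop, X e as fs c → X e₂ as₂ fs₂ c₂ →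
      Clause D X e' as' fs' c') :
    Ev D B e' as' fs' c' := by
  obtain ⟨μ, h1, h2⟩ := h
  obtain ⟨ν, h3, h4⟩ := h'
  exact ⟨max μ ν + 1, hB.succ (hB.max h1 h3), stage_iff'.2 (H _
    (Before.of_stage (h2.mono (le_max_left _ _))) (Before.of_stage (h4.mono (le_max_right _ _))))⟩

theorem ev_S4 (hB : Bd B) {g h : ℕ} {as : List ℕ} {fs : List (Set ℕ)} {b c : ℕ}
    (h1 : Ev D B h as fs b) (h2 : Ev D B g (b :: as) fs c) : Ev D B (pC g h) as fs c :=
  ev_two hB h1 h2 fun _ h3 h4 => .S4 _ _ _ _ _ _ h3 h4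

theorem ev_S5 (hB : Bd B) {g h : ℕ} {as : List ℕ} {fs : List (Set ℕ)} {F : ℕ → ℕ}
    (h1 : Ev D B g as fs (F 0)) (h2 : ∀ a, Ev D B h (a :: F a :: as) fs (F (a + 1))) (n : ℕ) :
    Ev D B (pR g h) (n :: as) fs (F n) := by
  induction n with
  | zero => exact ev_one hB h1 fun _ h3 => .S5z _ _ _ _ _ h3
  | succ n ih => exact ev_two hB ih (h2 n) fun _ h3 h4 => .S5s _ _ _ _ _ _ _ h3 h4

theorem ev_S6a (hB : Bd B) {g : ℕ} {a : ℕ} {as as' : List ℕ} {fs : List (Set ℕ)} {c : ℕ}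
    (h : Ev D B g (a :: (as ++ as')) fs c) : Ev D B (pA as.length g) (as ++ a :: as') fs c :=
  ev_one hB h fun _ h3 => .S6a _ _ _ _ _ _ h3

theorem ev_S6b (hB : Bd B) {g : ℕ} {as : List ℕ} {f : Set ℕ} {fs fs' : List (Set ℕ)} {c : ℕ}
    (h : Ev D B g as (f :: (fs ++ fs')) c) : Ev D B (pB fs.length g) as (fs ++ f :: fs') c :=
  ev_one hB h fun _ h3 => .S6b _ _ _ _ _ _ h3

theorem ev_S9 (hB : Bd B) {e : ℕ} {as : List ℕ} {fs : List (Set ℕ)} {c : ℕ}
    (h : Ev D B e as fs c) : Ev D B pU (e :: as) fs c := by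
  refine ev_one hB h fun X h3 => ?_
  have := Clause.S9 (D := D) (X := X) e as [] fs [] c h3
  have h0 : Nat.pair 0 0 = 0 := by decide
  simpa [pU, h0] using this

/-- `B'` bounds all small families from `B`. -/
def SupTo (B B' : Ordinal.{0} → Prop) : Prop :=
  ∀ (ι : Type) (μ : ι → Ordinal.{0}), (∀ i, B (μ i)) → ∃ σ, B' σ ∧ ∀ i, μ i < σ

theorem ev_S8 (hs : SupTo B B') {h n : ℕ} {as : List ℕ} {fs : List (Set ℕ)}
    {G : Set ℕ → ℕ → ℕ}
    (H : ∀ f ∈ D (fun f => {m | G f m ≠ 0}), ∀ m, Ev D B h (m :: as) (f :: fs) (G f m)) :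
    Ev D B' (pI h) (n :: as) fs (chi (n ∈ nmi (fun f => {m | G f m ≠ 0}))) := by
  choose! μ hμ using H
  obtain ⟨σ, h1, h2⟩ := hs ({f // f ∈ D (fun f => {m | G f m ≠ 0})} × ℕ)
    (fun x => μ x.1.1 x.2) (fun x => (hμ x.1.1 x.1.2 x.2).1)
  refine ⟨σ, h1, stage_iff'.2 (.S8 _ _ _ _ _ ?_)⟩
  intro f hf m
  exact ⟨μ f m, h2 ⟨⟨f, hf⟩, m⟩, (hμ f hf m).2⟩

/-! ### Iterated permutations -/

def pRot (k : ℕ) : ℕ → ℕ → ℕ
  | 0, g => g
  | n + 1, g => pA k (pRot k n g)

theorem ev_rot (hB : Bd B) {k g : ℕ} {p as : List ℕ} {fs : List (Set ℕ)} {c : ℕ}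
    (w : List ℕ) : ∀ (v' : List ℕ), (w ≠ [] → v'.length + p.length + w.length = k + 1) →
    Ev D B g (w ++ v' ++ p ++ as) fs c →
    Ev D B (pRot k w.length g) (v' ++ p ++ w ++ as) fs c := by
  induction w using List.reverseRecOn with
  | nil => intro v' _ h; simpa [pRot] using h
  | append_singleton w x ih =>
    intro v' hk h
    have hk' := hk (by simp)
    simp only [List.length_append, List.length_cons, List.length_nil] at hk'
    have h1 : (v' ++ p ++ w).length = k := by simp; omega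
    have h2 := ih (x :: v') (by intro _; simp; omega) (by simpa using h)
    have h3 : Ev D B (pA (v' ++ p ++ w).length (pRot k w.length g))
        ((v' ++ p ++ w) ++ x :: as) fs c := by
      apply ev_S6a hB
      simpa using h2
    rw [h1] at h3
    simpa [pRot] using h3

def pPush (m : ℕ) (cont : ℕ) : ℕ → List ℕ → ℕ
  | _, [] => cont
  | j, r :: rs => pC (pPush m cont (j + 1) rs) (pRot (j + m - 1) m r)

theorem ev_push (hB : Bd B) {m cont : ℕ} {v as : List ℕ} (hv : v.length = m)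
    {fs : List (Set ℕ)} {c : ℕ} (rs : List ℕ) : ∀ (vals : List ℕ) (ps : List ℕ),
    List.Forall₂ (fun r x => ∀ as', Ev D B r (v ++ as') fs x) rs vals →
    Ev D B cont (vals.reverse ++ ps ++ v ++ as) fs c →
    Ev D B (pPush m cont ps.length rs) (ps ++ v ++ as) fs c := by
  induction rs with
  | nil =>
    intro vals ps h1 h2
    cases h1
    simpa [pPush] using h2
  | cons r rs ih =>
    intro vals ps h1 h2
    cases h1 with
    | cons h3 h4 =>
      rename_i x xs
      have h5 := ih xs (x :: ps) h4 (by simpa using h2)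
      simp only [pPush]
      refine ev_S4 hB (b := x) ?_ (by simpa using h5)
      have h6 := ev_rot (D := D) hB (k := ps.length + m - 1) (g := r) (p := ps) (as := as)
        (fs := fs) (c := x) v [] (by intro h; have := List.length_pos_of_ne_nil h; simp; omega)
        (by simpa using h3 (ps ++ as))
      rw [hv] at h6
      simpa using h6

/-! ### Primitive recursive functions -/

theorem exists_prim' {n : ℕ} {f : List.Vector ℕ n → ℕ} (hf : Nat.Primrec' f) :
    ∃ p : ℕ, ∀ (D : (Set ℕ → Set ℕ) → Set (Set ℕ)) (B : Ordinal.{0} → Prop), Bd B →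
      ∀ (v : List.Vector ℕ n) (as : List ℕ) (fs : List (Set ℕ)),
        Ev D B p (v.toList ++ as) fs (f v) := by
  induction hf with
  | zero => exact ⟨pK 0, fun D B hB v as fs => ev_S2 hB _ _ _⟩
  | succ =>
    refine ⟨pS, fun D B hB v as fs => ?_⟩
    have : v.toList ++ as = v.head :: as := by
      rw [← List.Vector.cons_head_tail v]; simp
    rw [this]
    exact ev_S1 hB _ _ _
  | @get n i =>
    refine ⟨pA i pHd, fun D B hB v as fs => ?_⟩
    have hlen : (i : ℕ) < v.toList.length := by simp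
    have h1 : v.toList ++ as = v.toList.take i ++ v.get i :: (v.toList.drop (i + 1) ++ as) := by
      have : v.get i = v.toList[(i : ℕ)] := by
        rw [List.Vector.get_eq_get_toList]; simp
      rw [this]
      have h0 : v.toList = v.toList.take i ++ v.toList[(i : ℕ)] :: v.toList.drop (i + 1) := by
        rw [← List.drop_eq_getElem_cons hlen, List.take_append_drop]
      conv_lhs => rw [h0]
      rw [List.append_assoc, List.cons_append]
    have h2 : (v.toList.take i).length = i := by simp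
    have h3 := ev_S6a (D := D) hB (g := pHd) (a := v.get i) (as := v.toList.take i)
      (as' := v.toList.drop (i + 1) ++ as) (fs := fs) (c := v.get i) (ev_S3 hB _ _ _)
    rw [h2, ← h1] at h3
    exact h3
  | @comp m n f g hf hg ihf ihg =>
    obtain ⟨pf, hpf⟩ := ihf
    choose q hq using ihg
    refine ⟨pPush m pf 0 (List.ofFn q).reverse, fun D B hB v as fs => ?_⟩
    have h := ev_push (D := D) hB (m := m) (cont := pf) (v := v.toList) (as := as) (by simp)
      (fs := fs) (c := f (List.Vector.ofFn fun i => g i v)) (List.ofFn q).reverse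
      (List.ofFn fun i => g i v).reverse [] ?_ ?_
    · simpa using h
    · rw [List.forall₂_reverse_iff, List.forall₂_iff_get]
      refine ⟨by simp, ?_⟩
      intro i h1 h2
      simp only [List.get_ofFn]
      exact fun as' => hq _ D B hB v as' fs
    · rw [List.reverse_reverse, List.append_nil, List.append_assoc]
      have := hpf D B hB (List.Vector.ofFn fun i => g i v) (v.toList ++ as) fs
      rwa [List.Vector.toList_ofFn] at this
  | @prec n f g hf hg ihf ihg =>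
    obtain ⟨pf, hpf⟩ := ihf
    obtain ⟨pg, hpg⟩ := ihg
    refine ⟨pR pf pg, fun D B hB v as fs => ?_⟩
    obtain ⟨a, v, rfl⟩ : ∃ a v', v = a ::ᵥ v' := ⟨v.head, v.tail, by simp⟩
    simp only [List.Vector.toList_cons, List.cons_append, List.Vector.head_cons,
      List.Vector.tail_cons]
    refine ev_S5 hB (F := fun a => Nat.rec (f v) (fun y IH => g (y ::ᵥ IH ::ᵥ v)) a) ?_ ?_ a
    · exact hpf D B hB v as fs
    · intro a
      have := hpg D B hB
        (a ::ᵥ (Nat.rec (f v) (fun y IH => g (y ::ᵥ IH ::ᵥ v)) a : ℕ) ::ᵥ v) as fs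
      simpa using this

end Pool.Agent.Helper80.NMI
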