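import Pool.Agent.Helper80.NMI.Prim

namespace Pool.Agent.Helper80.NMI

open Order Encodable

variable {D : (Set ℕ → Set ℕ) → Set (Set ℕ)} {B B' : Ordinal.{0} → Prop}

/-! ### Primitive recursive programs, typed -/

theorem exists_prim1 {g : ℕ → ℕ} (hg : Primrec g) :
    ∃ p : ℕ, ∀ (D : (Set ℕ → Set ℕ) → Set (Set ℕ)) (B : Ordinal.{0} → Prop), Bd B →
      ∀ (a : ℕ) (as : List ℕ) (fs : List (Set ℕ)), Ev D B p (a :: as) fs (g a) := by
  obtain ⟨p, hp⟩ := exists_prim' (Nat.Primrec'.prim_iff₁.2 hg)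
  exact ⟨p, fun D B hB a as fs => by simpa using hp D B hB (a ::ᵥ List.Vector.nil) as fs⟩

theorem exists_prim2 {g : ℕ → ℕ → ℕ} (hg : Primrec₂ g) :
    ∃ p : ℕ, ∀ (D : (Set ℕ → Set ℕ) → Set (Set ℕ)) (B : Ordinal.{0} → Prop), Bd B →
      ∀ (a b : ℕ) (as : List ℕ) (fs : List (Set ℕ)), Ev D B p (a :: b :: as) fs (g a b) := by
  obtain ⟨p, hp⟩ := exists_prim' (Nat.Primrec'.prim_iff₂.2 hg)
  exact ⟨p, fun D B hB a b as fs => by
    simpa using hp D B hB (a ::ᵥ b ::ᵥ List.Vector.nil) as fs⟩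

open Classical in
/-- A program for a primitive recursive function of one variable. -/
noncomputable def pr1 (g : ℕ → ℕ) : ℕ :=
  if hg : Primrec g then (exists_prim1 hg).choose else 0

theorem ev_pr1 (hB : Bd B) {g : ℕ → ℕ} (hg : Primrec g) (a : ℕ) (as : List ℕ)
    (fs : List (Set ℕ)) : Ev D B (pr1 g) (a :: as) fs (g a) := by
  unfold pr1
  rw [dif_pos hg]
  exact (exists_prim1 hg).choose_spec D B hB a as fs

open Classical in
/-- A program for a primitive recursive function of two variables. -/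
noncomputable def pr2 (g : ℕ → ℕ → ℕ) : ℕ :=
  if hg : Primrec₂ g then (exists_prim2 hg).choose else 0

theorem ev_pr2 (hB : Bd B) {g : ℕ → ℕ → ℕ} (hg : Primrec₂ g) (a b : ℕ) (as : List ℕ)
    (fs : List (Set ℕ)) : Ev D B (pr2 g) (a :: b :: as) fs (g a b) := by
  unfold pr2
  rw [dif_pos hg]
  exact (exists_prim2 hg).choose_spec D B hB a b as fs

/-! ### Programs in context -/

/-- `p` started on the coded number `a` in the environment `fs` of reals yields `c`, whatever
further number arguments there are. -/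
def Sem (D : (Set ℕ → Set ℕ) → Set (Set ℕ)) (B : Ordinal.{0} → Prop) (p a : ℕ)
    (fs : List (Set ℕ)) (c : ℕ) : Prop :=
  ∀ rest, Ev D B p (Nat.pair fs.length a :: rest) fs c

theorem Ev.mono (h : ∀ μ, B μ → B' μ) {e : ℕ} {as : List ℕ} {fs : List (Set ℕ)} {c : ℕ}
    (H : Ev D B e as fs c) : Ev D B' e as fs c := by
  obtain ⟨μ, h1, h2⟩ := H
  exact ⟨μ, h _ h1, h2⟩

theorem Sem.mono (h : ∀ μ, B μ → B' μ) {p a : ℕ} {fs : List (Set ℕ)} {c : ℕ}
    (H : Sem D B p a fs c) : Sem D B' p a fs c := fun rest => (H rest).mono h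

/-- constants -/
theorem sem_const (hB : Bd B) (q a : ℕ) (fs : List (Set ℕ)) : Sem D B (pK q) a fs q :=
  fun _ => ev_S2 hB _ _ _

/-- Run `p` on `f (L, a)`. -/
noncomputable def subst (f : ℕ → ℕ) (p : ℕ) : ℕ :=
  pC p (pr1 fun u => Nat.pair u.unpair.1 (f u))

theorem sem_subst (hB : Bd B) {f : ℕ → ℕ} (hf : Primrec f) {p a : ℕ} {fs : List (Set ℕ)}
    {c : ℕ} (h : Sem D B p (f (Nat.pair fs.length a)) fs c) : Sem D B (subst f p) a fs c := by
  intro rest
  refine ev_S4 hB (ev_pr1 hB (g := fun u => Nat.pair u.unpair.1 (f u)) ?_ _ _ _) ?_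
  · exact Primrec₂.natPair.comp (Primrec.fst.comp Primrec.unpair) hf
  · simpa using h (Nat.pair fs.length a :: rest)

/-- A primitive recursive function of `(L, a)`. -/
noncomputable def prim (f : ℕ → ℕ) : ℕ := pr1 f

theorem sem_prim (hB : Bd B) {f : ℕ → ℕ} (hf : Primrec f) (a : ℕ) (fs : List (Set ℕ)) :
    Sem D B (prim f) a fs (f (Nat.pair fs.length a)) := fun _ => ev_pr1 hB hf _ _ _

/-- Lazy case distinction. -/
noncomputable def ite' (t p q : ℕ) : ℕ := pC pU (pC (pr1 fun b => if b = 0 then q else p) t)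

theorem sem_ite (hB : Bd B) {t p q a : ℕ} {fs : List (Set ℕ)} {b c : ℕ}
    (ht : Sem D B t a fs b) (hp : b ≠ 0 → Sem D B p a fs c) (hq : b = 0 → Sem D B q a fs c) :
    Sem D B (ite' t p q) a fs c := by
  intro rest
  have hg : Primrec fun b : ℕ => if b = 0 then q else p :=
    Primrec.ite (Primrec.eq.comp Primrec.id (Primrec.const 0)) (Primrec.const _) (Primrec.const _)
  refine ev_S4 hB (ev_S4 hB (ht rest) (ev_pr1 hB hg _ _ _)) (ev_S9 hB ?_)
  by_cases hb : b = 0
  · simpa [hb] using hq hb rest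
  · simpa [hb] using hp hb rest

/-- The real at level `d` (counted from the end of the list). -/
def lvl (fs : List (Set ℕ)) (d : ℕ) : Set ℕ := fs.reverse.getD d ∅

theorem lvl_cons {f : Set ℕ} {fs : List (Set ℕ)} {d : ℕ} (h : d < fs.length) :
    lvl (f :: fs) d = lvl fs d := by
  unfold lvl
  rw [List.reverse_cons, List.getD_append _ _ _ _ (by simpa using h)]

theorem lvl_length (f : Set ℕ) (fs : List (Set ℕ)) : lvl (f :: fs) fs.length = f := by
  unfold lvl
  rw [List.reverse_cons, List.getD_append_right _ _ _ _ (by simp)]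
  simp

/-- Read: input `(d, i)`, output whether `i` belongs to the real at level `d`. -/
noncomputable def rd : ℕ :=
  pC (pC pU (pr2 fun _ u => pB (u.unpair.1 - 1 - u.unpair.2.unpair.1) pAp))
    (pr1 fun u => u.unpair.2.unpair.2)

theorem sem_rd (hB : Bd B) {d i : ℕ} {fs : List (Set ℕ)} (hd : d < fs.length) :
    Sem D B rd (Nat.pair d i) fs (chi (i ∈ lvl fs d)) := by
  intro rest
  have hg : Primrec₂ fun (_ u : ℕ) => pB (u.unpair.1 - 1 - u.unpair.2.unpair.1) pAp := by
    unfold pB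
    refine Primrec₂.natPair.comp (Primrec.const _) (Primrec₂.natPair.comp (Primrec.const _)
      (Primrec₂.natPair.comp ?_ (Primrec.const _)))
    refine Primrec.nat_sub.comp (Primrec.nat_sub.comp ?_ (Primrec.const _)) ?_
    · exact Primrec.fst.comp (Primrec.unpair.comp Primrec.snd)
    · exact Primrec.fst.comp (Primrec.unpair.comp (Primrec.snd.comp
        (Primrec.unpair.comp Primrec.snd)))
  have hg' : Primrec fun u : ℕ => u.unpair.2.unpair.2 :=
    Primrec.snd.comp (Primrec.unpair.comp (Primrec.snd.comp Primrec.unpair))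
  refine ev_S4 hB (ev_pr1 hB hg' _ _ _) (ev_S4 hB (ev_pr2 hB hg _ _ _ _) (ev_S9 hB ?_))
  simp only [Nat.unpair_pair]
  -- split `fs` at position `L - 1 - d`
  set k := fs.length - 1 - d with hk
  have hk' : k < fs.length := by omega
  have h0 : fs = fs.take k ++ fs[k] :: fs.drop (k + 1) := by
    rw [← List.drop_eq_getElem_cons hk', List.take_append_drop]
  have h1 : lvl fs d = fs[k] := by
    unfold lvl
    rw [List.getD_eq_getElem _ _ (by simpa using hd), List.getElem_reverse]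
  have h2 := ev_S6b (D := D) hB (g := pAp) (as := i :: Nat.pair fs.length (Nat.pair d i) :: rest)
    (f := fs[k]) (fs := fs.take k) (fs' := fs.drop (k + 1)) (c := chi (i ∈ fs[k]))
    (ev_S7 hB _ _ _ _)
  rw [← h0, List.length_take, min_eq_left hk'.le] at h2
  rw [h1]
  exact h2

/-- Application of `I`: input `(n, a)`; the functional is `F f = {m | p (m, a) ≠ 0}` with `f` as
new real. -/
noncomputable def ind (p : ℕ) : ℕ :=
  pC (pI (pC p (pr2 fun m u => Nat.pair (u.unpair.1 + 1) (Nat.pair m u.unpair.2.unpair.2))))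
    (pr1 fun u => u.unpair.2.unpair.1)

theorem sem_ind (hB : Bd B) (hB' : Bd B') (hs : SupTo B B') {p n a : ℕ} {fs : List (Set ℕ)}
    {G : Set ℕ → ℕ → ℕ}
    (H : ∀ f ∈ D (fun f => {m | G f m ≠ 0}), ∀ m, Sem D B p (Nat.pair m a) (f :: fs) (G f m)) :
    Sem D B' (ind p) (Nat.pair n a) fs (chi (n ∈ nmi (fun f => {m | G f m ≠ 0}))) := by
  intro rest
  have hg : Primrec₂ fun m u : ℕ => Nat.pair (u.unpair.1 + 1) (Nat.pair m u.unpair.2.unpair.2) := by
    refine Primrec₂.natPair.comp (Primrec.succ.comp (Primrec.fst.comp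
      (Primrec.unpair.comp Primrec.snd))) (Primrec₂.natPair.comp Primrec.fst ?_)
    exact Primrec.snd.comp (Primrec.unpair.comp (Primrec.snd.comp
        (Primrec.unpair.comp Primrec.snd)))
  have hg' : Primrec fun u : ℕ => u.unpair.2.unpair.1 :=
    Primrec.fst.comp (Primrec.unpair.comp (Primrec.snd.comp Primrec.unpair))
  refine ev_S4 hB' (ev_pr1 hB' hg' _ _ _) ?_
  simp only [Nat.unpair_pair]
  refine ev_S8 hs fun f hf m => ?_
  refine ev_S4 hB (ev_pr2 hB hg _ _ _ _) ?_
  simp only [Nat.unpair_pair]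
  exact H f hf m _

/-- Existential number quantifier: `∃ m, p (m, a) ≠ 0`. -/
noncomputable def ex (p : ℕ) : ℕ :=
  pC (pI (pC pU (pC (pr1 fun b => if b = 0 then pC pAp pS else pK 1)
    (pC p (pr2 fun m u => Nat.pair (u.unpair.1 + 1) (Nat.pair m u.unpair.2)))))) (pK 0)

theorem nmi_ex (b : ℕ → ℕ) :
    0 ∈ nmi (fun f => {m | (if b m = 0 then chi (m + 1 ∈ f) else 1) ≠ 0}) ↔ ∃ m, b m ≠ 0 := by
  set F : Set ℕ → Set ℕ := fun f => {m | (if b m = 0 then chi (m + 1 ∈ f) else 1) ≠ 0} with hF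
  have hmem : ∀ f m, m ∈ F f ↔ (b m ≠ 0 ∨ m + 1 ∈ f) := by
    intro f m
    simp only [hF, Set.mem_ofPred_eq]
    by_cases hb : b m = 0
    · by_cases hm : m + 1 ∈ f <;> simp [hb, hm, chi]
    · simp [hb]
  constructor
  · intro h
    have : nmi F ⊆ {m | ∃ n, m ≤ n ∧ b n ≠ 0} := by
      apply nmi_subset_of
      intro X hX m hm
      rcases (hmem X m).1 hm with h | h
      · exact ⟨m, le_rfl, h⟩
      · obtain ⟨n, h1, h2⟩ := hX h
        exact ⟨n, by omega, h2⟩
    obtain ⟨n, -, h⟩ := this h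
    exact ⟨n, h⟩
  · rintro ⟨n, hn⟩
    have hcl := nmi_closed F
    have : ∀ k, k ≤ n → n - k ∈ nmi F := by
      intro k
      induction k with
      | zero => intro _; exact hcl ((hmem _ _).2 (Or.inl (by simpa using hn)))
      | succ k ih =>
        intro hk
        refine hcl ((hmem _ _).2 (Or.inr ?_))
        have : n - (k + 1) + 1 = n - k := by omega
        rw [this]
        exact ih (by omega)
    simpa using this n le_rfl

theorem sem_ex (hB : Bd B) (hB' : Bd B') (hs : SupTo B B') {p a : ℕ} {fs : List (Set ℕ)}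
    {b : ℕ → ℕ} (H : ∀ f m, Sem D B p (Nat.pair m a) (f :: fs) (b m)) :
    Sem D B' (ex p) a fs (chi (∃ m, b m ≠ 0)) := by
  intro rest
  rw [← nmi_ex]
  refine ev_S4 hB' (ev_S2 hB' 0 _ _) (ev_S8 hs fun f _ m => ?_)
  have hg : Primrec₂ fun m u : ℕ => Nat.pair (u.unpair.1 + 1) (Nat.pair m u.unpair.2) := by
    refine Primrec₂.natPair.comp (Primrec.succ.comp (Primrec.fst.comp
      (Primrec.unpair.comp Primrec.snd))) (Primrec₂.natPair.comp Primrec.fst ?_)
    exact Primrec.snd.comp (Primrec.unpair.comp Primrec.snd)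
  have hg' : Primrec fun b : ℕ => if b = 0 then pC pAp pS else pK 1 :=
    Primrec.ite (Primrec.eq.comp Primrec.id (Primrec.const 0)) (Primrec.const _) (Primrec.const _)
  refine ev_S4 hB (ev_S4 hB (ev_S4 hB (ev_pr2 hB hg _ _ _ _) ?_) (ev_pr1 hB hg' (b m) _ _))
    (ev_S9 hB ?_)
  · simp only [Nat.unpair_pair]
    exact H f m _
  · by_cases hb : b m = 0
    · simp only [hb, if_true]
      exact ev_S4 hB (ev_S1 hB _ _ _) (ev_S7 hB _ _ _ _)
    · simp only [hb, if_false]
      exact ev_S2 hB _ _ _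

/-- Call of a computed index: input `(z, a)`. -/
noncomputable def call : ℕ :=
  pC (pC pU (pr2 fun _ u => u.unpair.2.unpair.1))
    (pr1 fun u => Nat.pair u.unpair.1 u.unpair.2.unpair.2)

theorem sem_call (hB : Bd B) {z a : ℕ} {fs : List (Set ℕ)} {c : ℕ} (h : Sem D B z a fs c) :
    Sem D B call (Nat.pair z a) fs c := by
  intro rest
  have hg' : Primrec fun u : ℕ => Nat.pair u.unpair.1 u.unpair.2.unpair.2 :=
    Primrec₂.natPair.comp (Primrec.fst.comp Primrec.unpair) (Primrec.snd.comp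
      (Primrec.unpair.comp (Primrec.snd.comp Primrec.unpair)))
  have hg : Primrec₂ fun _ u : ℕ => u.unpair.2.unpair.1 :=
    Primrec.fst.comp (Primrec.unpair.comp (Primrec.snd.comp (Primrec.unpair.comp Primrec.snd)))
  refine ev_S4 hB (ev_pr1 hB hg' _ _ _) (ev_S4 hB (ev_pr2 hB hg _ _ _ _) (ev_S9 hB ?_))
  simp only [Nat.unpair_pair]
  exact h _

/-- The recursion theorem: `fix p` on `a` behaves as `p` on `(fix p, a)`. -/
noncomputable def fixAux (p : ℕ) : ℕ :=
  pC p (pr2 fun y u => Nat.pair u.unpair.1 (Nat.pair (pC y (pK y)) u.unpair.2))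

noncomputable def fix (p : ℕ) : ℕ := pC (fixAux p) (pK (fixAux p))

theorem sem_fix (hB : Bd B) {p a : ℕ} {fs : List (Set ℕ)} {c : ℕ}
    (h : Sem D B p (Nat.pair (fix p) a) fs c) : Sem D B (fix p) a fs c := by
  intro rest
  have hg : Primrec₂ fun y u : ℕ =>
      Nat.pair u.unpair.1 (Nat.pair (pC y (pK y)) u.unpair.2) := by
    unfold pC pK
    refine Primrec₂.natPair.comp (Primrec.fst.comp (Primrec.unpair.comp Primrec.snd))
      (Primrec₂.natPair.comp (Primrec₂.natPair.comp (Primrec.const _)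
        (Primrec₂.natPair.comp Primrec.fst (Primrec₂.natPair.comp (Primrec.const _) Primrec.fst)))
        (Primrec.snd.comp (Primrec.unpair.comp Primrec.snd)))
  refine ev_S4 hB (ev_S2 hB (fixAux p) _ _) (ev_S4 hB (ev_pr2 hB hg _ _ _ _) ?_)
  simp only [Nat.unpair_pair]
  exact h _

end Pool.Agent.Helper80.NMI
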