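import Pool.Agent.Helper80.NMI.Cert

namespace Pool.Agent.Helper80.NMI

open Order Encodable

/-! ### Canonical functional of a partial family of values -/

open Classical in
noncomputable def G0 (V : Set ℕ → ℕ → ℕ → Prop) (f : Set ℕ) (m : ℕ) : ℕ :=
  if h : ∃ b, V f m b then h.choose else 0

theorem G0_spec {V : Set ℕ → ℕ → ℕ → Prop} {f : Set ℕ} {m : ℕ} (h : ∃ b, V f m b) :
    V f m (G0 V f m) := by
  simp only [G0, dif_pos h]
  exact h.choose_spec

theorem G0_eq {V : Set ℕ → ℕ → ℕ → Prop} (hV : ∀ f m b b', V f m b → V f m b' → b = b')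
    {f : Set ℕ} {m b : ℕ} (h : V f m b) : G0 V f m = b :=
  hV _ _ _ _ (G0_spec ⟨b, h⟩) h

def F0 (V : Set ℕ → ℕ → ℕ → Prop) (f : Set ℕ) : Set ℕ := {m | G0 V f m ≠ 0}

/-- The values of `{h}(I, m, a⃗, f, f⃗)`. -/
def VV (h : ℕ) (as : List ℕ) (fs : List (Set ℕ)) (f : Set ℕ) (m b : ℕ) : Prop :=
  Conv usedReals h (m :: as) (f :: fs) b

theorem VV_unique {h : ℕ} {as : List ℕ} {fs : List (Set ℕ)} (f : Set ℕ) (m b b' : ℕ)
    (h1 : VV h as fs f m b) (h2 : VV h as fs f m b') : b = b' := by
  obtain ⟨_, h1⟩ := h1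
  obtain ⟨_, h2⟩ := h2
  exact stage_unique good_used h1 h2

theorem bd_true : Bd (fun _ : Ordinal.{0} => True) := ladder_true.bd 0

theorem conv_iff_ev {D : (Set ℕ → Set ℕ) → Set (Set ℕ)} {e : ℕ} {as : List ℕ}
    {fs : List (Set ℕ)} {c : ℕ} : Conv D e as fs c ↔ Ev D (fun _ => True) e as fs c := by
  simp [Conv, Ev]

/-- `Clause` applied to `Conv` gives `Conv`. -/
theorem conv_of_clause {D : (Set ℕ → Set ℕ) → Set (Set ℕ)} {e : ℕ} {as : List ℕ}
    {fs : List (Set ℕ)} {c : ℕ} (H : Clause D (Conv D) e as fs c) : Conv D e as fs c := by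
  have hB := bd_true
  rw [conv_iff_ev]
  cases H with
  | S1 a as fs => exact ev_S1 hB _ _ _
  | S2 q as fs => exact ev_S2 hB _ _ _
  | S3 a as fs => exact ev_S3 hB _ _ _
  | S4 g h as fs b c h1 h2 => exact ev_S4 hB (conv_iff_ev.1 h1) (conv_iff_ev.1 h2)
  | S5z g h as fs c h1 => exact ev_one hB (conv_iff_ev.1 h1) fun _ h3 => .S5z _ _ _ _ _ h3
  | S5s g h a as fs b c h1 h2 =>
    exact ev_two hB (conv_iff_ev.1 h1) (conv_iff_ev.1 h2) fun _ h3 h4 =>
      .S5s _ _ _ _ _ _ _ h3 h4
  | S6a g a as as' fs c h1 => exact ev_S6a hB (conv_iff_ev.1 h1)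
  | S6b g as f fs fs' c h1 => exact ev_S6b hB (conv_iff_ev.1 h1)
  | S7 a as f fs => exact ev_S7 hB _ _ _ _
  | S8 h n as fs G h1 => exact ev_S8 supTo_true fun f hf m => conv_iff_ev.1 (h1 f hf m)
  | S9 e as as' fs fs' c h1 => exact ev_one hB (conv_iff_ev.1 h1) fun _ h3 => .S9 _ _ _ _ _ _ h3

/-! ### Soundness -/

/-- `f` is one of the stages of the induction given by `h`, and all earlier values are defined. -/
def Reach (h : ℕ) (as : List ℕ) (fs : List (Set ℕ)) (f : Set ℕ) : Prop :=
  ∃ β, f = iter (F0 (VV h as fs)) β ∧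
    ∀ γ < β, ∀ m, ∃ b, VV h as fs (iter (F0 (VV h as fs)) γ) m b

def Truth (g : Set ℕ) (x : ℕ × T4) : Prop :=
  (x.1 = 0 ∧ Conv usedReals x.2.1 x.2.2.1 (x.2.2.2.1.map (sec g)) x.2.2.2.2) ∨
  (x.1 = 1 ∧ Reach x.2.1 x.2.2.1 (x.2.2.2.1.map (sec g)) (sec g x.2.2.2.2))

theorem iter_iSup (F : Set ℕ → Set ℕ) {ι : Type} (β : ι → Ordinal.{0}) :
    iter F (⨆ i, β i) = ⋃ i, iter F (β i) := by
  ext x
  rw [mem_iter, Set.mem_iUnion]
  constructor
  · rintro ⟨γ, h1, h2⟩
    rw [Ordinal.lt_iSup_iff] at h1
    obtain ⟨i, hi⟩ := h1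
    exact ⟨i, (mem_iter _ _ _).2 ⟨γ, hi, h2⟩⟩
  · rintro ⟨i, hi⟩
    obtain ⟨γ, h1, h2⟩ := (mem_iter _ _ _).1 hi
    exact ⟨γ, h1.trans_le (Ordinal.le_iSup β i), h2⟩

theorem Gam5_sound {g X : Set ℕ} (hX : ∀ x : ℕ × T4, encode x ∈ X → Truth g x) {x : ℕ × T4}
    (H : Gam5 X g x) : Truth g x := by
  have hC : ∀ {e as pos c}, Xh X (e, as, pos, c) → Conv usedReals e as (pos.map (sec g)) c := by
    intro e as pos c h
    rcases hX _ h with ⟨-, h1⟩ | ⟨h1, -⟩
    · exact h1
    · simp at h1
  have hQ : ∀ {h as pos i}, Qh X (h, as, pos, i) →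
      Reach h as (pos.map (sec g)) (sec g i) := by
    intro e as pos c h
    rcases hX _ h with ⟨h1, -⟩ | ⟨-, h1⟩
    · simp at h1
    · exact h1
  obtain ⟨tag, e, as, pos, c⟩ := x
  rcases H with ⟨h0, H⟩ | ⟨h0, H⟩
  · left
    refine ⟨h0, ?_⟩
    simp only at h0 H ⊢
    apply conv_of_clause
    rw [clause_iff]
    unfold Fcl
    rcases H with H | H | H | ⟨h1, b, h2, h3⟩ | ⟨h1, h2, h3, h4⟩ | ⟨h1, h2, h3, b, h4, h5⟩ |
      ⟨h1, h2, h3, h4⟩ | ⟨h1, h2, h3, h4⟩ | ⟨h1, h2, h3, h4⟩ | ⟨h1, h2, i, h3, h4, h5⟩ |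
      ⟨h1, h2, h3, h4, h5⟩
    · left; exact H
    · right; left; exact H
    · right; right; left; exact H
    · right; right; right; left
      exact ⟨h1, b, hC h2, hC h3⟩
    · right; right; right; right; left
      exact ⟨h1, h2, h3, hC h4⟩
    · right; right; right; right; right; left
      exact ⟨h1, h2, h3, b, hC h4, hC h5⟩
    · right; right; right; right; right; right; left
      exact ⟨h1, h2, h3, hC h4⟩
    · right; right; right; right; right; right; right; left
      refine ⟨h1, h2, by simpa using h3, ?_⟩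
      have := hC h4
      simpa only [front_map] using this
    · right; right; right; right; right; right; right; right; left
      refine ⟨h1, h2, by simpa using h3, ?_⟩
      obtain ⟨p, ps, rfl⟩ := List.exists_cons_of_length_pos h3
      simpa [sec] using h4
    · right; right; right; right; right; right; right; right; right; left
      obtain ⟨β, hβ, htot⟩ := hQ h3
      set V := VV e.unpair.2 as.tail (pos.map (sec g)) with hVdef
      have hlast : ∀ m, ∃ b, V (iter (F0 V) β) m b ∧ (b ≠ 0 → m ∈ iter (F0 V) β) := by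
        intro m
        obtain ⟨b, hb1, hb2⟩ := h4 m
        refine ⟨b, ?_, ?_⟩
        · have := hC hb1
          rw [List.map_cons, hβ] at this
          exact this
        · intro hb
          have := hb2 hb
          have h6 : m ∈ sec g i := this
          rwa [hβ] at h6
      have hcl : F0 V (iter (F0 V) β) ⊆ iter (F0 V) β := by
        intro m hm
        obtain ⟨b, hb1, hb2⟩ := hlast m
        apply hb2
        have h6 := G0_eq (V := V) VV_unique hb1
        rw [← h6]
        exact hm
      refine ⟨h1, h2, G0 V, ?_, ?_⟩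
      · rintro f ⟨γ, hγ, rfl⟩ m
        have hγ' : γ ≤ β := hγ.trans (closureOrd_le' hcl)
        rcases eq_or_lt_of_le hγ' with h6 | h6
        · rw [h6]
          obtain ⟨b, hb1, hb2⟩ := hlast m
          exact G0_spec (V := V) ⟨b, hb1⟩
        · exact G0_spec (V := V) (htot γ h6 m)
      · have h7 : nmi (fun f => {m | G0 V f m ≠ 0}) = iter (F0 V) β := nmi_eq hcl
        rw [h7, ← hβ]
        exact h5
    · right; right; right; right; right; right; right; right; right; right
      refine ⟨h1, h2, h3, by simpa using h4, ?_⟩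
      have := hC h5
      simpa [List.map_take] using this
  · right
    refine ⟨h0, ?_⟩
    simp only at h0 H ⊢
    rcases H with ⟨j, h1, h2⟩ | H
    · simp only at h1 h2
      obtain ⟨β, hβ, htot⟩ := hQ h1
      set V := VV e as (pos.map (sec g)) with hVdef
      have hval : ∀ m, ∃ b, V (iter (F0 V) β) m b ∧
          (m ∈ sec g c ↔ (m ∈ iter (F0 V) β ∨ b ≠ 0)) := by
        intro m
        obtain ⟨b, hb1, hb2⟩ := h2 m
        refine ⟨b, ?_, ?_⟩
        · have := hC hb1
          rw [List.map_cons, hβ] at this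
          exact this
        · rw [← hβ]
          exact hb2
      refine ⟨β + 1, ?_, ?_⟩
      · rw [iter_succ]
        ext m
        obtain ⟨b, hb1, hb2⟩ := hval m
        rw [hb2, Set.mem_union]
        have h6 := G0_eq (V := V) VV_unique hb1
        have h7 : m ∈ F0 V (iter (F0 V) β) ↔ b ≠ 0 := by
          change G0 V (iter (F0 V) β) m ≠ 0 ↔ b ≠ 0
          rw [h6]
        rw [h7]
      · intro γ hγ m
        rcases eq_or_lt_of_le (Order.lt_add_one_iff.1 hγ) with rfl | h6
        · obtain ⟨b, hb1, -⟩ := hval m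
          exact ⟨b, hb1⟩
        · exact htot γ h6 m
    · simp only at H
      set V := VV e as (pos.map (sec g)) with hVdef
      have H' : ∀ m : sec g c, ∃ β, m.1 ∈ iter (F0 V) β ∧ iter (F0 V) β ⊆ sec g c ∧
          ∀ γ < β, ∀ m', ∃ b, V (iter (F0 V) γ) m' b := by
        rintro ⟨m, hm⟩
        obtain ⟨j, h1, h2, h3⟩ := H m hm
        obtain ⟨β, hβ, htot⟩ := hQ h1
        refine ⟨β, ?_, ?_, htot⟩
        · rw [← hβ]; exact h2
        · rw [← hβ]; exact fun m' hm' => h3 m' hm'
      choose β hβ1 hβ2 hβ3 using H'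
      refine ⟨⨆ m, β m, ?_, ?_⟩
      · rw [iter_iSup]
        ext m
        rw [Set.mem_iUnion]
        constructor
        · intro hm
          exact ⟨⟨m, hm⟩, hβ1 ⟨m, hm⟩⟩
        · rintro ⟨i, hi⟩
          exact hβ2 i hi
      · intro γ hγ m
        rw [Ordinal.lt_iSup_iff] at hγ
        obtain ⟨i, hi⟩ := hγ
        exact hβ3 i γ hi m

theorem ZZ_sound {g : Set ℕ} {x : ℕ × T4} (h : encode x ∈ ZZ g) : Truth g x := by
  have key : ZZ g ⊆ {n | Truth g (dec5 n)} := by
    apply nmi_subset_of
    intro X hX n hn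
    refine Gam5_sound (X := X) ?_ hn
    intro x hx
    have := hX hx
    simp only [Set.mem_ofPred_eq, dec5_encode] at this
    exact this
  have := key h
  simpa only [Set.mem_ofPred_eq, dec5_encode] using this

/-! ### Completeness -/

/-- The family coded by `g` contains all stages it should. -/
def Full (g : Set ℕ) : Prop :=
  ∀ (h : ℕ) (as : List ℕ) (pos : List ℕ), ∀ β ≤ closureOrd (F0 (VV h as (pos.map (sec g)))),
    ∃ i, sec g i = iter (F0 (VV h as (pos.map (sec g)))) β

theorem ZZ_closed {g : Set ℕ} {x : ℕ × T4} (h : Gam5 (ZZ g) g x) : encode x ∈ ZZ g := by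
  apply nmi_closed (Gop g)
  change Gam5 (nmi (Gop g)) g (dec5 (encode x))
  rw [dec5_encode]
  exact h

theorem ZZ_complete {g : Set ℕ} (hg : Full g) {μ : Ordinal.{0}} {e : ℕ} {as pos : List ℕ}
    {c : ℕ} (H : Stage usedReals μ e as (pos.map (sec g)) c) : Xh (ZZ g) (e, as, pos, c) := by
  induction μ using WellFoundedLT.induction generalizing e as pos c with
  | ind μ ih =>
    have ih' : ∀ {e as pos c}, Before usedReals μ e as (pos.map (sec g)) c →
        Xh (ZZ g) (e, as, pos, c) := by
      rintro e as pos c ⟨ν, h1, h2⟩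
      exact ih ν h1 h2
    rw [stage_iff', clause_iff] at H
    apply ZZ_closed
    left
    refine ⟨rfl, ?_⟩
    unfold GamC
    simp only
    rcases H with H | H | H | ⟨h1, b, h2, h3⟩ | ⟨h1, h2, h3, h4⟩ | ⟨h1, h2, h3, b, h4, h5⟩ |
      ⟨h1, h2, h3, h4⟩ | ⟨h1, h2, h3, h4⟩ | ⟨h1, h2, h3, h4⟩ | ⟨h1, h2, G, h3, h4⟩ |
      ⟨h1, h2, h3, h4, h5⟩
    · left; exact H
    · right; left; exact H
    · right; right; left; exact H
    · right; right; right; left
      exact ⟨h1, b, ih' h2, ih' h3⟩
    · right; right; right; right; left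
      exact ⟨h1, h2, h3, ih' h4⟩
    · right; right; right; right; right; left
      exact ⟨h1, h2, h3, b, ih' h4, ih' h5⟩
    · right; right; right; right; right; right; left
      exact ⟨h1, h2, h3, ih' h4⟩
    · right; right; right; right; right; right; right; left
      refine ⟨h1, h2, by simpa using h3, ?_⟩
      apply ih'
      rw [front_map]
      exact h4
    · right; right; right; right; right; right; right; right; left
      have h3' : 0 < pos.length := by simpa using h3
      refine ⟨h1, h2, h3', ?_⟩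
      obtain ⟨p, ps, rfl⟩ := List.exists_cons_of_length_pos h3'
      simpa [sec] using h4
    · right; right; right; right; right; right; right; right; right; left
      refine ⟨h1, h2, ?_⟩
      set V := VV e.unpair.2 as.tail (pos.map (sec g)) with hVdef
      set FG : Set ℕ → Set ℕ := fun f => {m | G f m ≠ 0} with hFG
      -- the functional given by `G` agrees with the canonical one
      have hagree : ∀ f ∈ usedReals FG, F0 V f = FG f := by
        intro f hf
        ext m
        obtain ⟨ν, -, h6⟩ := h3 f hf m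
        have h7 : V f m (G f m) := ⟨ν, h6⟩
        have h8 := G0_eq (V := V) VV_unique h7
        unfold F0
        rw [Set.mem_ofPred_eq, h8]
        rfl
      have hiter : ∀ β ≤ closureOrd FG, iter (F0 V) β = iter FG β := by
        intro β hβ
        refine iter_congr ?_ hβ
        intro γ hγ heq
        rw [heq]
        exact hagree _ ⟨γ, hγ.le, rfl⟩
      have hnmi : nmi (F0 V) = nmi FG := by
        have h6 : F0 V (iter (F0 V) (closureOrd FG)) ⊆ iter (F0 V) (closureOrd FG) := by
          rw [hiter _ le_rfl, hagree _ ⟨_, le_rfl, rfl⟩]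
          exact nmi_closed_iter FG
        rw [nmi_eq h6]
        exact hiter _ le_rfl
      have hclos : closureOrd FG ≤ closureOrd (F0 V) := by
        by_contra hlt
        rw [not_le] at hlt
        have h6 := nmi_closed_iter (F0 V)
        rw [hiter _ hlt.le, hagree _ ⟨_, hlt.le, rfl⟩] at h6
        exact absurd (closureOrd_le' h6) (not_le.2 hlt)
      -- all stages are reached
      have hreach : ∀ β ≤ closureOrd FG, ∀ i, sec g i = iter FG β →
          Qh (ZZ g) (e.unpair.2, as.tail, pos, i) := by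
        intro β
        induction β using Ordinal.limitRecOn with
        | zero =>
          intro _ i hi
          apply ZZ_closed
          right
          refine ⟨rfl, Or.inr ?_⟩
          intro m hm
          have : m ∈ sec g i := hm
          rw [hi, iter_zero] at this
          exact absurd this (Set.notMem_empty _)
        | add_one γ ih2 =>
          intro hβ i hi
          have hγ : γ ≤ closureOrd FG := (Order.lt_add_one_iff.2 le_rfl).le.trans hβ
          obtain ⟨j, hj⟩ := hg e.unpair.2 as.tail pos γ (hγ.trans hclos)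
          rw [hiter _ hγ] at hj
          apply ZZ_closed
          right
          refine ⟨rfl, Or.inl ⟨j, ih2 hγ j hj, ?_⟩⟩
          intro m
          have h6 := h3 (iter FG γ) ⟨γ, hγ, rfl⟩ m
          rw [← hj] at h6
          refine ⟨G (sec g j) m, ih' (pos := j :: pos) h6, ?_⟩
          have h7 : m ∈ sec g i ↔ (m ∈ sec g j ∨ G (sec g j) m ≠ 0) := by
            rw [hi, iter_succ, ← hj]
            exact Iff.rfl
          exact h7
        | limit β hlim ih2 =>
          intro hβ i hi
          apply ZZ_closed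
          right
          refine ⟨rfl, Or.inr ?_⟩
          intro m hm
          have h6 : m ∈ sec g i := hm
          rw [hi, iter_limit _ hlim, Set.mem_iUnion] at h6
          obtain ⟨⟨γ, hγ⟩, h7⟩ := h6
          have hγ' : γ < β := hγ
          have hγ'' : γ ≤ closureOrd FG := hγ'.le.trans hβ
          obtain ⟨j, hj⟩ := hg e.unpair.2 as.tail pos γ (hγ''.trans hclos)
          rw [hiter _ hγ''] at hj
          refine ⟨j, ih2 γ hγ' hγ'' j hj, ?_, ?_⟩
          · have : m ∈ sec g j := by rw [hj]; exact h7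
            exact this
          · intro m' hm'
            have h8 : m' ∈ sec g j := hm'
            rw [hj] at h8
            have h9 : m' ∈ sec g i := by
              rw [hi]
              exact iter_mono FG hγ'.le h8
            exact h9
      obtain ⟨i, hi⟩ := hg e.unpair.2 as.tail pos (closureOrd FG) hclos
      rw [hiter _ le_rfl] at hi
      refine ⟨i, hreach _ le_rfl i hi, ?_, ?_⟩
      · intro m
        have h6 := h3 (iter FG (closureOrd FG)) ⟨_, le_rfl, rfl⟩ m
        rw [← hi] at h6
        refine ⟨G (sec g i) m, ih' (pos := i :: pos) h6, ?_⟩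
        intro h7
        have h8 : m ∈ sec g i := by
          rw [hi]
          apply nmi_closed_iter FG
          rw [← hi]
          exact h7
        exact h8
      · have h6 : nmi FG = sec g i := hi.symm
        rw [h4, h6]
        rfl
    · right; right; right; right; right; right; right; right; right; right
      refine ⟨h1, h2, h3, by simpa using h4, ?_⟩
      apply ih'
      simpa [List.map_take] using h5

/-! ### Existence of a allReals family -/

theorem countable_used (F : Set ℕ → Set ℕ) : (usedReals F).Countable := by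
  classical
  have hne : ∀ β : Set.Iio (closureOrd F), ∃ m, m ∈ iter F (β.1 + 1) ∧ m ∉ iter F β.1 := by
    rintro ⟨β, hβ⟩
    by_contra hn
    push Not at hn
    have h1 : iter F β = iter F (β + 1) := by
      apply le_antisymm
      · exact iter_mono F (Order.lt_add_one_iff.2 le_rfl).le
      · exact fun m hm => hn m hm
    exact absurd (closureOrd_le h1) (not_le.2 hβ)
  choose φ hφ1 hφ2 using hne
  have hinj : Function.Injective φ := by
    have key : ∀ β γ : Set.Iio (closureOrd F), β.1 < γ.1 → φ β ≠ φ γ := by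
      intro β γ h heq
      apply hφ2 γ
      rw [← heq]
      exact iter_mono F (Order.add_one_le_of_lt h) (hφ1 β)
    intro β γ h
    by_contra hne
    have hne' : β.1 ≠ γ.1 := fun h' => hne (Subtype.ext h')
    rcases lt_or_gt_of_ne hne' with h' | h'
    · exact key _ _ h' h
    · exact key _ _ h' h.symm
  have hc : Countable (Set.Iio (closureOrd F)) := hinj.countable
  have hc' : (Set.Iic (closureOrd F)).Countable := by
    have : Set.Iic (closureOrd F) = insert (closureOrd F) (Set.Iio (closureOrd F)) := by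
      ext x
      simp [le_iff_eq_or_lt]
    rw [this]
    exact Set.Countable.insert _ hc
  have : usedReals F = iter F '' Set.Iic (closureOrd F) := by
    ext f
    simp only [usedReals, Set.mem_ofPred_eq, Set.mem_image, Set.mem_Iic]
    constructor
    · rintro ⟨β, h1, rfl⟩; exact ⟨β, h1, rfl⟩
    · rintro ⟨β, h1, rfl⟩; exact ⟨β, h1, rfl⟩
  rw [this]
  exact hc'.image _

theorem countable_lists {δ : Type} {S : Set δ} (hS : S.Countable) :
    {l : List δ | ∀ x ∈ l, x ∈ S}.Countable := by
  have hc : Countable S := hS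
  have : {l : List δ | ∀ x ∈ l, x ∈ S} ⊆ Set.range (fun l : List S => l.map Subtype.val) := by
    intro l hl
    refine ⟨l.attach.map (fun x => ⟨x.1, hl x.1 x.2⟩), ?_⟩
    simp
  exact (Set.countable_range _).mono this

def grow (S : Set (Set ℕ)) : Set (Set ℕ) :=
  S ∪ ⋃ x ∈ {x : ℕ × List ℕ × List (Set ℕ) | ∀ f ∈ x.2.2, f ∈ S},
    usedReals (F0 (VV x.1 x.2.1 x.2.2))

theorem countable_grow {S : Set (Set ℕ)} (hS : S.Countable) : (grow S).Countable := by
  refine hS.union (Set.Countable.biUnion ?_ fun _ _ => countable_used _)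
  have h1 : {x : ℕ × List ℕ × List (Set ℕ) | ∀ f ∈ x.2.2, f ∈ S} ⊆
      (Set.univ : Set ℕ) ×ˢ ((Set.univ : Set (List ℕ)) ×ˢ {l | ∀ f ∈ l, f ∈ S}) := by
    rintro ⟨h, as, fs⟩ hx
    exact ⟨trivial, trivial, hx⟩
  exact ((Set.to_countable _).prod ((Set.to_countable _).prod (countable_lists hS))).mono h1

def growN : ℕ → Set (Set ℕ)
  | 0 => {∅}
  | n + 1 => grow (growN n)

theorem countable_growN (n : ℕ) : (growN n).Countable := by
  induction n with
  | zero => exact Set.countable_singleton _
  | succ n ih => exact countable_grow ih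

theorem growN_mono {m n : ℕ} (h : m ≤ n) : growN m ⊆ growN n := by
  induction h with
  | refl => exact le_rfl
  | step _ ih => exact ih.trans Set.subset_union_left

theorem exists_full : ∃ g : Set ℕ, Full g := by
  classical
  set S : Set (Set ℕ) := ⋃ n, growN n with hS
  have hSc : S.Countable := Set.countable_iUnion countable_growN
  have hSn : S.Nonempty := ⟨∅, Set.mem_iUnion.2 ⟨0, rfl⟩⟩
  obtain ⟨φ, hφ⟩ := hSc.exists_eq_range hSn
  let g : Set ℕ := {x | x.unpair.2 ∈ φ x.unpair.1}
  have hsec : ∀ i, sec g i = φ i := by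
    intro i
    ext n
    simp [sec, g]
  refine ⟨g, ?_⟩
  intro h as pos β hβ
  have hpos : ∀ f ∈ pos.map (sec g), f ∈ S := by
    intro f hf
    rw [List.mem_map] at hf
    obtain ⟨i, -, rfl⟩ := hf
    rw [hsec, hφ]
    exact ⟨i, rfl⟩
  -- all entries lie in one `growN n`
  have hn : ∀ l : List (Set ℕ), (∀ f ∈ l, f ∈ S) → ∃ n, ∀ f ∈ l, f ∈ growN n := by
    intro l
    induction l with
    | nil => intro _; exact ⟨0, by simp⟩
    | cons f l ih =>
      intro hl
      obtain ⟨n, hn⟩ := ih fun f' hf' => hl f' (List.mem_cons_of_mem _ hf')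
      obtain ⟨m, hm⟩ := Set.mem_iUnion.1 (hl f List.mem_cons_self)
      refine ⟨max m n, ?_⟩
      intro f' hf'
      rw [List.mem_cons] at hf'
      rcases hf' with rfl | hf'
      · exact growN_mono (le_max_left _ _) hm
      · exact growN_mono (le_max_right _ _) (hn f' hf')
  obtain ⟨n, hn⟩ := hn _ hpos
  have h1 : iter (F0 (VV h as (pos.map (sec g)))) β ∈ growN (n + 1) := by
    right
    simp only [Set.mem_iUnion]
    exact ⟨(h, as, pos.map (sec g)), hn, ⟨β, hβ, rfl⟩⟩
  have h2 : iter (F0 (VV h as (pos.map (sec g)))) β ∈ S := Set.mem_iUnion.2 ⟨n + 1, h1⟩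
  rw [hφ] at h2
  obtain ⟨i, hi⟩ := h2
  exact ⟨i, by rw [hsec]; exact hi⟩

end Pool.Agent.Helper80.NMI
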