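import Pool.Agent.Helper80.NMI.Op

namespace Pool.Agent.Helper80.NMI

open Order Encodable

/-- Move the `k`-th entry of a list to the front. -/
def front {δ : Type*} (k : ℕ) (l : List δ) : List δ :=
  (l.drop k).take 1 ++ (l.take k ++ l.drop (k + 1))

theorem front_append {δ : Type*} (l₁ l₂ : List δ) (x : δ) :
    front l₁.length (l₁ ++ x :: l₂) = x :: (l₁ ++ l₂) := by
  unfold front
  simp

theorem front_map {δ ε : Type*} (φ : δ → ε) (k : ℕ) (l : List δ) :
    (front k l).map φ = front k (l.map φ) := by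
  simp [front, List.map_take, List.map_drop]

theorem exists_split {δ : Type*} {l : List δ} {k : ℕ} (h : k < l.length) :
    ∃ l₁ x l₂, l = l₁ ++ x :: l₂ ∧ l₁.length = k := by
  refine ⟨l.take k, l[k], l.drop (k + 1), ?_, by simp; omega⟩
  rw [← List.drop_eq_getElem_cons h, List.take_append_drop]

/-- The clauses in functional form. -/
def Fcl (D : (Set ℕ → Set ℕ) → Set (Set ℕ)) (X : ℕ → List ℕ → List (Set ℕ) → ℕ → Prop)
    (e : ℕ) (as : List ℕ) (fs : List (Set ℕ)) (c : ℕ) : Prop :=
  (e = Nat.pair 1 0 ∧ 0 < as.length ∧ c = as.headI + 1) ∨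
  (e.unpair.1 = 2 ∧ c = e.unpair.2) ∨
  (e = Nat.pair 3 0 ∧ 0 < as.length ∧ c = as.headI) ∨
  (e.unpair.1 = 4 ∧ ∃ b, X e.unpair.2.unpair.2 as fs b ∧ X e.unpair.2.unpair.1 (b :: as) fs c) ∨
  (e.unpair.1 = 5 ∧ 0 < as.length ∧ as.headI = 0 ∧ X e.unpair.2.unpair.1 as.tail fs c) ∨
  (e.unpair.1 = 5 ∧ 0 < as.length ∧ as.headI ≠ 0 ∧ ∃ b, X e ((as.headI - 1) :: as.tail) fs b ∧
    X e.unpair.2.unpair.2 ((as.headI - 1) :: b :: as.tail) fs c) ∨
  (e.unpair.1 = 6 ∧ e.unpair.2.unpair.1 = 0 ∧ e.unpair.2.unpair.2.unpair.1 < as.length ∧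
    X e.unpair.2.unpair.2.unpair.2 (front e.unpair.2.unpair.2.unpair.1 as) fs c) ∨
  (e.unpair.1 = 6 ∧ e.unpair.2.unpair.1 = 1 ∧ e.unpair.2.unpair.2.unpair.1 < fs.length ∧
    X e.unpair.2.unpair.2.unpair.2 as (front e.unpair.2.unpair.2.unpair.1 fs) c) ∨
  (e = Nat.pair 7 0 ∧ 0 < as.length ∧ 0 < fs.length ∧ c = chi (as.headI ∈ fs.getD 0 ∅)) ∨
  (e.unpair.1 = 8 ∧ 0 < as.length ∧ ∃ G : Set ℕ → ℕ → ℕ,
    (∀ f ∈ D (fun f => {m | G f m ≠ 0}), ∀ m, X e.unpair.2 (m :: as.tail) (f :: fs) (G f m)) ∧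
    c = chi (as.headI ∈ nmi (fun f => {m | G f m ≠ 0}))) ∨
  (e.unpair.1 = 9 ∧ 0 < as.length ∧ e.unpair.2.unpair.1 ≤ as.tail.length ∧
    e.unpair.2.unpair.2 ≤ fs.length ∧
    X as.headI (as.tail.take (as.tail.length - e.unpair.2.unpair.1))
      (fs.take (fs.length - e.unpair.2.unpair.2)) c)

theorem clause_iff {D : (Set ℕ → Set ℕ) → Set (Set ℕ)}
    {X : ℕ → List ℕ → List (Set ℕ) → ℕ → Prop} {e : ℕ} {as : List ℕ} {fs : List (Set ℕ)}
    {c : ℕ} : Clause D X e as fs c ↔ Fcl D X e as fs c := by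
  constructor
  · intro H
    unfold Fcl
    cases H with
    | S1 a as fs => left; simp
    | S2 q as fs => right; left; simp
    | S3 a as fs => right; right; left; simp
    | S4 g h as fs b c h1 h2 =>
      right; right; right; left
      simp only [Nat.unpair_pair, true_and]
      exact ⟨b, h1, h2⟩
    | S5z g h as fs c h1 =>
      right; right; right; right; left
      simpa using h1
    | S5s g h a as fs b c h1 h2 =>
      right; right; right; right; right; left
      simp only [Nat.unpair_pair, true_and]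
      exact ⟨by simp, by simp, b, by simpa using h1, by simpa using h2⟩
    | S6a g a as as' fs c h1 =>
      right; right; right; right; right; right; left
      simp only [Nat.unpair_pair, true_and]
      refine ⟨by simp, ?_⟩
      rw [front_append]; exact h1
    | S6b g as f fs fs' c h1 =>
      right; right; right; right; right; right; right; left
      simp only [Nat.unpair_pair, true_and]
      refine ⟨by simp, ?_⟩
      rw [front_append]; exact h1
    | S7 a as f fs =>
      right; right; right; right; right; right; right; right; left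
      simp
    | S8 h' n as fs G h1 =>
      right; right; right; right; right; right; right; right; right; left
      simp only [Nat.unpair_pair, true_and]
      exact ⟨by simp, G, h1, rfl⟩
    | S9 e as as' fs fs' c h1 =>
      right; right; right; right; right; right; right; right; right; right
      simp only [Nat.unpair_pair, true_and, List.tail_cons, List.length_append, List.headI]
      refine ⟨by simp, by omega, by omega, ?_⟩
      simpa using h1
  · intro H
    have hpair : ∀ n : ℕ, n = Nat.pair n.unpair.1 n.unpair.2 := fun n => (Nat.pair_unpair n).symm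
    unfold Fcl at H
    rcases H with ⟨rfl, h1, rfl⟩ | ⟨h1, rfl⟩ | ⟨rfl, h1, rfl⟩ | ⟨h1, b, h2, h3⟩ |
      ⟨h1, h2, h3, h4⟩ | ⟨h1, h2, h3, b, h4, h5⟩ | ⟨h1, h2, h3, h4⟩ | ⟨h1, h2, h3, h4⟩ |
      ⟨rfl, h1, h2, rfl⟩ | ⟨h1, h2, G, h3, rfl⟩ | ⟨h1, h2, h3, h4, h5⟩
    · obtain ⟨a, as, rfl⟩ := List.exists_cons_of_length_pos h1
      exact .S1 ..
    · conv => arg 3; rw [hpair e, h1]
      exact .S2 ..
    · obtain ⟨a, as, rfl⟩ := List.exists_cons_of_length_pos h1
      exact .S3 ..
    · rw [hpair e, h1, hpair e.unpair.2]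
      exact .S4 _ _ _ _ b _ h2 h3
    · obtain ⟨a, as, rfl⟩ := List.exists_cons_of_length_pos h2
      simp only [List.headI] at h3
      subst h3
      rw [hpair e, h1, hpair e.unpair.2]
      exact .S5z _ _ _ _ _ (by simpa using h4)
    · obtain ⟨a, as, rfl⟩ := List.exists_cons_of_length_pos h2
      simp only [List.headI] at h3
      obtain ⟨a, rfl⟩ := Nat.exists_eq_succ_of_ne_zero h3
      have he : e = Nat.pair 5 (Nat.pair e.unpair.2.unpair.1 e.unpair.2.unpair.2) := by
        rw [← hpair e.unpair.2, ← h1, ← hpair e]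
      rw [he]
      exact .S5s _ _ _ _ _ b _ (by rw [← he]; simpa using h4) (by simpa using h5)
    · obtain ⟨l₁, x, l₂, rfl, h5⟩ := exists_split h3
      have he : e = Nat.pair 6 (Nat.pair 0 (Nat.pair l₁.length e.unpair.2.unpair.2.unpair.2)) := by
        rw [h5, ← hpair e.unpair.2.unpair.2, ← h2, ← hpair e.unpair.2, ← h1, ← hpair e]
      rw [he]
      rw [← h5, front_append] at h4
      exact .S6a _ _ _ _ _ _ h4
    · obtain ⟨l₁, x, l₂, rfl, h5⟩ := exists_split h3
      have he : e = Nat.pair 6 (Nat.pair 1 (Nat.pair l₁.length e.unpair.2.unpair.2.unpair.2)) := by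
        rw [h5, ← hpair e.unpair.2.unpair.2, ← h2, ← hpair e.unpair.2, ← h1, ← hpair e]
      rw [he]
      rw [← h5, front_append] at h4
      exact .S6b _ _ _ _ _ _ h4
    · obtain ⟨a, as, rfl⟩ := List.exists_cons_of_length_pos h1
      obtain ⟨f, fs, rfl⟩ := List.exists_cons_of_length_pos h2
      exact .S7 ..
    · obtain ⟨a, as, rfl⟩ := List.exists_cons_of_length_pos h2
      rw [hpair e, h1]
      exact .S8 _ _ _ _ G (by simpa using h3)
    · obtain ⟨a, as, rfl⟩ := List.exists_cons_of_length_pos h2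
      simp only [List.tail_cons, List.headI] at h3 h5
      have h6 := List.take_append_drop (as.length - e.unpair.2.unpair.1) as
      have h7 := List.take_append_drop (fs.length - e.unpair.2.unpair.2) fs
      have he : e = Nat.pair 9 (Nat.pair (as.drop (as.length - e.unpair.2.unpair.1)).length
          (fs.drop (fs.length - e.unpair.2.unpair.2)).length) := by
        rw [List.length_drop, List.length_drop, Nat.sub_sub_self h3, Nat.sub_sub_self h4,
          ← hpair e.unpair.2, ← h1, ← hpair e]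
      have := Clause.S9 (D := D) (X := X) a _ (as.drop (as.length - e.unpair.2.unpair.1)) _
        (fs.drop (fs.length - e.unpair.2.unpair.2)) c h5
      rwa [← he, h6, h7] at this

/-! ### Shifted reals -/

/-- `{i | i + 1 ∈ G}` -/
def shift (G : Set ℕ) : Set ℕ := {i | i + 1 ∈ G}

/-- `{i + 1 | i ∈ S}` -/
def lift (S : Set ℕ) : Set ℕ := {m | m ≠ 0 ∧ m - 1 ∈ S}

theorem shift_lift (S : Set ℕ) : shift (lift S) = S := by
  ext m; simp [shift, lift]

theorem zero_notMem_lift (S : Set ℕ) : 0 ∉ lift S := by simp [lift]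

theorem succ_mem_lift {S : Set ℕ} {n : ℕ} : n + 1 ∈ lift S ↔ n ∈ S := by simp [lift]

theorem lift_subset {S T : Set ℕ} (h : S ⊆ T) : lift S ⊆ lift T := fun _ hm => ⟨hm.1, h hm.2⟩

theorem subset_of_lift_subset {S T : Set ℕ} (h : lift S ⊆ lift T) : S ⊆ T := fun m hm => by
  have := h (succ_mem_lift.2 hm)
  exact succ_mem_lift.1 this

/-- The flagged version of the functional given by the partial values `V`. -/
def flag (V : Set ℕ → ℕ → ℕ → Prop) (G : Set ℕ) : Set ℕ :=
  {m | 0 ∉ G ∧ ((m = 0 ∧ ∃ m', ∀ b, ¬ V (shift G) m' b) ∨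
    (m ≠ 0 ∧ (∀ m', ∃ b, V (shift G) m' b) ∧ ∃ b, b ≠ 0 ∧ V (shift G) (m - 1) b))}

theorem flag_lift {V : Set ℕ → ℕ → ℕ → Prop} (hV : ∀ f m b b', V f m b → V f m b' → b = b')
    {G : Set ℕ → ℕ → ℕ} {S : Set ℕ} (h : ∀ m, V S m (G S m)) :
    flag V (lift S) = lift {m | G S m ≠ 0} := by
  ext m
  constructor
  · rintro ⟨-, h1⟩
    rcases h1 with ⟨-, m', h2⟩ | ⟨h2, h3, b, h4, h5⟩
    · rw [shift_lift] at h2
      exact absurd (h m') (h2 _)
    · rw [shift_lift] at h5
      refine ⟨h2, ?_⟩
      have := hV _ _ _ _ (h (m - 1)) h5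
      simp only [Set.mem_ofPred_eq]
      rw [this]; exact h4
  · rintro ⟨h2, h3⟩
    refine ⟨zero_notMem_lift S, Or.inr ⟨h2, ?_, G S (m - 1), h3, ?_⟩⟩
    · intro m'; rw [shift_lift]; exact ⟨_, h m'⟩
    · rw [shift_lift]; exact h _

theorem s8_flag {V : Set ℕ → ℕ → ℕ → Prop} (hV : ∀ f m b b', V f m b → V f m b' → b = b')
    (n c : ℕ) :
    (∃ G : Set ℕ → ℕ → ℕ, (∀ f ∈ usedReals (fun f => {m | G f m ≠ 0}), ∀ m, V f m (G f m)) ∧
      c = chi (n ∈ nmi (fun f => {m | G f m ≠ 0}))) ↔
    (0 ∉ nmi (flag V) ∧ c = chi (n + 1 ∈ nmi (flag V))) := by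
  constructor
  · rintro ⟨G, hG, rfl⟩
    set F : Set ℕ → Set ℕ := fun f => {m | G f m ≠ 0} with hF
    have key : ∀ β ≤ closureOrd F, iter (flag V) β = lift (iter F β) := by
      intro β
      induction β using WellFoundedLT.induction with
      | ind β ih =>
        intro hβ
        ext m
        rw [mem_iter]
        constructor
        · rintro ⟨γ, h1, h2⟩
          have h3 := h1.le.trans hβ
          rw [ih γ h1 h3, flag_lift hV (G := G) (hG _ ⟨γ, h3, rfl⟩)] at h2
          refine ⟨h2.1, ?_⟩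
          rw [mem_iter]
          exact ⟨γ, h1, h2.2⟩
        · rintro ⟨h1, h2⟩
          rw [mem_iter] at h2
          obtain ⟨γ, h3, h4⟩ := h2
          have h5 := h3.le.trans hβ
          refine ⟨γ, h3, ?_⟩
          rw [ih γ h3 h5, flag_lift hV (G := G) (hG _ ⟨γ, h5, rfl⟩)]
          exact ⟨h1, h4⟩
    have h1 := key _ le_rfl
    have h2 : flag V (iter (flag V) (closureOrd F)) ⊆ iter (flag V) (closureOrd F) := by
      rw [h1, flag_lift hV (G := G) (hG _ ⟨_, le_rfl, rfl⟩)]
      exact lift_subset (nmi_closed_iter F)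
    have h3 : nmi (flag V) = lift (nmi F) := by
      rw [nmi_eq h2]; exact h1
    rw [h3]
    refine ⟨zero_notMem_lift _, ?_⟩
    exact chi_congr succ_mem_lift.symm
  · rintro ⟨h0, rfl⟩
    classical
    let G : Set ℕ → ℕ → ℕ := fun f m => if h : ∃ b, V f m b then h.choose else 0
    have hGs : ∀ f m, (∃ b, V f m b) → V f m (G f m) := by
      intro f m h
      simp only [G, dif_pos h]
      exact h.choose_spec
    set F : Set ℕ → Set ℕ := fun f => {m | G f m ≠ 0} with hF
    have h0' : ∀ β ≤ closureOrd (flag V), 0 ∉ iter (flag V) β := fun β hβ h =>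
      h0 (iter_mono (flag V) hβ h)
    have tot : ∀ β ≤ closureOrd (flag V), ∀ m', ∃ b, V (shift (iter (flag V) β)) m' b := by
      intro β hβ
      by_contra hn
      push Not at hn
      have h1 : 0 ∈ flag V (iter (flag V) β) := ⟨h0' β hβ, Or.inl ⟨rfl, hn⟩⟩
      rcases eq_or_lt_of_le hβ with h2 | h2
      · rw [h2] at h1
        exact h0 (nmi_closed (flag V) h1)
      · refine h0' (β + 1) (Order.add_one_le_of_lt h2) ?_
        rw [iter_succ]
        exact Or.inr h1
    have key : ∀ β ≤ closureOrd (flag V), iter (flag V) β = lift (iter F β) := by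
      intro β
      induction β using WellFoundedLT.induction with
      | ind β ih =>
        intro hβ
        ext m
        rw [mem_iter]
        constructor
        · rintro ⟨γ, h1, h2⟩
          have h3 := h1.le.trans hβ
          have h4 := tot γ h3
          rw [ih γ h1 h3, shift_lift] at h4
          rw [ih γ h1 h3, flag_lift hV (G := G) (fun m => hGs _ _ (h4 m))] at h2
          refine ⟨h2.1, ?_⟩
          rw [mem_iter]
          exact ⟨γ, h1, h2.2⟩
        · rintro ⟨h1, h2⟩
          rw [mem_iter] at h2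
          obtain ⟨γ, h3, h4⟩ := h2
          have h5 := h3.le.trans hβ
          have h6 := tot γ h5
          rw [ih γ h3 h5, shift_lift] at h6
          refine ⟨γ, h3, ?_⟩
          rw [ih γ h3 h5, flag_lift hV (G := G) (fun m => hGs _ _ (h6 m))]
          exact ⟨h1, h4⟩
    have tot' : ∀ β ≤ closureOrd (flag V), ∀ m, V (iter F β) m (G (iter F β) m) := by
      intro β hβ m
      have h1 := tot β hβ
      rw [key β hβ, shift_lift] at h1
      exact hGs _ _ (h1 m)
    have h1 := key _ le_rfl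
    have h2 : F (iter F (closureOrd (flag V))) ⊆ iter F (closureOrd (flag V)) := by
      apply subset_of_lift_subset
      have h3 := nmi_closed_iter (flag V)
      rw [h1, flag_lift hV (G := G) (tot' _ le_rfl)] at h3
      exact h3
    have h3 := closureOrd_le' h2
    refine ⟨G, ?_, ?_⟩
    · rintro f ⟨β, h4, rfl⟩ m
      exact tot' β (h4.trans h3) m
    · have h4 : nmi (flag V) = lift (nmi F) := by
        rw [nmi_eq h2]; exact h1
      rw [h4]
      exact chi_congr succ_mem_lift

end Pool.Agent.Helper80.NMI
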